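import Pool.Agent.H1.Lor.Energy

/-!
# Generic continuation (MP_5bfe9a_gt)
-/

namespace Pool.H1.Lor

open Filter Topology Set Metric

/-- A local property of paths which determines them. -/
structure LocP {X : Type*} (P : (ℝ → X) → ℝ → Prop) : Prop where
  congr : ∀ {c c' : ℝ → X} {t : ℝ}, c' =ᶠ[𝓝 t] c → P c t → P c' t
  uniq : ∀ {c c' : ℝ → X} {s : Set ℝ}, IsOpen s → s.OrdConnected → (∀ t ∈ s, P c t) →
    (∀ t ∈ s, P c' t) → ∀ t₀ ∈ s, c =ᶠ[𝓝 t₀] c' → ∀ t ∈ s, c t = c' t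

/-- Gluing. -/
theorem LocP.glue {X : Type*} {P : (ℝ → X) → ℝ → Prop} (hP : LocP P) {U V : Set ℝ}
    (hU : IsOpen U) (hV : IsOpen V) {c c' : ℝ → X} (hc : ∀ t ∈ U, P c t) (hc' : ∀ t ∈ V, P c' t)
    (h : ∀ t ∈ U ∩ V, c t = c' t) :
    ∃ c'' : ℝ → X, (∀ t ∈ U ∪ V, P c'' t) ∧ (∀ t ∈ U, c'' t = c t) ∧ (∀ t ∈ V, c'' t = c' t) := by
  classical
  have h1 : ∀ t ∈ U, (if t ∈ U then c t else c' t) = c t := fun t ht => if_pos ht
  have h2 : ∀ t ∈ V, (if t ∈ U then c t else c' t) = c' t := by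
    intro t ht
    by_cases hU' : t ∈ U
    · rw [if_pos hU', h t ⟨hU', ht⟩]
    · rw [if_neg hU']
  refine ⟨fun t => if t ∈ U then c t else c' t, ?_, h1, h2⟩
  rintro t (ht | ht)
  · refine hP.congr ?_ (hc t ht)
    filter_upwards [hU.mem_nhds ht] with s hs using h1 s hs
  · refine hP.congr ?_ (hc' t ht)
    filter_upwards [hV.mem_nhds ht] with s hs using h2 s hs

/-- Gluing of a family of solutions on intervals with the same left end. -/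
theorem LocP.glue_family {X : Type*} {P : (ℝ → X) → ℝ → Prop} (hP : LocP P) {a b₀ : ℝ}
    (hab : a < b₀) {c₀ : ℝ → X} {S : Set ℝ}
    (h : ∀ b ∈ S, b₀ ≤ b ∧ ∃ c : ℝ → X, (∀ t ∈ Ioo a b, P c t) ∧ ∀ t ∈ Ioo a b₀, c t = c₀ t)
    (hS : S.Nonempty) :
    ∃ c : ℝ → X, (∀ t : ℝ, a < t → (∃ b ∈ S, t < b) → P c t) ∧ ∀ t ∈ Ioo a b₀, c t = c₀ t := by
  classical
  choose hb f hf hf0 using h
  -- agreement
  have hagree : ∀ b (hbS : b ∈ S) b' (hbS' : b' ∈ S), b ≤ b' → ∀ t ∈ Ioo a b,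
      f b hbS t = f b' hbS' t := by
    intro b hbS b' hbS' hbb' t ht
    obtain ⟨m, hm1, hm2⟩ := exists_between hab
    have hmb : m ∈ Ioo a b := ⟨hm1, hm2.trans_le (hb b hbS)⟩
    refine hP.uniq isOpen_Ioo ordConnected_Ioo (hf b hbS)
      (fun r hr => hf b' hbS' r ⟨hr.1, hr.2.trans_le hbb'⟩) m hmb ?_ t ht
    filter_upwards [Ioo_mem_nhds hm1 hm2] with r hr
    rw [hf0 b hbS r hr, hf0 b' hbS' r hr]
  have hagree' : ∀ b (hbS : b ∈ S) b' (hbS' : b' ∈ S), ∀ t, a < t → t < b → t < b' →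
      f b hbS t = f b' hbS' t := by
    intro b hbS b' hbS' t h0 h1 h2
    rcases le_total b b' with h3 | h3
    · exact hagree b hbS b' hbS' h3 t ⟨h0, h1⟩
    · exact (hagree b' hbS' b hbS h3 t ⟨h0, h2⟩).symm
  set g : ℝ → X := fun t => if ht : ∃ b, ∃ _ : b ∈ S, t < b then
    f ht.choose ht.choose_spec.choose t else c₀ t with hg
  have hgf : ∀ b (hbS : b ∈ S), ∀ t ∈ Ioo a b, g t = f b hbS t := by
    intro b hbS t ht
    have hex : ∃ b, ∃ _ : b ∈ S, t < b := ⟨b, hbS, ht.2⟩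
    rw [hg]
    simp only [dif_pos hex]
    exact hagree' _ _ _ _ t ht.1 hex.choose_spec.choose_spec ht.2
  refine ⟨g, ?_, ?_⟩
  · rintro t hat ⟨b, hbS, htb⟩
    refine hP.congr ?_ (hf b hbS t ⟨hat, htb⟩)
    filter_upwards [Ioo_mem_nhds hat htb] with r hr using hgf b hbS r hr
  · intro t ht
    obtain ⟨b, hbS⟩ := hS
    rw [hgf b hbS t ⟨ht.1, ht.2.trans_le (hb b hbS)⟩, hf0 b hbS t ht]

/-- Continuation up to `T`. -/
theorem LocP.continuation {X : Type*} {P : (ℝ → X) → ℝ → Prop} (hP : LocP P) {a b₀ : ℝ}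
    (hab : a < b₀) {T : EReal} {c₀ : ℝ → X} (hc₀ : ∀ t ∈ Ioo a b₀, P c₀ t)
    (ext : ∀ b : ℝ, b₀ ≤ b → (b : EReal) < T → ∀ c : ℝ → X, (∀ t ∈ Ioo a b, P c t) →
      (∀ t ∈ Ioo a b₀, c t = c₀ t) →
      ∃ b' > b, ∃ c' : ℝ → X, (∀ t ∈ Ioo a b', P c' t) ∧ ∀ t ∈ Ioo a b, c' t = c t) :
    ∃ c : ℝ → X, (∀ t : ℝ, a < t → (t : EReal) < T → P c t) ∧ ∀ t ∈ Ioo a b₀, c t = c₀ t := by
  set S : Set ℝ := {b | b₀ ≤ b ∧ ∃ c : ℝ → X, (∀ t ∈ Ioo a b, P c t) ∧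
    ∀ t ∈ Ioo a b₀, c t = c₀ t} with hS
  have hb₀S : b₀ ∈ S := ⟨le_rfl, c₀, hc₀, fun _ _ => rfl⟩
  obtain ⟨g, hg1, hg2⟩ := hP.glue_family hab (c₀ := c₀) (S := S) (fun b hb => hb) ⟨b₀, hb₀S⟩
  refine ⟨g, fun t hat htT => ?_, hg2⟩
  refine hg1 t hat ?_
  -- some element of `S` is larger than `t`
  by_contra hcon
  push Not at hcon
  have hbdd : BddAbove S := ⟨t, hcon⟩
  set s := sSup S with hs
  have hst : s ≤ t := csSup_le ⟨b₀, hb₀S⟩ hcon
  have hsb : b₀ ≤ s := le_csSup hbdd hb₀S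
  have hsT : (s : EReal) < T := lt_of_le_of_lt (EReal.coe_le_coe_iff.2 hst) htT
  have hgs : ∀ r ∈ Ioo a s, P g r := by
    intro r hr
    refine hg1 r hr.1 ?_
    obtain ⟨b, hb, hrb⟩ := exists_lt_of_lt_csSup ⟨b₀, hb₀S⟩ hr.2
    exact ⟨b, hb, hrb⟩
  obtain ⟨b', hb', c', hc', hcc'⟩ := ext s hsb hsT g hgs hg2
  have : b' ∈ S := ⟨hsb.trans hb'.le, c', hc', fun r hr => by
    rw [hcc' r ⟨hr.1, hr.2.trans_le hsb⟩, hg2 r hr]⟩
  exact absurd (le_csSup hbdd this) (not_le.2 hb')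

variable {W : Type*} [NormedAddCommGroup W] [NormedSpace ℝ W]

/-- Time reversal of solutions. -/
theorem SolAt.reverse {B : Form W} {K : ℝ} {S : W → ℝ} {y : ℝ → W} {t : ℝ}
    (h : SolAt B K S y t) : SolAt B K S (fun s => y (-s)) (-t) := by
  obtain ⟨h1, h2⟩ := h
  have tn : Tendsto (fun s : ℝ => -s) (𝓝 (-t)) (𝓝 t) := by
    have := (continuous_neg (G := ℝ)).tendsto (-t)
    rwa [neg_neg] at this
  have e1 : ∀ᶠ s in 𝓝 (-t), HasDerivAt (fun s => y (-s)) (-(deriv y (-s))) s := by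
    filter_upwards [tn.eventually h1] with s hs
    have h3 : HasDerivAt (fun s : ℝ => -s) (-1) s := (hasDerivAt_id s).neg
    have h4 : HasDerivAt (fun s => y (-s)) ((-1 : ℝ) • deriv y (-s)) s := hs.scomp s h3
    rwa [neg_one_smul] at h4
  have e2 : deriv (fun s => y (-s)) =ᶠ[𝓝 (-t)] fun s => -(deriv y (-s)) := by
    filter_upwards [e1] with s hs using hs.deriv
  refine ⟨?_, ?_⟩
  · filter_upwards [e1] with s hs
    exact hs.differentiableAt.hasDerivAt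
  · have h3 : HasDerivAt (fun s : ℝ => -s) (-1) (-t) := (hasDerivAt_id (-t)).neg
    have h2' : HasDerivAt (deriv y) (acc B K S (y t) (deriv y t)) (-(-t)) := by rwa [neg_neg]
    have h4 := (h2'.scomp (-t) h3).neg
    have h5 := h4.congr_of_eventuallyEq e2
    refine h5.congr_deriv ?_
    rw [e2.self_of_nhds]
    simp only [neg_neg]
    unfold acc
    simp only [map_neg, neg_apply, smul_neg, mul_neg, neg_smul, neg_neg, one_smul]

namespace GX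

variable {M : Type*} [TopologicalSpace M] {B : Form W} {K : ℝ} {G : GX M B K}
  {σ : M → ℝ}

/-- Time reversal. -/
theorem Geo.reverse {c : ℝ → M} {t : ℝ} (h : G.Geo σ c t) :
    G.Geo σ (fun s => c (-s)) (-t) := by
  obtain ⟨h1, φ, ψ, h2, h3⟩ := h
  refine ⟨?_, φ, ψ, by simpa using h2, h3.reverse⟩
  have : ContinuousAt c (-(-t)) := by rwa [neg_neg]
  exact ContinuousAt.comp (g := c) (f := fun s : ℝ => -s) this continuousAt_neg

theorem locP_geo [T2Space M] (hσ : G.Smooth σ) : LocP (G.Geo σ) where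
  congr := fun h hc => Geo.congr hc h
  uniq := fun hs hs' hc hc' _ ht h => geo_unique hσ hs hs' hc hc' ht h

theorem complete_of_ext [T2Space M] (hσ : G.Smooth σ)
    (ext : ∀ a b : ℝ, a < b → ∀ c : ℝ → M, (∀ t ∈ Ioo a b, G.Geo σ c t) →
      ∃ b' > b, ∃ c' : ℝ → M, (∀ t ∈ Ioo a b', G.Geo σ c' t) ∧ ∀ t ∈ Ioo a b, c' t = c t) :
    G.Complete σ := by
  -- forward continuation
  have fwd : ∀ a b : ℝ, a < b → ∀ c : ℝ → M, (∀ t ∈ Ioo a b, G.Geo σ c t) →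
      ∃ c' : ℝ → M, (∀ t, a < t → G.Geo σ c' t) ∧ ∀ t ∈ Ioo a b, c' t = c t := by
    intro a b hab c hc
    obtain ⟨c', h1, h2⟩ := (locP_geo hσ).continuation (T := ⊤) hab hc
      (fun b₁ hb₁ _ c₁ hc₁ _ => ext a b₁ (hab.trans_le hb₁) c₁ hc₁)
    exact ⟨c', fun t ht => h1 t ht (EReal.coe_lt_top t), h2⟩
  intro s hs hs' hne c hc
  obtain ⟨x, hx⟩ := hne
  obtain ⟨ε, hε, hball⟩ := Metric.isOpen_iff.1 hs x hx
  rw [Real.ball_eq_Ioo] at hball
  obtain ⟨c₁, h11, h12⟩ := fwd (x - ε) (x + ε) (by linarith) c (fun t ht => hc t (hball ht))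
  -- backward
  have hrev : ∀ t ∈ Ioo (-x - ε) (-x + ε), G.Geo σ (fun s => c₁ (-s)) t := by
    intro t ht
    have := (h11 (-t) (by linarith [ht.2])).reverse
    rwa [neg_neg] at this
  obtain ⟨c₂, h21, h22⟩ := fwd (-x - ε) (-x + ε) (by linarith) _ hrev
  have hrev2 : ∀ t ∈ Iio (x + ε), G.Geo σ (fun s => c₂ (-s)) t := by
    intro t ht
    have := (h21 (-t) (by linarith [mem_Iio.1 ht])).reverse
    rwa [neg_neg] at this
  have hx1 : x ∈ Ioo (x - ε) (x + ε) := by constructor <;> linarith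
  have hagree : ∀ t ∈ Iio (x + ε) ∩ Ioi (x - ε), (fun s => c₂ (-s)) t = c₁ t := by
    rintro t ⟨ht1, ht2⟩
    have := h22 (-t) ⟨by linarith [mem_Iio.1 ht1], by linarith [mem_Ioi.1 ht2]⟩
    simpa using this
  obtain ⟨c₃, h31, h32, h33⟩ := (locP_geo hσ).glue isOpen_Iio isOpen_Ioi hrev2
    (fun t ht => h11 t ht) hagree
  have hall : ∀ t, G.Geo σ c₃ t := by
    intro t
    apply h31
    rcases lt_or_ge t (x + ε) with h | h
    · exact Or.inl h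
    · exact Or.inr (by show x - ε < t; linarith)
  refine ⟨c₃, hall, ?_⟩
  refine geo_unique hσ hs hs' (fun r _ => hall r) hc hx ?_
  filter_upwards [Ioo_mem_nhds hx1.1 hx1.2] with r hr
  rw [h33 r hr.1, h12 r hr]

end GX

end Pool.H1.Lor
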