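import Pool.Agent.H1.Lor.Exist

/-!
# Conservation of energy
-/

namespace Pool.H1.Lor

open Filter Topology Set Metric

variable {W : Type*} [NormedAddCommGroup W] [NormedSpace ℝ W]

namespace GX

variable {M : Type*} [TopologicalSpace M] {B : Form W} {K : ℝ} {G : GX M B K}
  {φ φ' : M → W} {ψ ψ' : W → M} {σ : M → ℝ} {c : ℝ → M} {t : ℝ}

/-- The velocity is tangent to the space form. -/
theorem tan_deriv (hσ : G.Smooth σ) (hc : G.Geo σ c t) (h : G.chart (c t) φ ψ) :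
    Tan B.b K (φ (c t)) (deriv (φ ∘ c) t) := by
  by_cases hK : K = 0
  · simp [Tan, hK]
  have hs := hc.solAt hσ h
  have h1 : HasDerivAt (φ ∘ c) (deriv (φ ∘ c) t) t := hs.1.self_of_nhds
  have h2 : HasDerivAt (fun s => K * B.b ((φ ∘ c) s) ((φ ∘ c) s))
      (K * (B.b (deriv (φ ∘ c) t) ((φ ∘ c) t) + B.b ((φ ∘ c) t) (deriv (φ ∘ c) t))) t :=
    ((B.b.hasFDerivAt.comp_hasDerivAt t h1).clm_apply h1).const_mul K
  have h3 : ∀ᶠ s in 𝓝 t, K * B.b ((φ ∘ c) s) ((φ ∘ c) s) = 1 := by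
    filter_upwards [hc.1.eventually (G.nhds h)] with s hs'
    have := G.onQ hs'
    unfold OnQ at this
    rwa [dl_ne hK, add_zero] at this
  have h4 : HasDerivAt (fun s => K * B.b ((φ ∘ c) s) ((φ ∘ c) s)) 0 t :=
    (hasDerivAt_const t (1 : ℝ)).congr_of_eventuallyEq h3
  have h5 := h2.unique h4
  unfold Tan
  rw [B.symm (deriv (φ ∘ c) t) ((φ ∘ c) t)] at h5
  simp only [Function.comp_apply] at h5
  have : (2:ℝ) * (K * B.b (φ (c t)) (deriv (φ ∘ c) t)) = 0 := by linarith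
  linarith

/-- The energy, computed in a chosen chart. -/
noncomputable def energy (G : GX M B K) (σ : M → ℝ) (c : ℝ → M) (t : ℝ) : ℝ :=
  Real.exp (2 * σ (c t)) *
    B.b (deriv ((G.exists_chart (c t)).choose ∘ c) t)
      (deriv ((G.exists_chart (c t)).choose ∘ c) t)

theorem energy_eq (hσ : G.Smooth σ) (hc : G.Geo σ c t) (h : G.chart (c t) φ ψ) :
    G.energy σ c t = Real.exp (2 * σ (c t)) *
      B.b (deriv (φ ∘ c) t) (deriv (φ ∘ c) t) := by
  unfold energy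
  have h0 := (G.exists_chart (c t)).choose_spec.choose_spec
  set φ₀ := (G.exists_chart (c t)).choose
  set ψ₀ := (G.exists_chart (c t)).choose_spec.choose
  obtain ⟨A, hA⟩ := G.rigid h h0
  have := (G.solAt_of_solAt hσ hc.1 h h0 (hc.solAt hσ h) hA).2
  rw [this, A.isom]

theorem hasDerivAt_energy (hσ : G.Smooth σ) (hc : ∀ᶠ s in 𝓝 t, G.Geo σ c s) :
    HasDerivAt (G.energy σ c) 0 t := by
  have hct := hc.self_of_nhds
  obtain ⟨φ, ψ, h⟩ := G.exists_chart (c t)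
  have hs := hct.solAt hσ h
  have hev : G.energy σ c =ᶠ[𝓝 t] fun s => Real.exp (2 * (σ ∘ ψ) ((φ ∘ c) s)) *
      B.b (deriv (φ ∘ c) s) (deriv (φ ∘ c) s) := by
    filter_upwards [hc, hct.1.eventually (G.nhds h)] with s h1 h2
    rw [energy_eq hσ h1 h2]
    simp only [Function.comp_apply, G.left_inv h2]
  have h1 : HasDerivAt (φ ∘ c) (deriv (φ ∘ c) t) t := hs.1.self_of_nhds
  have h2 := hs.2
  have hfd : HasFDerivAt (σ ∘ ψ) (fderiv ℝ (σ ∘ ψ) (φ (c t))) ((φ ∘ c) t) :=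
    (G.differentiableAt hσ h).hasFDerivAt
  have h3 : HasDerivAt (fun s => (σ ∘ ψ) ((φ ∘ c) s))
      (fderiv ℝ (σ ∘ ψ) (φ (c t)) (deriv (φ ∘ c) t)) t := hfd.comp_hasDerivAt t h1
  have h4 := (h3.const_mul 2).exp
  have h5 : HasDerivAt (fun s => B.b (deriv (φ ∘ c) s) (deriv (φ ∘ c) s))
      (B.b (acc B K (σ ∘ ψ) ((φ ∘ c) t) (deriv (φ ∘ c) t)) (deriv (φ ∘ c) t) +
        B.b (deriv (φ ∘ c) t) (acc B K (σ ∘ ψ) ((φ ∘ c) t) (deriv (φ ∘ c) t))) t :=
    (B.b.hasFDerivAt.comp_hasDerivAt t h2).clm_apply h2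
  have h6 := (h4.mul h5).congr_of_eventuallyEq hev
  refine h6.congr_deriv ?_
  have htan := tan_deriv hσ hct h
  unfold Tan at htan
  rw [B.symm (acc _ _ _ _ _) (deriv (φ ∘ c) t)]
  unfold acc
  simp only [map_add, map_sub, map_smul, smul_eq_mul, Function.comp_apply]
  rw [B.symm (deriv (φ ∘ c) t) (B.sharp _), B.b_sharp, B.symm (deriv (φ ∘ c) t) (φ (c t))]
  have key : ∀ (e S bb k : ℝ), K * k = 0 →
      e * (2 * S) * bb + e * (-(K * bb) * k - 2 * S * bb + bb * S +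
        (-(K * bb) * k - 2 * S * bb + bb * S)) = 0 := by
    intro e S bb k hk
    linear_combination (-2 * e * bb) * hk
  exact key _ _ _ _ htan

theorem energy_const (hσ : G.Smooth σ) {s : Set ℝ} (hs : IsOpen s) (hs' : s.OrdConnected)
    (hc : ∀ r ∈ s, G.Geo σ c r) : ∀ r ∈ s, ∀ r' ∈ s, G.energy σ c r = G.energy σ c r' := by
  have hd : ∀ r ∈ s, HasDerivAt (G.energy σ c) 0 r := by
    intro r hr
    apply hasDerivAt_energy hσ
    filter_upwards [hs.mem_nhds hr] with q hq using hc q hq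
  intro r hr r' hr'
  exact hs.is_const_of_deriv_eq_zero hs'.isPreconnected
    (fun q hq => (hd q hq).differentiableAt.differentiableWithinAt)
    (fun q hq => (hd q hq).deriv) hr hr'

/-- Global geodesics of the complete metric `g₀`. -/
theorem exists_geo_of_complete [FiniteDimensional ℝ W] (h0 : G.Complete (fun _ => 0))
    {x : M} (h : G.chart x φ ψ) {u : W} (hu : Tan B.b K (φ x) u) :
    ∃ c : ℝ → M, (∀ t, G.Geo (fun _ => 0) c t) ∧ c 0 = x ∧ deriv (φ ∘ c) 0 = u := by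
  have hσ : G.Smooth (fun _ => (0 : ℝ)) := fun _ _ _ _ => contDiffAt_const
  obtain ⟨r, hr, ε, hε, H⟩ := geo_exists hσ h u
  obtain ⟨c, hc0, hc1, hc2⟩ := H x h (by simp [hr.le]) u hu (by simp [hr.le]) 0
  obtain ⟨c', hc', hcc'⟩ := h0 (Ioo (0 - ε) (0 + ε)) isOpen_Ioo ordConnected_Ioo
    ⟨0, by constructor <;> linarith⟩ c hc2
  refine ⟨c', hc', ?_, ?_⟩
  · rw [hcc' 0 (by constructor <;> linarith), hc0]
  · have : (φ ∘ c') =ᶠ[𝓝 0] φ ∘ c := by
      filter_upwards [Ioo_mem_nhds (show (0 - ε) < 0 by linarith) (show 0 < 0 + ε by linarith)]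
        with s hs
      simp [hcc' s hs]
    rw [this.deriv_eq, hc1]

end GX

end Pool.H1.Lor
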