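import Pool.Agent.H1.Lor.Loc

/-!
# Extension criterion (P4)
-/

namespace Pool.H1.Lor

open Filter Topology Set Metric

variable {W : Type*} [NormedAddCommGroup W] [NormedSpace ℝ W]
  {F : Type*} [NormedAddCommGroup F] [InnerProductSpace ℝ F]

namespace GX

variable {M : Type*} [TopologicalSpace M] {B : Form W} {K : ℝ} {G : GX M B K}
  {σ : M → ℝ} {ξ : M → F}

/-- P4. -/
theorem ext_crit [CompactSpace M] [T2Space M] [FiniteDimensional ℝ W] (hσ : G.Smooth σ)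
    (hξ : G.Smooth ξ) (himm : G.Immersion ξ) {a b : ℝ} (hab : a < b) {c : ℝ → M}
    (hc : ∀ t ∈ Ioo a b, G.Geo σ c t) {R : ℝ} (hR : ∃ᶠ t in 𝓝[<] b, ‖deriv (ξ ∘ c) t‖ ≤ R) :
    ∃ b' > b, ∃ c' : ℝ → M, (∀ t ∈ Ioo a b', G.Geo σ c' t) ∧ ∀ t ∈ Ioo a b, c' t = c t := by
  have : ProperSpace W := FiniteDimensional.proper ℝ W
  set l : Filter ℝ := 𝓝[<] b ⊓ 𝓟 {t | ‖deriv (ξ ∘ c) t‖ ≤ R} with hl
  have hlne : l.NeBot := by
    rw [hl]; exact frequently_mem_iff_neBot.1 hR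
  obtain ⟨x₀, hx₀⟩ := exists_clusterPt_of_compactSpace (map c l)
  obtain ⟨φ, ψ, h⟩ := G.exists_chart x₀
  obtain ⟨C, hC⟩ := eventually_goodChart hσ hξ himm h
  have hC0 : 0 ≤ C := (norm_nonneg _).trans hC.self_of_nhds.y
  set l' : Filter ℝ := l ⊓ comap c (𝓝 x₀) with hl'
  have hl'ne : l'.NeBot := by
    rw [← map_neBot_iff c, hl', Filter.push_pull, inf_comm]
    exact hx₀
  have tc : Tendsto c l' (𝓝 x₀) := tendsto_comap.mono_left inf_le_right
  have hlt : ∀ᶠ t in l', t ∈ Ioo a b := by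
    have h1 : l' ≤ 𝓝[<] b := inf_le_left.trans inf_le_left
    exact h1 (Ioo_mem_nhdsLT hab)
  have hRl : ∀ᶠ t in l', ‖deriv (ξ ∘ c) t‖ ≤ R := by
    have h1 : l' ≤ 𝓟 {t | ‖deriv (ξ ∘ c) t‖ ≤ R} := inf_le_left.trans inf_le_right
    exact h1 (mem_principal_self _)
  set u : ℝ → W := fun t => deriv (φ ∘ c) t with hu
  have hub : ∀ᶠ t in l', u t ∈ closedBall (0 : W) (C * R) := by
    filter_upwards [hlt, hRl, tc.eventually hC] with t h1 h2 h3
    rw [mem_closedBall_zero_iff]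
    have hs := (hc t h1).solAt hσ h3.chart
    have h4 : HasDerivAt (φ ∘ c) (deriv (φ ∘ c) t) t := hs.1.self_of_nhds
    have h5 : HasFDerivAt (ξ ∘ ψ) (fderiv ℝ (ξ ∘ ψ) (φ (c t))) ((φ ∘ c) t) :=
      (G.differentiableAt hξ h3.chart).hasFDerivAt
    have h6 := h5.comp_hasDerivAt t h4
    have h7 : (ξ ∘ c) =ᶠ[𝓝 t] (ξ ∘ ψ) ∘ (φ ∘ c) := by
      filter_upwards [(hc t h1).1.eventually (G.nhds h3.chart)] with s hs'
      simp only [Function.comp_apply, G.left_inv hs']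
    have h8 : fderiv ℝ (ξ ∘ ψ) (φ (c t)) (u t) = deriv (ξ ∘ c) t :=
      (h6.congr_of_eventuallyEq h7).deriv.symm
    have h9 := h3.inj (u t) (tan_deriv hσ (hc t h1) h3.chart)
    rw [h8] at h9
    exact h9.trans (by gcongr)
  obtain ⟨u₀, -, hu₀⟩ := (isCompact_closedBall (0 : W) (C * R)) (f := map u l')
    (by rw [le_principal_iff]; exact hub)
  set l'' : Filter ℝ := l' ⊓ comap u (𝓝 u₀) with hl''
  have hl''ne : l''.NeBot := by
    rw [← map_neBot_iff u, hl'', Filter.push_pull, inf_comm]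
    exact hu₀
  have tu : Tendsto u l'' (𝓝 u₀) := tendsto_comap.mono_left inf_le_right
  have hle : l'' ≤ l' := inf_le_left
  obtain ⟨r, hr, ε, hε, hex⟩ := geo_exists hσ h u₀
  have e1 : ∀ᶠ t in l'', b - ε < t := by
    have h1 : l'' ≤ 𝓝[<] b := hle.trans (inf_le_left.trans inf_le_left)
    exact h1 (nhdsWithin_le_nhds (lt_mem_nhds (by linarith)))
  have e2 : ∀ᶠ t in l'', G.chart (c t) φ ψ := hle (tc.eventually (G.nhds h))
  have e3 : ∀ᶠ t in l'', ‖φ (c t) - φ x₀‖ ≤ r := by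
    have h1 : Tendsto (fun t => ‖φ (c t) - φ x₀‖) l' (𝓝 0) := by
      have h2 : Tendsto (fun t => φ (c t)) l' (𝓝 (φ x₀)) := Tendsto.comp (G.cont h) tc
      have h3 := (h2.sub_const (φ x₀)).norm
      simpa using h3
    exact hle (h1.eventually (ge_mem_nhds hr))
  have e4 : ∀ᶠ t in l'', ‖u t - u₀‖ ≤ r := by
    have h3 := (tu.sub_const u₀).norm
    rw [sub_self, norm_zero] at h3
    exact h3.eventually (ge_mem_nhds hr)
  have e0 : ∀ᶠ t in l'', t ∈ Ioo a b := hle hlt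
  obtain ⟨t, ⟨⟨⟨⟨ht1, ht2⟩, ht3⟩, ht4⟩, ht5⟩⟩ := ((((e0.and e1).and e2).and e3).and e4).exists
  obtain ⟨c₁, hc₁0, hc₁1, hc₁⟩ := hex (c t) ht3 ht4 (u t) (tan_deriv hσ (hc t ht1) ht3) ht5 t
  have htb : t < b := ht1.2
  -- the two geodesics agree near `t`
  have hloc : c =ᶠ[𝓝 t] c₁ := by
    refine geo_unique_local hσ ?_ ?_ ht3 hc₁0.symm hc₁1.symm
    · filter_upwards [isOpen_Ioo.mem_nhds ht1] with s hs using hc s hs
    · filter_upwards [Ioo_mem_nhds (show t - ε < t by linarith) (show t < t + ε by linarith)]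
        with s hs using hc₁ s hs
  have hagree : ∀ s ∈ Ioo (max a (t - ε)) b, c s = c₁ s := by
    refine geo_unique hσ isOpen_Ioo ordConnected_Ioo (t := t) ?_ ?_ ?_ hloc
    · intro s hs; exact hc s ⟨(le_max_left _ _).trans_lt hs.1, hs.2⟩
    · intro s hs; exact hc₁ s ⟨(le_max_right _ _).trans_lt hs.1, by linarith [hs.2]⟩
    · exact ⟨max_lt ht1.1 (by linarith), htb⟩
  refine ⟨t + ε, by linarith, fun s => if s < b then c s else c₁ s, ?_, ?_⟩
  · intro s hs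
    rcases lt_or_ge s b with hsb | hsb
    · refine (hc s ⟨hs.1, hsb⟩).congr ?_
      filter_upwards [gt_mem_nhds hsb] with q hq
      simp [hq]
    · refine (hc₁ s ⟨by linarith, hs.2⟩).congr ?_
      filter_upwards [lt_mem_nhds (show t < s by linarith)] with q hq
      by_cases hqb : q < b
      · simp only [hqb, if_true]
        exact hagree q ⟨max_lt (ht1.1.trans hq) (by linarith), hqb⟩
      · simp [hqb]
  · intro s hs
    simp [hs.2]

end GX

end Pool.H1.Lor
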