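import Pool.Agent.H1.Lor.B

/-!
# The model spaces
-/

namespace Pool.H1.Lor

open Filter Topology Set Module
open scoped Manifold ContDiff
open Pool.MP_5bfe9a_gt

/-- A symmetric nondegenerate form on a finite dimensional space is a `Form`. -/
noncomputable def mkForm {W : Type*} [NormedAddCommGroup W] [NormedSpace ℝ W]
    [FiniteDimensional ℝ W] (b : W →L[ℝ] W →L[ℝ] ℝ) (hs : ∀ x y, b x y = b y x)
    (hn : ∀ x, (∀ y, b x y = 0) → x = 0) : Form W :=
  have hinj : Function.Injective (b : W →ₗ[ℝ] (W →L[ℝ] ℝ)) := by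
    rw [injective_iff_map_eq_zero]
    intro x hx
    apply hn
    intro y
    have : b x = 0 := hx
    rw [this]; rfl
  have hdim : finrank ℝ W = finrank ℝ (W →L[ℝ] ℝ) := by
    rw [← (LinearMap.toContinuousLinearMap (𝕜 := ℝ) (E := W) (F' := ℝ)).finrank_eq]
    exact (Subspace.dual_finrank_eq (K := ℝ) (V := W)).symm
  have hsurj : Function.Surjective (b : W →ₗ[ℝ] (W →L[ℝ] ℝ)) :=
    (LinearMap.injective_iff_surjective_of_finrank_eq_finrank hdim).1 hinj
  { b := b
    symm := hs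
    sharp := ((LinearEquiv.ofBijective (b : W →ₗ[ℝ] (W →L[ℝ] ℝ))
      ⟨hinj, hsurj⟩).toContinuousLinearEquiv.symm : (W →L[ℝ] ℝ) →L[ℝ] W)
    b_sharp := by
      intro l w
      have := (LinearEquiv.ofBijective (b : W →ₗ[ℝ] (W →L[ℝ] ℝ)) ⟨hinj, hsurj⟩).apply_symm_apply l
      exact congrArg (fun L : W →L[ℝ] ℝ => L w) this
    nondeg := hn }

section
variable {V : Type*} [NormedAddCommGroup V] [NormedSpace ℝ V] [FiniteDimensional ℝ V]

/-- A Lorentz form as a continuous bilinear map. -/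
noncomputable def lorB {q : V → V → ℝ} (h : IsLorentzForm q) : V →L[ℝ] V →L[ℝ] ℝ :=
  LinearMap.toContinuousLinearMap
    ((LinearMap.toContinuousLinearMap (𝕜 := ℝ) (E := V) (F' := ℝ)).toLinearMap ∘ₗ lorLin h)

theorem lorB_apply {q : V → V → ℝ} (h : IsLorentzForm q) (x y : V) : lorB h x y = q x y := rfl

theorem lorB_nondeg {q : V → V → ℝ} (h : IsLorentzForm q) (x : V)
    (hx : ∀ y, lorB h x y = 0) : x = 0 :=
  lorentz_nondeg h hx

noncomputable def lorForm {q : V → V → ℝ} (h : IsLorentzForm q) : Form V :=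
  mkForm (lorB h) (fun x y => h.symm x y) (lorB_nondeg h)

/-- The ambient form as a continuous bilinear map. -/
noncomputable def ambB {q : V → V → ℝ} (h : IsLorentzForm q) (K : ℝ) :
    (V × ℝ) →L[ℝ] (V × ℝ) →L[ℝ] ℝ :=
  ((ContinuousLinearMap.compL ℝ (V × ℝ) V ℝ).flip
      (ContinuousLinearMap.fst ℝ V ℝ)).comp
    ((lorB h).comp (ContinuousLinearMap.fst ℝ V ℝ)) +
  K⁻¹ • (ContinuousLinearMap.snd ℝ V ℝ).smulRight
    (ContinuousLinearMap.snd ℝ V ℝ)

theorem ambB_apply {q : V → V → ℝ} (h : IsLorentzForm q) (K : ℝ) (x y : V × ℝ) :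
    ambB h K x y = ambient q K x y := by
  have h1 : ambB h K x y = q x.1 y.1 + K⁻¹ * (x.2 * y.2) := by
    simp [ambB, lorB_apply]
  rw [h1]
  simp only [ambient]
  ring

theorem ambB_symm {q : V → V → ℝ} (h : IsLorentzForm q) (K : ℝ) (x y : V × ℝ) :
    ambB h K x y = ambB h K y x := by
  rw [ambB_apply, ambB_apply]
  unfold ambient
  rw [h.symm, mul_comm x.2]

theorem ambB_nondeg {q : V → V → ℝ} (h : IsLorentzForm q) {K : ℝ} (hK : K ≠ 0) (x : V × ℝ)
    (hx : ∀ y, ambB h K x y = 0) : x = 0 := by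
  have hz : q x.1 0 = 0 := by
    have := h.map_smul 0 x.1 0
    simpa using this
  have h1 : x.1 = 0 := by
    apply lorentz_nondeg h
    intro y
    have := hx (y, 0)
    rw [ambB_apply] at this
    simpa [ambient] using this
  have h2 : x.2 = 0 := by
    have := hx (0, 1)
    rw [ambB_apply] at this
    simpa [ambient, hz, hK] using this
  exact Prod.ext h1 h2

noncomputable def ambForm {q : V → V → ℝ} (h : IsLorentzForm q) {K : ℝ} (hK : K ≠ 0) :
    Form (V × ℝ) :=
  mkForm (ambB h K) (ambB_symm h K) (ambB_nondeg h hK)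

end

theorem isLorentzForm_smul {T : Type*} [AddCommGroup T] [Module ℝ T]
    {q : T → T → ℝ} (h : IsLorentzForm q) {c : ℝ} (hc : 0 < c) :
    IsLorentzForm (fun u v => c * q u v) := by
  obtain ⟨t, ht, hpos⟩ := h.signature
  refine ⟨fun u v => by rw [h.symm], fun u v w => by rw [h.map_add]; ring,
    fun a u v => by rw [h.map_smul]; ring, t, mul_neg_of_pos_of_neg hc ht, fun v hv hv0 => ?_⟩
  exact mul_pos hc (hpos v ((mul_eq_zero.1 hv).resolve_left hc.ne') hv0)

end Pool.H1.Lor
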