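import Pool.Agent.H1.Lor.Final
import Pool.Agent.H1.Lor.BGlue

/-!
# Conclusion (MP_5bfe9a_gt)
-/

namespace Pool.H1.Lor

open Filter Topology Set Module
open scoped Manifold ContDiff
open Pool.MP_5bfe9a_gt

variable {V : Type*} [NormedAddCommGroup V] [NormedSpace ℝ V] [FiniteDimensional ℝ V]
  {M : Type*} [TopologicalSpace M] [T2Space M] [CompactSpace M]
  [ChartedSpace V M] [IsManifold 𝓘(ℝ, V) ∞ M]

theorem core {W : Type*} [NormedAddCommGroup W] [NormedSpace ℝ W] [FiniteDimensional ℝ W]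
    (B : Form W) (K : ℝ) (hdim : finrank ℝ W = finrank ℝ V + if K = 0 then 0 else 1)
    (g0 : TensorField V M) (hL : ∀ x, IsLorentzForm (g0 x))
    (hcc : ∀ p : M, ∃ φ : M → W, ContMDiffAt 𝓘(ℝ, V) 𝓘(ℝ, W) ∞ φ p ∧
      ∀ᶠ x in 𝓝 p, OnQ B.b K (φ x) ∧ ∀ u v : TangentSpace 𝓘(ℝ, V) x,
        B.b (mfderiv 𝓘(ℝ, V) 𝓘(ℝ, W) φ x u)
          (mfderiv 𝓘(ℝ, V) 𝓘(ℝ, W) φ x v) = g0 x u v)
    {σ : M → ℝ} (hσ : ContMDiff 𝓘(ℝ, V) 𝓘(ℝ, ℝ) ∞ σ) {g : TensorField V M}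
    (hg : ∀ x u v, g x u v = Real.exp (2 * σ x) * g0 x u v)
    (hc : GeodesicallyComplete g0) : GeodesicallyComplete g := by
  have hg00 : ∀ x u v, g0 x u v = Real.exp (2 * (0 : ℝ)) * g0 x u v := by
    intro x u v; simp
  have h1 : (mgx B K hdim g0 hL hcc).Complete (fun _ => 0) := by
    intro s hs1 hs2 hs3 c hgeo
    obtain ⟨c', h2, h3⟩ := hc s hs1 hs2 hs3 c (fun t ht =>
      (mgx_geo_iff (σ := fun _ => 0) contMDiff_const hg00 c t).2 (hgeo t ht))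
    exact ⟨c', fun t => (mgx_geo_iff (σ := fun _ => 0) contMDiff_const hg00 c' t).1 (h2 t), h3⟩
  obtain ⟨n, e, he1, -, he2⟩ := exists_embedding_euclidean_of_compact
    (I := 𝓘(ℝ, V)) (M := M)
  have hσ' : (mgx B K hdim g0 hL hcc).Smooth σ := mgx_smooth hσ
  have he' : (mgx B K hdim g0 hL hcc).Smooth e := mgx_smooth he1
  have h4 : (mgx B K hdim g0 hL hcc).Complete σ := by
    refine GX.main h1 hσ' he' ?_
    intro x φ ψ h w hw hw0
    exact mgx_immersion he1 (x := x)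
      (fun u hu => he2 x (by rw [hu]; exact (map_zero _).symm)) h hw hw0
  intro s hs1 hs2 hs3 c hgeo
  obtain ⟨c', h2, h3⟩ := h4 s hs1 hs2 hs3 c (fun t ht =>
    (mgx_geo_iff hσ hg c t).1 (hgeo t ht))
  exact ⟨c', fun t => (mgx_geo_iff hσ hg c' t).2 (h2 t), h3⟩

theorem conformal_complete (g : TensorField V M) (f : M → ℝ) (K : ℝ)
    (hg : IsLorentzMetric g) (hf : ContMDiff 𝓘(ℝ, V) 𝓘(ℝ, ℝ) ∞ f)
    (hK : HasConstantCurvature (fun x u v => Real.exp (2 * f x) * g x u v) K)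
    (hc : GeodesicallyComplete (fun x u v => Real.exp (2 * f x) * g x u v)) :
    GeodesicallyComplete g := by
  obtain ⟨q, hq, hcc⟩ := hK
  have hL : ∀ x, IsLorentzForm (fun u v => Real.exp (2 * f x) * g x u v) := fun x =>
    isLorentzForm_smul (hg.lorentz x) (Real.exp_pos _)
  have hσ : ContMDiff 𝓘(ℝ, V) 𝓘(ℝ, ℝ) ∞ (fun x => -f x) := hf.neg
  have hgσ : ∀ x u v, g x u v =
      Real.exp (2 * (-f x)) * (Real.exp (2 * f x) * g x u v) := by
    intro x u v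
    rw [← mul_assoc, ← Real.exp_add]
    simp
  by_cases h0 : K = 0
  · refine core (lorForm hq) K (by simp [h0]) _ hL ?_ hσ hgσ hc
    intro p
    obtain ⟨φ, h1, h2⟩ := (hcc p).1 h0
    refine ⟨φ, h1, ?_⟩
    filter_upwards [h2] with x hx
    exact ⟨by simp [OnQ, h0, dl], fun u v => hx u v⟩
  · refine core (ambForm hq h0) K (by simp [h0]) _ hL ?_ hσ hgσ hc
    intro p
    obtain ⟨φ, h1, h2⟩ := (hcc p).2 h0
    refine ⟨φ, h1, ?_⟩
    filter_upwards [h2] with x hx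
    refine ⟨?_, fun u v => ?_⟩
    · have h3 : (ambForm hq h0).b (φ x) (φ x) = 1 / K := (ambB_apply hq K _ _).trans hx.1
      unfold OnQ
      rw [h3, dl_ne h0]
      field_simp
      simp
    · exact (ambB_apply hq K _ _).trans (hx.2 u v)

end Pool.H1.Lor
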