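import Mathlib

/-!
# Ambient linear algebra for space forms (MP_5bfe9a_gt)

`W` is a finite dimensional real normed space with a symmetric nondegenerate bilinear form `b`;
the space form of curvature `K` is `Q = {y | K b(y,y) = 1}` for `K ≠ 0` and `Q = W` for `K = 0`.
Everything is written uniformly with `dl K = 1` if `K = 0` and `0` otherwise.
-/

namespace Pool.H1.Lor

open Filter Topology Set

variable {W : Type*} [NormedAddCommGroup W] [NormedSpace ℝ W]

/-- `1` if `K = 0` and `0` otherwise. -/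
noncomputable def dl (K : ℝ) : ℝ := if K = 0 then 1 else 0

theorem dl_zero : dl 0 = 1 := by simp [dl]

theorem dl_ne {K : ℝ} (h : K ≠ 0) : dl K = 0 := by simp [dl, h]

theorem mul_dl (K : ℝ) : K * dl K = 0 := by
  by_cases h : K = 0
  · simp [h]
  · simp [dl_ne h]

/-- `y` lies on the space form of curvature `K`. -/
def OnQ (b : W →L[ℝ] W →L[ℝ] ℝ) (K : ℝ) (y : W) : Prop := K * b y y + dl K = 1

/-- `w` is tangent at `y` to the space form of curvature `K`. -/
def Tan (b : W →L[ℝ] W →L[ℝ] ℝ) (K : ℝ) (y w : W) : Prop := K * b y w = 0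

/-- The normalising factor: `√(K b(z,z))` for `K ≠ 0` and `1` for `K = 0`. -/
noncomputable def nf (b : W →L[ℝ] W →L[ℝ] ℝ) (K : ℝ) (z : W) : ℝ := Real.sqrt (K * b z z + dl K)

/-- Radial projection to the space form (identity for `K = 0`). -/
noncomputable def nrm (b : W →L[ℝ] W →L[ℝ] ℝ) (K : ℝ) (z : W) : W := (nf b K z)⁻¹ • z

/-- A symmetric nondegenerate form on a finite dimensional space, with its inverse
(`sharp`, from functionals to vectors). -/
structure Form (W : Type*) [NormedAddCommGroup W] [NormedSpace ℝ W] where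
  b : W →L[ℝ] W →L[ℝ] ℝ
  symm : ∀ x y, b x y = b y x
  sharp : (W →L[ℝ] ℝ) →L[ℝ] W
  b_sharp : ∀ (l : W →L[ℝ] ℝ) (w : W), b (sharp l) w = l w
  nondeg : ∀ x, (∀ y, b x y = 0) → x = 0

/-- Lorentzian condition for the tangent space at `y`. -/
def LorAt (b : W →L[ℝ] W →L[ℝ] ℝ) (K : ℝ) (y : W) : Prop :=
  ∀ τ p, Tan b K y τ → Tan b K y p → b τ τ < 0 → b τ p = 0 → p ≠ 0 → 0 < b p p

/-- Isometries of the ambient form preserving the space form: `z ↦ L z + a`, `K a = 0`. -/
structure Iso {W : Type*} [NormedAddCommGroup W] [NormedSpace ℝ W]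
    (b : W →L[ℝ] W →L[ℝ] ℝ) (K : ℝ) where
  L : W ≃L[ℝ] W
  a : W
  isom : ∀ x y, b (L x) (L y) = b x y
  Ka : K • a = 0

namespace Iso

variable {b : W →L[ℝ] W →L[ℝ] ℝ} {K : ℝ}

/-- The action of an isometry. -/
def act (A : Iso b K) (z : W) : W := A.L z + A.a

/-- The inverse action. -/
def inv (A : Iso b K) (z : W) : W := A.L.symm (z - A.a)

@[simp] theorem inv_act (A : Iso b K) (z : W) : A.inv (A.act z) = z := by simp [act, inv]

@[simp] theorem act_inv (A : Iso b K) (z : W) : A.act (A.inv z) = z := by simp [act, inv]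

end Iso

/-- Acceleration of the geodesics of `e^{2Σ} b` on the space form, for a function `Σ` that is
homogeneous of degree `0` when `K ≠ 0`. -/
noncomputable def acc (B : Form W) (K : ℝ) (S : W → ℝ) (y u : W) : W :=
  -(K * B.b u u) • y - (2 * fderiv ℝ S y u) • u + B.b u u • B.sharp (fderiv ℝ S y)

/-- `y` solves the geodesic equation of `e^{2S} b` at time `t`. -/
def SolAt (B : Form W) (K : ℝ) (S : W → ℝ) (y : ℝ → W) (t : ℝ) : Prop :=
  (∀ᶠ s in 𝓝 t, HasDerivAt y (deriv y s) s) ∧
    HasDerivAt (deriv y) (acc B K S (y t) (deriv y t)) t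

end Pool.H1.Lor
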