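import Pool.Agent.H1.Lor.GXDefs

/-!
# Lemmas on the space form, normalisation and isometries
-/

namespace Pool.H1.Lor

open Filter Topology Set

variable {W : Type*} [NormedAddCommGroup W] [NormedSpace ℝ W]

section
variable {b : W →L[ℝ] W →L[ℝ] ℝ} {K : ℝ}

theorem OnQ.pos {y : W} (h : OnQ b K y) : 0 < K * b y y + dl K := by
  unfold OnQ at h; rw [h]; norm_num

theorem nf_zero (b : W →L[ℝ] W →L[ℝ] ℝ) (z : W) : nf b 0 z = 1 := by simp [nf, dl_zero]

theorem nrm_zero (b : W →L[ℝ] W →L[ℝ] ℝ) (z : W) : nrm b 0 z = z := by simp [nrm, nf_zero]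

theorem nf_onQ {y : W} (h : OnQ b K y) : nf b K y = 1 := by
  unfold OnQ at h; unfold nf; rw [h, Real.sqrt_one]

theorem nrm_onQ {y : W} (h : OnQ b K y) : nrm b K y = y := by
  simp [nrm, nf_onQ h]

theorem nf_pos {z : W} (h : 0 < K * b z z + dl K) : 0 < nf b K z := Real.sqrt_pos.2 h

theorem onQ_nrm {z : W} (h : 0 < K * b z z + dl K) : OnQ b K (nrm b K z) := by
  by_cases hK : K = 0
  · subst hK; simp [OnQ, dl_zero]
  · have h1 := nf_pos h
    have h2 : nf b K z ^ 2 = K * b z z + dl K := Real.sq_sqrt h.le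
    unfold OnQ nrm
    rw [dl_ne hK, add_zero] at *
    simp only [map_smul, smul_apply, smul_eq_mul]
    field_simp
    linarith

theorem nf_smul {z : W} {c : ℝ} (hK : K ≠ 0) (hc : 0 < c) : nf b K (c • z) = c * nf b K z := by
  unfold nf
  rw [dl_ne hK, add_zero, add_zero]
  simp only [map_smul, smul_apply, smul_eq_mul]
  rw [show K * (c * (c * b z z)) = c ^ 2 * (K * b z z) by ring, Real.sqrt_mul (sq_nonneg c),
    Real.sqrt_sq hc.le]

theorem nrm_smul {z : W} {c : ℝ} (hK : K ≠ 0) (hc : 0 < c) : nrm b K (c • z) = nrm b K z := by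
  unfold nrm
  rw [nf_smul hK hc, smul_smul]
  congr 1
  field_simp

theorem continuous_form : Continuous fun z : W => K * b z z + dl K := by fun_prop

theorem eventually_pos {y : W} (h : OnQ b K y) : ∀ᶠ z in 𝓝 y, 0 < K * b z z + dl K :=
  (continuous_form.tendsto y).eventually (lt_mem_nhds h.pos)

theorem continuousAt_nf {z : W} : ContinuousAt (nf b K) z :=
  (Real.continuous_sqrt.comp continuous_form).continuousAt

theorem continuousAt_nrm {z : W} (h : 0 < K * b z z + dl K) : ContinuousAt (nrm b K) z := by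
  unfold nrm
  exact (continuousAt_nf.inv₀ (nf_pos h).ne').smul continuousAt_id

theorem contDiffAt_nf {z : W} (h : 0 < K * b z z + dl K) {n : WithTop ℕ∞} :
    ContDiffAt ℝ n (nf b K) z := by
  unfold nf
  refine ContDiffAt.sqrt ?_ h.ne'
  exact ((contDiffAt_const.mul (b.contDiff.contDiffAt.clm_apply contDiffAt_id)).add
    contDiffAt_const)

theorem contDiffAt_nrm {z : W} (h : 0 < K * b z z + dl K) {n : WithTop ℕ∞} :
    ContDiffAt ℝ n (nrm b K) z := by
  unfold nrm
  exact ((contDiffAt_nf h).inv (nf_pos h).ne').smul contDiffAt_id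

end

namespace Iso

variable {b : W →L[ℝ] W →L[ℝ] ℝ} {K : ℝ} (A : Iso b K)

theorem a_eq_zero (hK : K ≠ 0) : A.a = 0 := (smul_eq_zero.1 A.Ka).resolve_left hK

theorem Kb_act (z : W) : K * b (A.act z) (A.act z) = K * b z z := by
  by_cases hK : K = 0
  · simp [hK]
  · unfold act; rw [A.a_eq_zero hK, add_zero, A.isom]

theorem isom_symm (x y : W) : b (A.L.symm x) (A.L.symm y) = b x y := by
  rw [← A.isom, A.L.apply_symm_apply, A.L.apply_symm_apply]

theorem Kb_inv (z : W) : K * b (A.inv z) (A.inv z) = K * b z z := by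
  have := A.Kb_act (A.inv z)
  rw [act_inv] at this
  exact this.symm

theorem nf_act (z : W) : nf b K (A.act z) = nf b K z := by unfold nf; rw [A.Kb_act]

theorem nf_inv (z : W) : nf b K (A.inv z) = nf b K z := by unfold nf; rw [A.Kb_inv]

theorem nrm_act (z : W) : nrm b K (A.act z) = A.act (nrm b K z) := by
  by_cases hK : K = 0
  · subst hK; simp [nrm_zero]
  · unfold nrm
    rw [A.nf_act]
    unfold act
    rw [A.a_eq_zero hK, add_zero, add_zero, map_smul]

theorem nrm_inv (z : W) : nrm b K (A.inv z) = A.inv (nrm b K z) := by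
  have := A.nrm_act (A.inv z)
  rw [act_inv] at this
  rw [this, inv_act]

theorem onQ_act {z : W} : OnQ b K (A.act z) ↔ OnQ b K z := by
  unfold OnQ; rw [A.Kb_act]

theorem tan_act {y w : W} : Tan b K (A.act y) (A.L w) ↔ Tan b K y w := by
  unfold Tan
  by_cases hK : K = 0
  · simp [hK]
  · unfold act; rw [A.a_eq_zero hK, add_zero, A.isom]

theorem continuous_act : Continuous A.act := by unfold act; fun_prop

theorem continuous_inv : Continuous A.inv := by unfold inv; fun_prop

theorem hasFDerivAt_act (z : W) : HasFDerivAt A.act (A.L : W →L[ℝ] W) z := by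
  unfold act
  exact (A.L : W →L[ℝ] W).hasFDerivAt.add_const A.a

theorem hasFDerivAt_inv (z : W) : HasFDerivAt A.inv (A.L.symm : W →L[ℝ] W) z := by
  unfold inv
  simp only [map_sub]
  exact (A.L.symm : W →L[ℝ] W).hasFDerivAt.sub_const _

theorem contDiff_inv {n : WithTop ℕ∞} : ContDiff ℝ n A.inv := by
  unfold inv
  exact A.L.symm.contDiff.comp (contDiff_id.sub contDiff_const)

/-- The inverse isometry. -/
def symm : Iso b K where
  L := A.L.symm
  a := -(A.L.symm A.a)
  isom := A.isom_symm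
  Ka := by rw [smul_neg, ← map_smul, A.Ka, map_zero, neg_zero]

theorem symm_act (z : W) : A.symm.act z = A.inv z := by
  simp [symm, act, inv, sub_eq_add_neg]

theorem symm_inv (z : W) : A.symm.inv z = A.act z := by
  simp [symm, act, inv, sub_eq_add_neg]

end Iso

theorem Form.eq_of_forall (B : Form W) {x x' : W} (h : ∀ w, B.b x w = B.b x' w) : x = x' := by
  rw [← sub_eq_zero]
  refine B.nondeg _ fun w => ?_
  rw [map_sub, sub_apply, h, sub_self]

theorem Form.sharp_comp (B : Form W) {K : ℝ} (A : Iso B.b K) (l : W →L[ℝ] ℝ) :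
    B.sharp (l.comp (A.L.symm : W →L[ℝ] W)) = A.L (B.sharp l) := by
  refine B.eq_of_forall fun w => ?_
  rw [B.b_sharp]
  have : w = A.L (A.L.symm w) := (A.L.apply_symm_apply w).symm
  conv_rhs => rw [this]
  rw [A.isom, B.b_sharp]
  rfl

/-- Covariance of the acceleration. -/
theorem acc_act (B : Form W) {K : ℝ} (A : Iso B.b K) {S S' : W → ℝ} {y u : W}
    (h : S' =ᶠ[𝓝 (A.act y)] S ∘ A.inv) (hS : DifferentiableAt ℝ S y) :
    acc B K S' (A.act y) (A.L u) = A.L (acc B K S y u) := by
  have h1 : fderiv ℝ S' (A.act y) = (fderiv ℝ S y).comp (A.L.symm : W →L[ℝ] W) := by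
    rw [h.fderiv_eq]
    have h2 := A.hasFDerivAt_inv (A.act y)
    have h3 : HasFDerivAt S (fderiv ℝ S y) (A.inv (A.act y)) := by
      rw [A.inv_act]; exact hS.hasFDerivAt
    exact (h3.comp (A.act y) h2).fderiv
  unfold acc
  rw [h1, B.sharp_comp A, A.isom]
  have h4 : (K * B.b u u) • A.act y = (K * B.b u u) • A.L y := by
    unfold Iso.act
    rw [smul_add, mul_comm, mul_smul, mul_smul, A.Ka, smul_zero, add_zero, ← mul_smul,
      mul_comm]
  simp only [map_add, map_sub, map_smul, neg_smul, map_neg, ContinuousLinearMap.comp_apply,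
    ContinuousLinearEquiv.coe_coe, ContinuousLinearEquiv.symm_apply_apply, h4]

/-- Covariance of solutions. -/
theorem SolAt.act {B : Form W} {K : ℝ} (A : Iso B.b K) {S S' : W → ℝ} {y y' : ℝ → W} {t : ℝ}
    (h : SolAt B K S y t) (hS : DifferentiableAt ℝ S (y t))
    (hy : y' =ᶠ[𝓝 t] fun s => A.act (y s)) (hS' : S' =ᶠ[𝓝 (y' t)] S ∘ A.inv) :
    SolAt B K S' y' t ∧ deriv y' t = A.L (deriv y t) := by
  obtain ⟨h1, h2⟩ := h
  have hy' : ∀ᶠ s in 𝓝 t, HasDerivAt y' (A.L (deriv y s)) s := by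
    filter_upwards [h1, hy.eventually_nhds] with s hs hs'
    have := (A.hasFDerivAt_act (y s)).comp_hasDerivAt s hs
    exact this.congr_of_eventuallyEq hs'
  have hd : deriv y' =ᶠ[𝓝 t] fun s => A.L (deriv y s) := by
    filter_upwards [hy'] with s hs using hs.deriv
  have hyt : y' t = A.act (y t) := hy.self_of_nhds
  refine ⟨⟨?_, ?_⟩, hd.self_of_nhds⟩
  · filter_upwards [hy'] with s hs
    exact hs.differentiableAt.hasDerivAt
  · have h3 : HasDerivAt (fun s => A.L (deriv y s)) (A.L (acc B K S (y t) (deriv y t))) t :=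
      (A.L : W →L[ℝ] W).hasFDerivAt.comp_hasDerivAt t h2
    have h4 := h3.congr_of_eventuallyEq hd
    rw [hyt] at hS' ⊢
    rw [hd.self_of_nhds, acc_act B A hS' hS]
    exact h4

end Pool.H1.Lor
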