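import Pool.Agent.H1.Lor.BMan

/-!
# The interface for manifolds of constant curvature
-/

namespace Pool.H1.Lor

open Filter Topology Set Module
open scoped Manifold ContDiff
open Pool.MP_5bfe9a_gt

variable {V : Type*} [NormedAddCommGroup V] [NormedSpace ℝ V]
  {M : Type*} [TopologicalSpace M] [ChartedSpace V M]
variable {W : Type*} [NormedAddCommGroup W] [NormedSpace ℝ W]
variable {B : Form W} {K : ℝ} {g0 : TensorField V M} {x : M} {φ : M → W} {ψ : W → M}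

namespace IsCh

theorem onQ (h : IsCh B K g0 x φ ψ) : OnQ B.b K (φ x) := h.iso.self_of_nhds.1

theorem left_self (h : IsCh B K g0 x φ ψ) : ψ (φ x) = x := h.left.self_of_nhds

theorem cont (h : IsCh B K g0 x φ ψ) : ContinuousAt φ x := h.smooth.continuousAt

theorem cont_inv (h : IsCh B K g0 x φ ψ) : ContinuousAt ψ (φ x) := h.smooth_inv.continuousAt

theorem tendsto_inv (h : IsCh B K g0 x φ ψ) : Tendsto ψ (𝓝 (φ x)) (𝓝 x) := by
  have := h.cont_inv.tendsto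
  rwa [h.left_self] at this

/-- coordinate expression at the base point -/
theorem coord_base (_h : IsCh B K g0 x φ ψ) :
    (φ ∘ (extChartAt 𝓘(ℝ, V) x).symm) (extChartAt 𝓘(ℝ, V) x x) = φ x := by
  simp only [Function.comp]
  rw [extChartAt_to_inv]

theorem coord_onQ (h : IsCh B K g0 x φ ψ) : ∀ᶠ z in 𝓝 (extChartAt 𝓘(ℝ, V) x x),
    OnQ B.b K ((φ ∘ (extChartAt 𝓘(ℝ, V) x).symm) z) := by
  filter_upwards [(tendsto_symm x).eventually h.iso] with z hz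
  exact hz.1

theorem coord_left (h : IsCh B K g0 x φ ψ) : ∀ᶠ z in 𝓝 (extChartAt 𝓘(ℝ, V) x x),
    (extChartAt 𝓘(ℝ, V) x ∘ ψ) ((φ ∘ (extChartAt 𝓘(ℝ, V) x).symm) z) = z := by
  filter_upwards [(tendsto_symm x).eventually h.left, eventually_target x] with z hz1 hz2
  simp only [Function.comp]
  rw [hz1]
  exact (extChartAt 𝓘(ℝ, V) x).right_inv hz2

theorem coord_right (h : IsCh B K g0 x φ ψ) : ∀ᶠ w in 𝓝 (φ x),
    (φ ∘ (extChartAt 𝓘(ℝ, V) x).symm) ((extChartAt 𝓘(ℝ, V) x ∘ ψ) w) = nrm B.b K w ∧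
    (extChartAt 𝓘(ℝ, V) x ∘ ψ) (nrm B.b K w) = (extChartAt 𝓘(ℝ, V) x ∘ ψ) w := by
  filter_upwards [h.right, h.tendsto_inv.eventually (extChartAt_source_mem_nhds (I := 𝓘(ℝ, V)) x)]
    with w hw1 hw2
  simp only [Function.comp]
  rw [hw1.2, (extChartAt 𝓘(ℝ, V) x).left_inv hw2]
  exact ⟨hw1.1, rfl⟩

theorem coord_inv_contDiffAt (h : IsCh B K g0 x φ ψ) :
    ContDiffAt ℝ 3 (extChartAt 𝓘(ℝ, V) x ∘ ψ) (φ x) := by
  have h1 := (contMDiffAt_iff_target.1 h.smooth_inv).2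
  rw [h.left_self] at h1
  exact h1.contDiffAt

variable [IsManifold 𝓘(ℝ, V) ∞ M]

theorem coord_metric (h : IsCh B K g0 x φ ψ) : ∀ᶠ z in 𝓝 (extChartAt 𝓘(ℝ, V) x x), ∀ u v,
    inChart g0 x z u v = B.b (fderiv ℝ (φ ∘ (extChartAt 𝓘(ℝ, V) x).symm) z u)
      (fderiv ℝ (φ ∘ (extChartAt 𝓘(ℝ, V) x).symm) z v) := by
  filter_upwards [(tendsto_symm x).eventually h.iso, coord_fderiv h.smooth] with z hz1 hz2 u v
  rw [hz2 u, hz2 v, hz1.2]
  rfl

omit [IsManifold 𝓘(ℝ, V) ∞ M] in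
/-- Tangent vectors of the space form are in the image of the derivative of the chart. -/
theorem exists_tan (h : IsCh B K g0 x φ ψ) {w : W} (hw : Tan B.b K (φ x) w) :
    mfderiv 𝓘(ℝ, V) 𝓘(ℝ, W) φ x (mfderiv 𝓘(ℝ, W) 𝓘(ℝ, V) ψ (φ x) w) = w := by
  have h1 : MDifferentiableAt 𝓘(ℝ, W) 𝓘(ℝ, V) ψ (φ x) :=
    h.smooth_inv.mdifferentiableAt (by norm_num)
  have h2 : MDifferentiableAt 𝓘(ℝ, V) 𝓘(ℝ, W) φ (ψ (φ x)) := by
    rw [h.left_self]; exact h.smooth.mdifferentiableAt (by norm_num)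
  have h3 := mfderiv_comp_apply (φ x) h2 h1 w
  have h4 : φ ∘ ψ =ᶠ[𝓝 (φ x)] nrm B.b K := by
    filter_upwards [h.right] with z hz
    exact hz.1
  rw [h4.mfderiv_eq, mfderiv_eq_fderiv, (hasFDerivAt_nrm B.symm h.onQ).fderiv] at h3
  have h5 : (ContinuousLinearMap.id ℝ W - (K • B.b (φ x)).smulRight (φ x)) w = w := by
    have : K * B.b (φ x) w = 0 := hw
    simp [this]
  have h6 : w = mfderiv 𝓘(ℝ, V) 𝓘(ℝ, W) φ (ψ (φ x))
      (mfderiv 𝓘(ℝ, W) 𝓘(ℝ, V) ψ (φ x) w) := h5.symm.trans h3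
  rw [h.left_self] at h6
  exact h6.symm

omit [IsManifold 𝓘(ℝ, V) ∞ M] in
theorem lor (hL : ∀ x, IsLorentzForm (g0 x)) (h : IsCh B K g0 x φ ψ) : LorAt B.b K (φ x) := by
  intro τ p hτ hp h1 h2 h3
  obtain ⟨τ', hτ'⟩ : ∃ τ' : TangentSpace 𝓘(ℝ, V) x,
    mfderiv 𝓘(ℝ, V) 𝓘(ℝ, W) φ x τ' = τ := ⟨_, h.exists_tan hτ⟩
  obtain ⟨p', hp'⟩ : ∃ p' : TangentSpace 𝓘(ℝ, V) x,
    mfderiv 𝓘(ℝ, V) 𝓘(ℝ, W) φ x p' = p := ⟨_, h.exists_tan hp⟩
  have hiso := h.iso.self_of_nhds.2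
  subst hτ' hp'
  rw [hiso] at h1 h2 ⊢
  refine lorentz_pos (hL x) h1 h2 ?_
  rintro rfl
  exact h3 (map_zero _)

theorem comp [FiniteDimensional ℝ W] (h : IsCh B K g0 x φ ψ) (A : Iso B.b K) : IsCh B K g0 x (A.act ∘ φ) (ψ ∘ A.inv) := by
  have hact : ContDiff ℝ ⊤ A.act := A.L.contDiff.add contDiff_const
  have hinv : ContDiff ℝ ⊤ A.inv := A.L.symm.contDiff.comp (contDiff_id.sub contDiff_const)
  have hactd : ∀ z, HasFDerivAt A.act (A.L : W →L[ℝ] W) z := by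
    intro z
    exact (A.L.hasFDerivAt).add_const A.a
  have hq : ∀ z, K * B.b (A.act z) (A.act z) = K * B.b z z := by
    intro z
    by_cases hK : K = 0
    · simp [hK]
    · have ha : A.a = 0 := (smul_eq_zero.1 A.Ka).resolve_left hK
      simp only [Iso.act, ha, add_zero, A.isom]
  have hnrm : ∀ z, A.act (nrm B.b K z) = nrm B.b K (A.act z) := by
    intro z
    by_cases hK : K = 0
    · have h1 : ∀ w, nrm B.b K w = w := fun w => nrm_of_onQ (by simp [OnQ, dl, hK])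
      rw [h1, h1]
    · have ha : A.a = 0 := (smul_eq_zero.1 A.Ka).resolve_left hK
      have h1 : nf B.b K (A.act z) = nf B.b K z := by
        unfold nf; rw [hq]
      unfold nrm
      rw [h1]
      simp only [Iso.act, ha, add_zero, map_smul]
  have hnrm' : ∀ z, A.inv (nrm B.b K z) = nrm B.b K (A.inv z) := by
    intro z
    have := hnrm (A.inv z)
    rw [A.act_inv] at this
    rw [← this, A.inv_act]
  have hbase : A.inv ((A.act ∘ φ) x) = φ x := by simp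
  have hinvt : Tendsto A.inv (𝓝 ((A.act ∘ φ) x)) (𝓝 (φ x)) := by
    have := (hinv.continuous.continuousAt (x := (A.act ∘ φ) x)).tendsto
    rwa [hbase] at this
  constructor
  · exact (hact.contMDiff.contMDiffAt.of_le le_top).comp x h.smooth
  · filter_upwards [h.iso, eventually_contMDiffAt h.smooth] with x' hx1 hx2
    refine ⟨?_, fun u v => ?_⟩
    · have h1 : K * B.b (φ x') (φ x') + dl K = 1 := hx1.1
      change K * B.b (A.act (φ x')) (A.act (φ x')) + dl K = 1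
      rw [hq]; exact h1
    · have h2 : ∀ u, mfderiv 𝓘(ℝ, V) 𝓘(ℝ, W) (A.act ∘ φ) x' u =
          A.L (mfderiv 𝓘(ℝ, V) 𝓘(ℝ, W) φ x' u) := by
        intro u
        have h3 : MDifferentiableAt 𝓘(ℝ, W) 𝓘(ℝ, W) A.act (φ x') :=
          (hactd (φ x')).differentiableAt.mdifferentiableAt
        rw [mfderiv_comp_apply x' h3 (hx2.mdifferentiableAt (by norm_num)) u,
          mfderiv_eq_fderiv, (hactd (φ x')).fderiv]
        rfl
      rw [h2, h2]
      exact (A.isom _ _).trans (hx1.2 u v)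
  · refine ContMDiffAt.comp _ ?_ (hinv.contMDiff.contMDiffAt.of_le le_top)
    rw [hbase]; exact h.smooth_inv
  · filter_upwards [h.left] with x' hx'
    simp [hx']
  · filter_upwards [hinvt.eventually h.right] with z hz
    simp only [Function.comp]
    rw [hz.1, hnrm, A.act_inv, hnrm', hz.2]
    exact ⟨rfl, rfl⟩

theorem nhds (h : IsCh B K g0 x φ ψ) : ∀ᶠ x' in 𝓝 x, IsCh B K g0 x' φ ψ := by
  have h1 : ∀ᶠ w in 𝓝 (φ x), ContMDiffAt 𝓘(ℝ, W) 𝓘(ℝ, V) 3 ψ w :=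
    (contMDiffAt_iff_contMDiffAt_nhds (by simp)).1 h.smooth_inv
  filter_upwards [eventually_contMDiffAt h.smooth, h.iso.eventually_nhds,
    h.cont.tendsto.eventually h1, h.left.eventually_nhds,
    h.cont.tendsto.eventually h.right.eventually_nhds] with x' a1 a2 a3 a4 a5
  exact ⟨a1, a2, a3, a4, a5⟩

theorem rigid [FiniteDimensional ℝ W] {φ' : M → W} {ψ' : W → M} (h : IsCh B K g0 x φ ψ)
    (h' : IsCh B K g0 x φ' ψ') :
    ∃ A : Iso B.b K, ∀ᶠ x' in 𝓝 x, φ' x' = A.act (φ x') := by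
  have hb := h.coord_base
  obtain ⟨A, hA⟩ := rigid_calc B K (P := φ ∘ (extChartAt 𝓘(ℝ, V) x).symm)
    (P' := φ' ∘ (extChartAt 𝓘(ℝ, V) x).symm) (T := extChartAt 𝓘(ℝ, V) x ∘ ψ)
    (z0 := extChartAt 𝓘(ℝ, V) x x)
    (coord_contDiffAt h.smooth) (coord_contDiffAt h'.smooth)
    (by rw [hb]; exact h.coord_inv_contDiffAt) h.coord_onQ h'.coord_onQ h.coord_left
    (by rw [hb]; exact h.coord_right)
    (by
      filter_upwards [h.coord_metric, h'.coord_metric] with z hz1 hz2 u v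
      rw [← hz1, ← hz2])
  refine ⟨A, ?_⟩
  have hc : Tendsto (extChartAt 𝓘(ℝ, V) x) (𝓝 x) (𝓝 (extChartAt 𝓘(ℝ, V) x x)) :=
    (continuousAt_extChartAt x).tendsto
  filter_upwards [hc.eventually hA, extChartAt_source_mem_nhds (I := 𝓘(ℝ, V)) x]
    with x' hx1 hx2
  simp only [Function.comp] at hx1
  rwa [(extChartAt 𝓘(ℝ, V) x).left_inv hx2] at hx1

end IsCh

theorem lorentz_nondeg {T : Type*} [AddCommGroup T] [Module ℝ T]
    {q : T → T → ℝ} (h : IsLorentzForm q) {u : T} (hu : ∀ v, q u v = 0) : u = 0 := by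
  obtain ⟨t, ht, hpos⟩ := h.signature
  by_contra h0
  have := hpos u (by rw [h.symm, hu]) h0
  rw [hu] at this
  exact lt_irrefl _ this

variable [IsManifold 𝓘(ℝ, V) ∞ M] [FiniteDimensional ℝ V]

theorem exists_isCh [FiniteDimensional ℝ W]
    (hdim : finrank ℝ W = finrank ℝ V + if K = 0 then 0 else 1)
    (hL : ∀ x, IsLorentzForm (g0 x)) {p : M} {φ : M → W}
    (hφ : ContMDiffAt 𝓘(ℝ, V) 𝓘(ℝ, W) ∞ φ p)
    (hiso : ∀ᶠ x in 𝓝 p, OnQ B.b K (φ x) ∧ ∀ u v : TangentSpace 𝓘(ℝ, V) x,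
      B.b (mfderiv 𝓘(ℝ, V) 𝓘(ℝ, W) φ x u) (mfderiv 𝓘(ℝ, V) 𝓘(ℝ, W) φ x v) = g0 x u v) :
    ∃ ψ, IsCh B K g0 p φ ψ := by
  have hφ3 : ContMDiffAt 𝓘(ℝ, V) 𝓘(ℝ, W) 3 φ p := hφ.of_le ENat.LEInfty.out
  set e := extChartAt 𝓘(ℝ, V) p with he
  have hep : e.symm (e p) = p := extChartAt_to_inv p
  have hP := coord_contDiffAt hφ3
  have hQ : ∀ᶠ z in 𝓝 (e p), OnQ B.b K ((φ ∘ e.symm) z) := by
    filter_upwards [(tendsto_symm p).eventually hiso] with z hz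
    exact hz.1
  have hinj : ∀ u, fderiv ℝ (φ ∘ e.symm) (e p) u = 0 → u = 0 := by
    intro u hu
    have h1 := (coord_fderiv hφ3).self_of_nhds u
    rw [← he] at h1
    rw [hu] at h1
    have h2 : mfderiv 𝓘(ℝ, V) 𝓘(ℝ, V) e.symm (e p) u = 0 := by
      apply lorentz_nondeg (hL (e.symm (e p)))
      intro v
      have h3 : ∀ᶠ x in 𝓝 (e.symm (e p)), OnQ B.b K (φ x) ∧ ∀ u v : TangentSpace 𝓘(ℝ, V) x,
        B.b (mfderiv 𝓘(ℝ, V) 𝓘(ℝ, W) φ x u) (mfderiv 𝓘(ℝ, V) 𝓘(ℝ, W) φ x v) = g0 x u v := by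
        rw [hep]; exact hiso
      rw [← h3.self_of_nhds.2, ← h1]
      exact congrArg (fun L : W →L[ℝ] ℝ => L _) (map_zero B.b)
    have h4 := mfderiv_extChartAt_comp_mfderivWithin_extChartAt_symm (I := 𝓘(ℝ, V))
      (x := p) (y := e p) (mem_extChartAt_target p)
    rw [modelWithCornersSelf_coe, range_id, mfderivWithin_univ] at h4
    have h5 : mfderiv 𝓘(ℝ, V) 𝓘(ℝ, V) e (e.symm (e p))
        (mfderiv 𝓘(ℝ, V) 𝓘(ℝ, V) e.symm (e p) u) = u := congrArg (fun L => L u) h4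
    rw [h2, map_zero] at h5
    exact h5.symm
  obtain ⟨T, h1, h2, h3, h4⟩ := exists_inverse B K hP hQ hinj (by simpa using hdim)
  have hb : (φ ∘ e.symm) (e p) = φ p := by simp only [Function.comp]; rw [hep]
  rw [hb] at h1 h2 h4
  refine ⟨e.symm ∘ T, hφ3, hiso, ?_, ?_, ?_⟩
  · have h5 : ContMDiffAt 𝓘(ℝ, V) 𝓘(ℝ, V) 3 e.symm (T (φ p)) := by
      rw [h2]
      exact (contMDiffOn_extChartAt_symm (n := 3) p).contMDiffAt (extChartAt_target_mem_nhds p)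
    exact h5.comp (φ p) h1.contMDiffAt
  · have hc : Tendsto e (𝓝 p) (𝓝 (e p)) := (continuousAt_extChartAt p).tendsto
    filter_upwards [hc.eventually h3, extChartAt_source_mem_nhds (I := 𝓘(ℝ, V)) p]
      with x' hx1 hx2
    simp only [Function.comp] at hx1 ⊢
    have hx3 : e.symm (e x') = x' := e.left_inv hx2
    rw [hx3] at hx1
    rw [hx1, hx3]
  · filter_upwards [h4] with w hw
    simp only [Function.comp] at hw ⊢
    rw [hw.2]
    exact ⟨hw.1, rfl⟩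

/-- The interface for a manifold with a metric of constant curvature. -/
noncomputable def mgx [FiniteDimensional ℝ W] (B : Form W) (K : ℝ)
    (hdim : finrank ℝ W = finrank ℝ V + if K = 0 then 0 else 1) (g0 : TensorField V M)
    (hL : ∀ x, IsLorentzForm (g0 x))
    (hcc : ∀ p : M, ∃ φ : M → W, ContMDiffAt 𝓘(ℝ, V) 𝓘(ℝ, W) ∞ φ p ∧
      ∀ᶠ x in 𝓝 p, OnQ B.b K (φ x) ∧ ∀ u v : TangentSpace 𝓘(ℝ, V) x,
        B.b (mfderiv 𝓘(ℝ, V) 𝓘(ℝ, W) φ x u) (mfderiv 𝓘(ℝ, V) 𝓘(ℝ, W) φ x v) = g0 x u v) :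
    GX M B K where
  chart := fun x φ ψ => IsCh B K g0 x φ ψ
  exists_chart := by
    intro x
    obtain ⟨φ, h1, h2⟩ := hcc x
    obtain ⟨ψ, h3⟩ := exists_isCh hdim hL h1 h2
    exact ⟨φ, ψ, h3⟩
  onQ := fun h => h.onQ
  lor := fun h => h.lor hL
  cont := fun h => h.cont
  cont_inv := fun h => h.cont_inv
  left_inv := fun h => h.left_self
  nhds := fun h => h.nhds
  right_inv := fun h => h.right
  comp := fun h A => h.comp A
  rigid := fun h h' => h.rigid h'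

section results
variable [FiniteDimensional ℝ W] {hdim : finrank ℝ W = finrank ℝ V + if K = 0 then 0 else 1}
  {hL : ∀ x, IsLorentzForm (g0 x)}
  {hcc : ∀ p : M, ∃ φ : M → W, ContMDiffAt 𝓘(ℝ, V) 𝓘(ℝ, W) ∞ φ p ∧
      ∀ᶠ x in 𝓝 p, OnQ B.b K (φ x) ∧ ∀ u v : TangentSpace 𝓘(ℝ, V) x,
        B.b (mfderiv 𝓘(ℝ, V) 𝓘(ℝ, W) φ x u) (mfderiv 𝓘(ℝ, V) 𝓘(ℝ, W) φ x v) = g0 x u v}

/-- Smooth functions are smooth in the sense of the interface. -/
theorem mgx_smooth {F : Type*} [NormedAddCommGroup F] [NormedSpace ℝ F] {f : M → F}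
    (hf : ContMDiff 𝓘(ℝ, V) 𝓘(ℝ, F) ∞ f) : (mgx B K hdim g0 hL hcc).Smooth f := by
  intro x φ ψ h
  have h' : IsCh B K g0 x φ ψ := h
  have h1 : ContMDiffAt 𝓘(ℝ, W) 𝓘(ℝ, F) 2 (f ∘ ψ) (φ x) := by
    refine ContMDiffAt.comp (φ x) ((hf _).of_le ENat.LEInfty.out) ?_
    exact h'.smooth_inv.of_le (by norm_num)
  exact h1.contDiffAt

/-- Immersions are injective on tangent vectors, in the charts of the interface. -/
theorem mgx_immersion {F : Type*} [NormedAddCommGroup F] [NormedSpace ℝ F] {f : M → F}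
    (hf : ContMDiff 𝓘(ℝ, V) 𝓘(ℝ, F) ∞ f) {x : M}
    (hinj : ∀ u, mfderiv 𝓘(ℝ, V) 𝓘(ℝ, F) f x u = 0 → u = 0) {φ : M → W} {ψ : W → M}
    (h : (mgx B K hdim g0 hL hcc).chart x φ ψ) {w : W} (hw : Tan B.b K (φ x) w)
    (h0 : fderiv ℝ (f ∘ ψ) (φ x) w = 0) : w = 0 := by
  have h' : IsCh B K g0 x φ ψ := h
  have h1 : MDifferentiableAt 𝓘(ℝ, W) 𝓘(ℝ, V) ψ (φ x) :=
    h'.smooth_inv.mdifferentiableAt (by norm_num)
  have h2 : MDifferentiableAt 𝓘(ℝ, V) 𝓘(ℝ, F) f (ψ (φ x)) :=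
    (hf _).mdifferentiableAt (by simp)
  have h0' : mfderiv 𝓘(ℝ, W) 𝓘(ℝ, F) (f ∘ ψ) (φ x) w = 0 := by
    rw [mfderiv_eq_fderiv]; exact h0
  have h00 := (mfderiv_comp_apply (φ x) h2 h1 w).symm.trans h0'
  rw [h'.left_self] at h00
  have h3 := hinj _ h00
  have h4 := h'.exists_tan hw
  rw [← h4]
  have h5 : mfderiv 𝓘(ℝ, W) 𝓘(ℝ, V) ψ (φ x) w = 0 := h3
  rw [h5]
  exact map_zero _

/-- The Euler-Lagrange equation in one chart of the interface. -/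
theorem bridge_chart {σ : M → ℝ} (hσ : ContMDiff 𝓘(ℝ, V) 𝓘(ℝ, ℝ) ∞ σ) {g : TensorField V M}
    (hg : ∀ x u v, g x u v = Real.exp (2 * σ x) * g0 x u v) {γ : ℝ → M} {t : ℝ} (hγ : ContinuousAt γ t)
    {φ : M → W} {ψ : W → M} (h : IsCh B K g0 (γ t) φ ψ) :
    IsGeodesicAt g γ t ↔ SolAt B K (σ ∘ ψ) (φ ∘ γ) t := by
  set p := γ t with hp
  set e := extChartAt 𝓘(ℝ, V) p with he
  have hx : ContinuousAt (e ∘ γ) t := ContinuousAt.comp (continuousAt_extChartAt p) hγ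
  have hxt : (e ∘ γ) t = e p := rfl
  have hb : (φ ∘ e.symm) (e p) = φ p := h.coord_base
  have hP : ContDiffAt ℝ 3 (φ ∘ e.symm) (e p) := coord_contDiffAt h.smooth
  have hs : ContDiffAt ℝ 2 (σ ∘ e.symm) (e p) :=
    coord_contDiffAt (((hσ p).of_le ENat.LEInfty.out))
  have key := bridge_calc B K (P := φ ∘ e.symm) (T := e ∘ ψ) (s := σ ∘ e.symm) (x := e ∘ γ)
    (y := φ ∘ γ) (S := σ ∘ ψ) (t := t) hx (hP.of_le (by norm_num))
    (by rw [hxt, hb]; exact (h.coord_inv_contDiffAt).of_le (by norm_num)) hs h.coord_onQ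
    h.coord_left
    (by
      rw [hxt, hb]
      filter_upwards [h.coord_right] with w hw
      exact hw.1)
    (by
      rw [hxt, hb]
      filter_upwards [h.coord_right] with w hw
      exact hw.2)
    (by
      rw [hxt, hb]
      filter_upwards [h.tendsto_inv.eventually (extChartAt_source_mem_nhds (I := 𝓘(ℝ, V)) p)]
        with w hw
      simp only [Function.comp]
      have : e.symm (e (ψ w)) = ψ w := e.left_inv hw
      rw [this])
    (by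
      filter_upwards [hγ.tendsto.eventually (extChartAt_source_mem_nhds (I := 𝓘(ℝ, V)) p)]
        with r hr
      simp only [Function.comp]
      have : e.symm (e (γ r)) = γ r := e.left_inv hr
      rw [this])
    (fun z u v => inChart g p z u v)
    (by
      filter_upwards [h.coord_metric] with z hz u v
      have h1 : inChart g p z u v = Real.exp (2 * σ (e.symm z)) * inChart g0 p z u v := by
        unfold inChart
        rw [hg]
      rw [h1, hz]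
      rfl)
  rw [← key]
  constructor
  · rintro ⟨_, x, hx1, h1, h2, h3⟩
    subst hx1
    exact ⟨h1, h2, h3⟩
  · rintro ⟨h1, h2, h3⟩
    exact ⟨hγ, _, rfl, h1, h2, h3⟩

/-- **Bridge**: geodesics of `e^{2σ} g0` in the sense of manifolds are the geodesics of the
interface. -/
theorem mgx_geo_iff {σ : M → ℝ} (hσ : ContMDiff 𝓘(ℝ, V) 𝓘(ℝ, ℝ) ∞ σ) {g : TensorField V M}
    (hg : ∀ x u v, g x u v = Real.exp (2 * σ x) * g0 x u v) (γ : ℝ → M) (t : ℝ) :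
    IsGeodesicAt g γ t ↔ (mgx B K hdim g0 hL hcc).Geo σ γ t := by
  constructor
  · intro h
    refine ⟨h.1, ?_⟩
    obtain ⟨φ, ψ, hch⟩ := (mgx B K hdim g0 hL hcc).exists_chart (γ t)
    exact ⟨φ, ψ, hch, (bridge_chart hσ hg h.1 hch).1 h⟩
  · rintro ⟨h1, φ, ψ, hch, h2⟩
    exact (bridge_chart hσ hg h1 hch).2 h2

end results

end Pool.H1.Lor
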