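import Pool.Agent.H1.Lor.Amb

/-!
# Calculus of the radial projection to the space form
-/

namespace Pool.H1.Lor

open Filter Topology Set

variable {W : Type*} [NormedAddCommGroup W] [NormedSpace ℝ W]

section
variable {b : W →L[ℝ] W →L[ℝ] ℝ} {K : ℝ}

theorem nf_eq_one {y : W} (h : OnQ b K y) : nf b K y = 1 := by
  unfold nf
  rw [show K * b y y + dl K = 1 from h, Real.sqrt_one]

theorem nrm_of_onQ {y : W} (h : OnQ b K y) : nrm b K y = y := by
  simp [nrm, nf_eq_one h]

theorem contDiff_quad : ContDiff ℝ ⊤ (fun z : W => K * b z z + dl K) := by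
  have h : ContDiff ℝ ⊤ (fun z : W => b z z) := b.contDiff.clm_apply contDiff_id
  exact (contDiff_const.mul h).add contDiff_const

theorem contDiffAt_nf {z : W} (hz : 0 < K * b z z + dl K) {N : WithTop ℕ∞} :
    ContDiffAt ℝ N (nf b K) z := by
  have h : ContDiffAt ℝ N (fun z : W => K * b z z + dl K) z :=
    (contDiff_quad (b := b) (K := K)).contDiffAt.of_le le_top
  exact h.sqrt hz.ne'

theorem nf_pos {z : W} (hz : 0 < K * b z z + dl K) : 0 < nf b K z := Real.sqrt_pos.2 hz

theorem nf_sq {z : W} (hz : 0 < K * b z z + dl K) : nf b K z ^ 2 = K * b z z + dl K :=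
  Real.sq_sqrt hz.le

theorem contDiffAt_nrm {z : W} (hz : 0 < K * b z z + dl K) {N : WithTop ℕ∞} :
    ContDiffAt ℝ N (nrm b K) z :=
  ((contDiffAt_nf hz).inv (nf_pos hz).ne').smul contDiffAt_id

theorem eventually_pos {y : W} (h : OnQ b K y) : ∀ᶠ z in 𝓝 y, 0 < K * b z z + dl K := by
  have hc : ContinuousAt (fun z : W => K * b z z + dl K) y :=
    (contDiff_quad (b := b) (K := K)).continuous.continuousAt
  have : (0 : ℝ) < K * b y y + dl K := by
    rw [show K * b y y + dl K = 1 from h]; norm_num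
  exact hc.eventually (lt_mem_nhds this)

theorem onQ_nrm {z : W} (hz : 0 < K * b z z + dl K) : OnQ b K (nrm b K z) := by
  unfold OnQ nrm
  have h1 := nf_pos hz
  have h2 := nf_sq hz
  simp only [map_smul, smul_apply, smul_eq_mul]
  by_cases hK : K = 0
  · subst hK; simp [dl]
  · rw [dl_ne hK] at h2 ⊢
    have h3 : K * b z z = nf b K z ^ 2 := by rw [h2]; ring
    have : K * ((nf b K z)⁻¹ * ((nf b K z)⁻¹ * b z z)) = (nf b K z)⁻¹ ^ 2 * (K * b z z) := by ring
    rw [this, h3]
    field_simp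
    simp

theorem nrm_nrm {z : W} (hz : 0 < K * b z z + dl K) : nrm b K (nrm b K z) = nrm b K z :=
  nrm_of_onQ (onQ_nrm hz)

theorem hasFDerivAt_nf (hs : ∀ x y, b x y = b y x) {z : W} (hz : 0 < K * b z z + dl K) :
    HasFDerivAt (nf b K) ((K / nf b K z) • b z) z := by
  have h1 : HasFDerivAt (fun z : W => b z z) ((2 : ℝ) • b z) z := by
    have h := b.hasFDerivAt (x := z) |>.clm_apply (hasFDerivAt_id z)
    refine h.congr_fderiv ?_
    ext u
    simp [hs u z]
    ring
  have h2 : HasFDerivAt (fun z : W => K * b z z + dl K) (K • (2 : ℝ) • b z) z :=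
    (h1.const_mul K).add_const _
  have h3 := h2.sqrt hz.ne'
  refine h3.congr_fderiv ?_
  ext u
  simp only [smul_apply, smul_eq_mul]
  have : Real.sqrt (K * b z z + dl K) = nf b K z := rfl
  rw [this]
  have := (nf_pos hz).ne'
  field_simp

theorem hasFDerivAt_nrm (hs : ∀ x y, b x y = b y x) {y : W} (hy : OnQ b K y) :
    HasFDerivAt (nrm b K) (ContinuousLinearMap.id ℝ W - (K • b y).smulRight y) y := by
  have hp : 0 < K * b y y + dl K := by rw [show K * b y y + dl K = 1 from hy]; norm_num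
  have h1 := hasFDerivAt_nf hs hp
  have h2 : HasFDerivAt (fun z => (nf b K z)⁻¹) _ y :=
    (hasDerivAt_inv (nf_pos hp).ne').comp_hasFDerivAt y h1
  have h3 := h2.smul (hasFDerivAt_id y)
  refine h3.congr_fderiv ?_
  ext u
  simp [nf_eq_one hy]
  abel

theorem tan_of_onQ {F : Type*} [NormedAddCommGroup F] [NormedSpace ℝ F]
    (hs : ∀ x y, b x y = b y x) {P : F → W} {D : F →L[ℝ] W} {z : F} (hP : HasFDerivAt P D z)
    (hQ : ∀ᶠ z' in 𝓝 z, OnQ b K (P z')) (u : F) : K * b (P z) (D u) = 0 := by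
  have h1 : HasFDerivAt (fun z' => K * b (P z') (P z') + dl K) (0 : F →L[ℝ] ℝ) z := by
    refine (hasFDerivAt_const (1 : ℝ) z).congr_of_eventuallyEq ?_
    filter_upwards [hQ] with z' hz'
    exact hz'
  have h2 : HasFDerivAt (fun z' => b (P z') (P z')) _ z :=
    (b.hasFDerivAt.comp z hP).clm_apply hP
  have h3 := (h2.const_mul K).add_const (dl K)
  have h4 := congrArg (fun L => L u) (h3.unique h1)
  simp [hs (D u) (P z)] at h4
  rcases h4 with h4 | h4
  · simp [h4]
  · have : b (P z) (D u) = 0 := by linarith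
    simp [this]

end

end Pool.H1.Lor
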