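import Pool.Agent.H1.Lor.B1Calc

/-!
# Local inverses of isometric immersions into the space form, and rigidity
-/

namespace Pool.H1.Lor

open Filter Topology Set Module

variable {W : Type*} [NormedAddCommGroup W] [NormedSpace ℝ W] [FiniteDimensional ℝ W]
variable {F : Type*} [NormedAddCommGroup F] [NormedSpace ℝ F] [FiniteDimensional ℝ F]

theorem exists_local_inv {X Y : Type*} [NormedAddCommGroup X] [NormedSpace ℝ X]
    [FiniteDimensional ℝ X] [NormedAddCommGroup Y] [NormedSpace ℝ Y] [FiniteDimensional ℝ Y]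
    {R : X → Y} {a : X} (hR : ContDiffAt ℝ 3 R a) {R' : X →L[ℝ] Y} (hR' : HasFDerivAt R R' a)
    (hinj : ∀ u, R' u = 0 → u = 0)
    (hdim : finrank ℝ X = finrank ℝ Y) :
    ∃ Q : Y → X, ContDiffAt ℝ 3 Q (R a) ∧ Q (R a) = a ∧ (∀ᶠ x in 𝓝 a, Q (R x) = x) ∧
      (∀ᶠ y in 𝓝 (R a), R (Q y) = y) := by
  have hinj' : Function.Injective (R' : X →ₗ[ℝ] Y) := by
    rw [injective_iff_map_eq_zero]
    exact hinj
  have hsurj := (LinearMap.injective_iff_surjective_of_finrank_eq_finrank hdim).1 hinj'
  let L : X ≃L[ℝ] Y := (LinearEquiv.ofBijective (R' : X →ₗ[ℝ] Y)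
    ⟨hinj', hsurj⟩).toContinuousLinearEquiv
  have hL : (L : X →L[ℝ] Y) = R' := by
    ext u; rfl
  have hR'' : HasFDerivAt R (L : X →L[ℝ] Y) a := by rw [hL]; exact hR'
  have : CompleteSpace X := FiniteDimensional.complete ℝ X
  refine ⟨hR.localInverse hR'' (by norm_num), hR.to_localInverse hR'' (by norm_num),
    hR.localInverse_apply_image hR'' (by norm_num), ?_, ?_⟩
  · exact (hR.hasStrictFDerivAt' hR'' (by norm_num)).eventually_left_inverse
  · exact (hR.hasStrictFDerivAt' hR'' (by norm_num)).eventually_right_inverse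

theorem exists_inverse (B : Form W) (K : ℝ) {P : F → W} {z0 : F}
    (hP : ContDiffAt ℝ 3 P z0) (hQ : ∀ᶠ z in 𝓝 z0, OnQ B.b K (P z))
    (hinj : ∀ u, fderiv ℝ P z0 u = 0 → u = 0)
    (hdim : finrank ℝ W = finrank ℝ F + if K = 0 then 0 else 1) :
    ∃ T : W → F, ContDiffAt ℝ 3 T (P z0) ∧ T (P z0) = z0 ∧ (∀ᶠ z in 𝓝 z0, T (P z) = z) ∧
      (∀ᶠ w in 𝓝 (P z0), P (T w) = nrm B.b K w ∧ T (nrm B.b K w) = T w) := by
  have hPd : HasFDerivAt P (fderiv ℝ P z0) z0 := (hP.differentiableAt (by norm_num)).hasFDerivAt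
  have hQ0 : OnQ B.b K (P z0) := hQ.self_of_nhds
  by_cases hK : K = 0
  · subst hK
    obtain ⟨Q, h1, h2, h3, h4⟩ := exists_local_inv hP hPd hinj (by simpa using hdim.symm)
    refine ⟨Q, h1, h2, h3, ?_⟩
    have hn : ∀ w : W, nrm B.b 0 w = w := fun w => nrm_of_onQ (by simp [OnQ, dl])
    filter_upwards [h4] with w hw
    rw [hn]
    exact ⟨hw, rfl⟩
  · rw [if_neg hK] at hdim
    set y0 := P z0 with hy0
    -- the cone map
    let R : F × ℝ → W := fun q => q.2 • P q.1
    have hR : ContDiffAt ℝ 3 R (z0, 1) :=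
      contDiffAt_snd.smul (ContDiffAt.comp (z0, (1 : ℝ)) (by exact hP) contDiffAt_fst)
    have hfst : HasFDerivAt (fun q : F × ℝ => P q.1)
        ((fderiv ℝ P z0).comp (ContinuousLinearMap.fst ℝ F ℝ)) (z0, 1) :=
      HasFDerivAt.comp (z0, (1 : ℝ)) (by exact hPd) hasFDerivAt_fst
    have hR' : HasFDerivAt R ((1 : ℝ) • (fderiv ℝ P z0).comp (ContinuousLinearMap.fst ℝ F ℝ) +
        (ContinuousLinearMap.snd ℝ F ℝ).smulRight y0) (z0, 1) :=
      hasFDerivAt_snd.smul hfst
    have hT0 : ∀ w, K * B.b y0 (fderiv ℝ P z0 w) = 0 := fun w => tan_of_onQ B.symm hPd hQ w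
    have hy1 : K * B.b y0 y0 = 1 := by
      have : K * B.b y0 y0 + dl K = 1 := hQ0
      rwa [dl_ne hK, add_zero] at this
    have hinj2 : ∀ u : F × ℝ, ((1 : ℝ) • (fderiv ℝ P z0).comp (ContinuousLinearMap.fst ℝ F ℝ) +
        (ContinuousLinearMap.snd ℝ F ℝ).smulRight y0) u = 0 → u = 0 := by
      rintro ⟨u, m⟩ h
      have h1 : fderiv ℝ P z0 u + m • y0 = 0 := by simpa using h
      have h2 : m = 0 := by
        have h3 : K * B.b y0 (fderiv ℝ P z0 u + m • y0) = 0 := by rw [h1]; simp
        rw [map_add, map_smul, smul_eq_mul, mul_add, hT0] at h3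
        have : K * (m * B.b y0 y0) = m * (K * B.b y0 y0) := by ring
        rw [this, hy1] at h3
        linarith
      subst h2
      have h3 : fderiv ℝ P z0 u = 0 := by simpa using h1
      rw [hinj u h3]
      rfl
    obtain ⟨Q, h1, h2, h3, h4⟩ := exists_local_inv hR hR' hinj2 (by
      rw [finrank_prod, finrank_self, hdim])
    have hR0 : R (z0, 1) = y0 := by simp [R, hy0]
    rw [hR0] at h1 h2 h4
    refine ⟨fun w => (Q w).1, contDiffAt_fst.comp y0 h1, by simp [h2], ?_, ?_⟩
    · have hc : ContinuousAt (fun z : F => (z, (1 : ℝ))) z0 := by fun_prop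
      filter_upwards [hc.eventually h3] with z hz
      have : R (z, 1) = P z := by simp [R]
      rw [this] at hz
      rw [hz]
    · have hQc : ContinuousAt Q y0 := h1.continuousAt
      have e1 : ∀ᶠ w in 𝓝 y0, OnQ B.b K (P (Q w).1) := by
        have : Tendsto (fun w => (Q w).1) (𝓝 y0) (𝓝 z0) := by
          have := (continuous_fst.continuousAt.comp hQc).tendsto
          simpa [Function.comp_def, h2] using this
        exact this.eventually hQ
      have e2 : ∀ᶠ w in 𝓝 y0, 0 < (Q w).2 := by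
        have : Tendsto (fun w => (Q w).2) (𝓝 y0) (𝓝 1) := by
          have := (continuous_snd.continuousAt.comp hQc).tendsto
          simpa [Function.comp_def, h2] using this
        exact this.eventually (lt_mem_nhds zero_lt_one)
      have e3 : ∀ᶠ w in 𝓝 y0, P (Q w).1 = nrm B.b K w := by
        filter_upwards [e1, e2, h4] with w hw1 hw2 hw4
        have h5 : w = (Q w).2 • P (Q w).1 := hw4.symm
        have h6 : K * B.b (P (Q w).1) (P (Q w).1) = 1 := by
          have : K * B.b (P (Q w).1) (P (Q w).1) + dl K = 1 := hw1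
          rwa [dl_ne hK, add_zero] at this
        have h7 : nf B.b K w = (Q w).2 := by
          unfold nf
          rw [dl_ne hK, add_zero]
          have : K * B.b w w = (Q w).2 ^ 2 := by
            have h8 : B.b w w = (Q w).2 ^ 2 * B.b (P (Q w).1) (P (Q w).1) := by
              conv_lhs => rw [h5]
              simp only [map_smul, smul_apply, smul_eq_mul]
              ring
            rw [h8]
            have : K * ((Q w).2 ^ 2 * B.b (P (Q w).1) (P (Q w).1)) =
              (Q w).2 ^ 2 * (K * B.b (P (Q w).1) (P (Q w).1)) := by ring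
            rw [this, h6, mul_one]
          rw [this, Real.sqrt_sq hw2.le]
        unfold nrm
        rw [h7]
        conv_rhs => rw [h5]
        rw [smul_smul]
        have : ((Q w).2)⁻¹ * (Q w).2 = 1 := inv_mul_cancel₀ hw2.ne'
        have h9 : (Q ((Q w).2 • P (Q w).1)).2 = (Q w).2 := by rw [← h5]
        first
        | rw [this, one_smul]
        | (rw [h9, this, one_smul])
      have e4 : ∀ᶠ w in 𝓝 y0, Q (P (Q w).1) = ((Q w).1, 1) := by
        have ht : Tendsto (fun w => ((Q w).1, (1 : ℝ))) (𝓝 y0) (𝓝 (z0, 1)) := by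
          have : Tendsto (fun w => (Q w).1) (𝓝 y0) (𝓝 z0) := by
            have := (continuous_fst.continuousAt.comp hQc).tendsto
            simpa [Function.comp_def, h2] using this
          exact this.prodMk_nhds tendsto_const_nhds
        filter_upwards [ht.eventually h3] with w hw
        have : R ((Q w).1, 1) = P (Q w).1 := by simp [R]
        rw [this] at hw
        exact hw
      filter_upwards [e3, e4] with w hw3 hw4
      refine ⟨hw3, ?_⟩
      change (Q (nrm B.b K w)).1 = (Q w).1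
      rw [← hw3, hw4]

end Pool.H1.Lor
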