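import Pool.Agent.H1.Lor.B1Inv

/-!
# Rigidity of isometric immersions into the space form
-/

namespace Pool.H1.Lor

open Filter Topology Set Module

variable {W : Type*} [NormedAddCommGroup W] [NormedSpace ℝ W]
variable {F : Type*} [NormedAddCommGroup F] [NormedSpace ℝ F]

theorem smul_dT (B : Form W) (K : ℝ) {T : W → F} {y0 : W} (hQ0 : OnQ B.b K y0)
    {D' : W →L[ℝ] F} (hTd : HasFDerivAt T D' y0)
    (hTn : ∀ᶠ w in 𝓝 y0, T (nrm B.b K w) = T w) : K • D' y0 = 0 := by
  have h1 : HasFDerivAt (fun w => T (nrm B.b K w))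
      (D'.comp (ContinuousLinearMap.id ℝ W - (K • B.b y0).smulRight y0)) y0 := by
    have hn := hasFDerivAt_nrm B.symm hQ0
    have := nrm_of_onQ hQ0
    refine HasFDerivAt.comp y0 ?_ hn
    rw [this]; exact hTd
  have h2 : HasFDerivAt (fun w => T (nrm B.b K w)) D' y0 :=
    hTd.congr_of_eventuallyEq hTn
  have h3 := congrArg (fun L => L y0) (h1.unique h2)
  have h4 : (K * B.b y0 y0) • D' y0 = 0 := by simpa using h3
  have h5 : K * B.b y0 y0 = 1 - dl K := by
    have : K * B.b y0 y0 + dl K = 1 := hQ0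
    linarith
  have : (K * (1 - dl K)) • D' y0 = 0 := by rw [mul_smul, ← h5, h4, smul_zero]
  rwa [mul_sub, mul_one, mul_dl, sub_zero] at this

theorem cone_hasFDerivAt (B : Form W) (K : ℝ) {P : F → W} {T : W → F} {w : W}
    {D : F →L[ℝ] W} {D' : W →L[ℝ] F} (hP : HasFDerivAt P D (T w)) (hT : HasFDerivAt T D' w)
    (hw : 0 < K * B.b w w + dl K) :
    HasFDerivAt (fun w => nf B.b K w • P (T w)) (nf B.b K w • D.comp D' +
      ((K / nf B.b K w) • B.b w).smulRight (P (T w))) w :=
  (hasFDerivAt_nf B.symm hw).smul (hP.comp w hT)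

theorem cone_pull (B : Form W) (K : ℝ) {D : F →L[ℝ] W} {D' : W →L[ℝ] F} {w p : W}
    (hQ : OnQ B.b K p) (hT0 : ∀ v, K * B.b p (D v) = 0)
    (hw : 0 < K * B.b w w + dl K) (u v : W) :
    B.b ((nf B.b K w • D.comp D' + ((K / nf B.b K w) • B.b w).smulRight p) u)
      ((nf B.b K w • D.comp D' + ((K / nf B.b K w) • B.b w).smulRight p) v) =
    nf B.b K w ^ 2 * B.b (D (D' u)) (D (D' v)) +
      (1 - dl K) * (K * B.b w u * B.b w v / nf B.b K w ^ 2) := by
  have hn := (nf_pos hw).ne'
  have h1 : K * B.b p p = 1 - dl K := by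
    have : K * B.b p p + dl K = 1 := hQ
    linarith
  rw [← h1]
  simp only [add_apply, smul_apply, ContinuousLinearMap.comp_apply,
    ContinuousLinearMap.smulRight_apply, map_add, map_smul, smul_eq_mul]
  have e1 : B.b (D (D' u)) p = B.b p (D (D' u)) := B.symm _ _
  rw [e1]
  have e2 := hT0 (D' u)
  have e3 := hT0 (D' v)
  set n := nf B.b K w
  have : n * (n * B.b (D (D' u)) (D (D' v))) + K / n * B.b w u * (n * B.b p (D (D' v))) +
      (K / n * B.b w v * (n * B.b p (D (D' u)) + K / n * B.b w u * B.b p p)) =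
      n ^ 2 * B.b (D (D' u)) (D (D' v)) + B.b w u * (K * B.b p (D (D' v))) +
      B.b w v * (K * B.b p (D (D' u))) + K * B.b p p * (K * B.b w u * B.b w v / n ^ 2) := by
    field_simp
    ring
  rw [e2, e3] at this
  linarith [this]

/-- A map preserving the form has vanishing second derivative. -/
theorem second_deriv_zero [FiniteDimensional ℝ W] (B : Form W) {s : W → W} {w : W}
    (hs : ContDiffAt ℝ 2 s w)
    (hb : ∀ᶠ z in 𝓝 w, ∀ u v, B.b (fderiv ℝ s z u) (fderiv ℝ s z v) = B.b u v) :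
    fderiv ℝ (fderiv ℝ s) w = 0 := by
  set H := fderiv ℝ (fderiv ℝ s) w with hH
  set D := fderiv ℝ s w with hD
  have hs2 : HasFDerivAt (fderiv ℝ s) H w := by
    have : ContDiffAt ℝ 1 (fderiv ℝ s) w := hs.fderiv_right (by norm_num)
    exact (this.differentiableAt (by norm_num)).hasFDerivAt
  have hsym : ∀ u v, H u v = H v u := by
    have := hs.isSymmSndFDerivAt (by simp)
    intro u v
    exact this.eq u v
  have hanti : ∀ h u v, B.b (H h u) (D v) = -B.b (H h v) (D u) := by
    intro h u v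
    have e1 := hs2.clm_apply (hasFDerivAt_const u w)
    have e2 := hs2.clm_apply (hasFDerivAt_const v w)
    have e3 := (B.b.hasFDerivAt.comp w e1).clm_apply e2
    have e4 : HasFDerivAt (fun z => B.b (fderiv ℝ s z u) (fderiv ℝ s z v)) (0 : W →L[ℝ] ℝ) w := by
      refine (hasFDerivAt_const (B.b u v) w).congr_of_eventuallyEq ?_
      filter_upwards [hb] with z hz
      exact hz u v
    have e5 := congrArg (fun L => L h) (e3.unique e4)
    simp [← hD] at e5
    rw [B.symm (D u) (H h v)] at e5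
    linarith
  have hzero : ∀ h u v, B.b (H h u) (D v) = 0 := by
    intro h u v
    have e1 := hanti h u v
    rw [hsym h v, hanti v h u, hsym v u, hanti u v h, hsym u h] at e1
    linarith
  have hDinj : ∀ u, D u = 0 → u = 0 := by
    intro u hu
    apply B.nondeg
    intro v
    have := hb.self_of_nhds u v
    rw [← this, ← hD, hu]
    simp
  have hDsurj : Function.Surjective (D : W →ₗ[ℝ] W) := by
    apply LinearMap.injective_iff_surjective.1
    rw [injective_iff_map_eq_zero]
    exact hDinj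
  ext h u
  change H h u = 0
  apply B.nondeg
  intro y
  obtain ⟨v, hv⟩ := hDsurj y
  rw [← hv]
  exact hzero h u v

/-- Rigidity: two isometric immersions into the space form with the same pulled back metric
differ by an isometry. -/
theorem rigid_calc [FiniteDimensional ℝ W] (B : Form W) (K : ℝ) {P P' : F → W} {T : W → F}
    {z0 : F} (hP : ContDiffAt ℝ 3 P z0) (hP' : ContDiffAt ℝ 3 P' z0)
    (hT : ContDiffAt ℝ 3 T (P z0))
    (hQ : ∀ᶠ z in 𝓝 z0, OnQ B.b K (P z)) (hQ' : ∀ᶠ z in 𝓝 z0, OnQ B.b K (P' z))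
    (hTP : ∀ᶠ z in 𝓝 z0, T (P z) = z)
    (hPT : ∀ᶠ w in 𝓝 (P z0), P (T w) = nrm B.b K w ∧ T (nrm B.b K w) = T w)
    (hiso : ∀ᶠ z in 𝓝 z0, ∀ u v, B.b (fderiv ℝ P z u) (fderiv ℝ P z v) =
      B.b (fderiv ℝ P' z u) (fderiv ℝ P' z v)) :
    ∃ A : Iso B.b K, ∀ᶠ z in 𝓝 z0, P' z = A.act (P z) := by
  set y0 := P z0 with hy0
  have hQ0 : OnQ B.b K y0 := hQ.self_of_nhds
  have hT0 : T y0 = z0 := hTP.self_of_nhds
  have hpos : ∀ᶠ w in 𝓝 y0, 0 < K * B.b w w + dl K := eventually_pos hQ0
  have hTt : Tendsto T (𝓝 y0) (𝓝 z0) := by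
    have := hT.continuousAt.tendsto
    rwa [hT0] at this
  have hTd : ∀ᶠ w in 𝓝 y0, HasFDerivAt T (fderiv ℝ T w) w := by
    filter_upwards [hT.eventually (by simp)] with w hw
    exact (hw.differentiableAt (by norm_num)).hasFDerivAt
  have hPd : ∀ᶠ z in 𝓝 z0, HasFDerivAt P (fderiv ℝ P z) z := by
    filter_upwards [hP.eventually (by simp)] with w hw
    exact (hw.differentiableAt (by norm_num)).hasFDerivAt
  have hPd' : ∀ᶠ z in 𝓝 z0, HasFDerivAt P' (fderiv ℝ P' z) z := by
    filter_upwards [hP'.eventually (by simp)] with w hw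
    exact (hw.differentiableAt (by norm_num)).hasFDerivAt
  -- the cone maps
  let s : W → W := fun w => nf B.b K w • P' (T w)
  let s0 : W → W := fun w => nf B.b K w • P (T w)
  have hs0 : ∀ᶠ w in 𝓝 y0, s0 w = w := by
    filter_upwards [hpos, hPT] with w hw1 hw2
    simp only [s0]
    rw [hw2.1, nrm, smul_smul, mul_inv_cancel₀ (nf_pos hw1).ne', one_smul]
  have hsC : ContDiffAt ℝ 3 s y0 := by
    have hp0 := hpos.self_of_nhds
    refine (contDiffAt_nf hp0).smul (ContDiffAt.comp y0 ?_ hT)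
    rw [hT0]; exact hP'
  have hpull : ∀ᶠ w in 𝓝 y0, ∀ u v, B.b (fderiv ℝ s w u) (fderiv ℝ s w v) = B.b u v := by
    filter_upwards [hpos, hTd, hTt.eventually hPd, hTt.eventually hPd',
      hTt.eventually hQ.eventually_nhds, hTt.eventually hQ'.eventually_nhds, hTt.eventually hiso,
      hs0.eventually_nhds] with w h1 h2 h3 h4 h5 h6 h7 h8 u v
    have a1 : fderiv ℝ s w = _ := (cone_hasFDerivAt B K h4 h2 h1).fderiv
    have a2 := cone_hasFDerivAt B K h3 h2 h1
    have a3 : HasFDerivAt s0 (ContinuousLinearMap.id ℝ W) w :=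
      (hasFDerivAt_id w).congr_of_eventuallyEq h8
    have a4 := a2.unique a3
    have b1 := cone_pull B K (D := fderiv ℝ P' (T w)) (D' := fderiv ℝ T w) h6.self_of_nhds
      (fun v => tan_of_onQ B.symm h4 h6 v) h1 u v
    have b2 := cone_pull B K (D := fderiv ℝ P (T w)) (D' := fderiv ℝ T w) h5.self_of_nhds
      (fun v => tan_of_onQ B.symm h3 h5 v) h1 u v
    rw [a1, b1, ← h7, ← b2, a4]
    rfl
  -- the derivative of `s` is locally constant
  have hD2 : ∀ᶠ w in 𝓝 y0, ContDiffAt ℝ 2 s w ∧ fderiv ℝ (fderiv ℝ s) w = 0 := by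
    have hsC2 : ∀ᶠ w in 𝓝 y0, ContDiffAt ℝ 2 s w := by
      filter_upwards [hsC.eventually (by simp)] with w hw
      exact hw.of_le (by norm_num)
    filter_upwards [hsC2, hpull.eventually_nhds] with w hw1 hw2
    exact ⟨hw1, second_deriv_zero B hw1 hw2⟩
  obtain ⟨r, hr, hball⟩ := Metric.eventually_nhds_iff_ball.1 hD2
  set L := fderiv ℝ s y0 with hL
  have hconst : ∀ w ∈ Metric.ball y0 r, fderiv ℝ s w = L := by
    intro w hw
    refine IsOpen.is_const_of_fderiv_eq_zero (𝕜 := ℝ) Metric.isOpen_ball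
      (convex_ball y0 r).isPreconnected (f := fderiv ℝ s) ?_ ?_ hw (Metric.mem_ball_self hr)
    · intro w hw
      have : ContDiffAt ℝ 1 (fderiv ℝ s) w := (hball w hw).1.fderiv_right (by norm_num)
      exact (this.differentiableAt (by norm_num)).differentiableWithinAt
    · intro w hw
      exact (hball w hw).2
  have hsd : ∀ w ∈ Metric.ball y0 r, HasFDerivAt s L w := by
    intro w hw
    rw [← hconst w hw]
    exact ((hball w hw).1.differentiableAt (by norm_num)).hasFDerivAt
  have haff : ∀ w ∈ Metric.ball y0 r, s w - L w = s y0 - L y0 := by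
    intro w hw
    refine IsOpen.is_const_of_fderiv_eq_zero (𝕜 := ℝ) Metric.isOpen_ball
      (convex_ball y0 r).isPreconnected (f := fun w => s w - L w) ?_ ?_ hw
      (Metric.mem_ball_self hr)
    · intro w hw
      exact ((hsd w hw).sub L.hasFDerivAt).differentiableAt.differentiableWithinAt
    · intro w hw
      have := ((hsd w hw).sub L.hasFDerivAt).fderiv
      rw [sub_self] at this
      exact this
  have hLb : ∀ u v, B.b (L u) (L v) = B.b u v := hpull.self_of_nhds
  have hLinj : Function.Injective (L : W →ₗ[ℝ] W) := by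
    rw [injective_iff_map_eq_zero]
    intro u hu
    apply B.nondeg
    intro v
    rw [← hLb]
    have : L u = 0 := hu
    rw [this]; simp
  have hLsurj := LinearMap.injective_iff_surjective.1 hLinj
  let Le : W ≃L[ℝ] W := (LinearEquiv.ofBijective (L : W →ₗ[ℝ] W)
    ⟨hLinj, hLsurj⟩).toContinuousLinearEquiv
  have hLe : ∀ u, Le u = L u := fun u => rfl
  have hKa : K • (s y0 - L y0) = 0 := by
    have a1 : L = _ := (cone_hasFDerivAt B K (by rw [hT0]; exact hPd'.self_of_nhds)
      hTd.self_of_nhds hpos.self_of_nhds).fderiv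
    have a2 := smul_dT B K hQ0 hTd.self_of_nhds (by
      filter_upwards [hPT] with w hw
      exact hw.2)
    have a3 : s y0 = P' z0 := by
      simp only [s]
      rw [nf_eq_one hQ0, hT0, one_smul]
    have a4 : L y0 = fderiv ℝ P' z0 (fderiv ℝ T y0 y0) + (K * B.b y0 y0) • P' z0 := by
      rw [a1, nf_eq_one hQ0, hT0]
      simp
    have a5 : K * B.b y0 y0 = 1 - dl K := by
      have : K * B.b y0 y0 + dl K = 1 := hQ0
      linarith
    rw [a3, a4, a5, smul_sub, smul_add, ← map_smul, a2, map_zero, smul_smul, mul_sub, mul_one,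
      mul_dl, sub_zero, zero_add, sub_self]
  refine ⟨⟨Le, s y0 - L y0, fun x y => hLb x y, hKa⟩, ?_⟩
  have hin : ∀ᶠ z in 𝓝 z0, P z ∈ Metric.ball y0 r :=
    hP.continuousAt.tendsto.eventually (Metric.ball_mem_nhds y0 hr)
  filter_upwards [hin, hQ, hTP] with z hz1 hz2 hz3
  have e1 := haff (P z) hz1
  have e2 : s (P z) = P' z := by
    simp only [s]
    rw [nf_eq_one hz2, hz3, one_smul]
  rw [e2] at e1
  change P' z = Le (P z) + (s y0 - L y0)
  rw [← e1, hLe]
  abel

end Pool.H1.Lor
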