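import Pool.Agent.H1.Lor.B1Calc

/-!
# The Euler-Lagrange equation in a coordinate patch of the space form
-/

namespace Pool.H1.Lor

open Filter Topology Set

variable {W : Type*} [NormedAddCommGroup W] [NormedSpace ℝ W]
variable {F : Type*} [NormedAddCommGroup F] [NormedSpace ℝ F]

theorem reg_comp {P : F → W} {x : ℝ → F} {y : ℝ → W} {t : ℝ} (hx : ContinuousAt x t)
    (hP : ContDiffAt ℝ 2 P (x t)) (hy : y =ᶠ[𝓝 t] P ∘ x)
    (h1 : ∀ᶠ r in 𝓝 t, DifferentiableAt ℝ x r) (h2 : DifferentiableAt ℝ (deriv x) t) :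
    (∀ᶠ r in 𝓝 t, HasDerivAt y (fderiv ℝ P (x r) (deriv x r)) r) ∧
    HasDerivAt (deriv y) (fderiv ℝ (fderiv ℝ P) (x t) (deriv x t) (deriv x t) +
      fderiv ℝ P (x t) (deriv (deriv x) t)) t := by
  have hd : ∀ᶠ z in 𝓝 (x t), DifferentiableAt ℝ P z := by
    have := hP.eventually (by simp)
    filter_upwards [this] with z hz
    exact hz.differentiableAt (by norm_num)
  have hA : ∀ᶠ r in 𝓝 t, HasDerivAt y (fderiv ℝ P (x r) (deriv x r)) r := by
    filter_upwards [hx.eventually hd, h1, hy.eventuallyEq_nhds] with r hr1 hr2 hr3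
    have := hr1.hasFDerivAt.comp_hasDerivAt r hr2.hasDerivAt
    exact this.congr_of_eventuallyEq hr3
  refine ⟨hA, ?_⟩
  have hB : deriv y =ᶠ[𝓝 t] fun r => fderiv ℝ P (x r) (deriv x r) := by
    filter_upwards [hA] with r hr
    exact hr.deriv
  have hP' : HasFDerivAt (fderiv ℝ P) (fderiv ℝ (fderiv ℝ P) (x t)) (x t) := by
    have : ContDiffAt ℝ 1 (fderiv ℝ P) (x t) := hP.fderiv_right (by norm_num)
    exact (this.differentiableAt (by norm_num)).hasFDerivAt
  have hxd : HasDerivAt x (deriv x t) t := (h1.self_of_nhds).hasDerivAt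
  have hC := (hP'.comp_hasDerivAt t hxd).clm_apply h2.hasDerivAt
  exact hC.congr_of_eventuallyEq hB

/-- The Euler-Lagrange equation in coordinates is equivalent to the geodesic equation in the
ambient space. -/
theorem bridge_calc (B : Form W) (K : ℝ) {P : F → W} {T : W → F} {s : F → ℝ} {x : ℝ → F}
    {y : ℝ → W} {S : W → ℝ} {t : ℝ}
    (hx : ContinuousAt x t)
    (hP : ContDiffAt ℝ 2 P (x t)) (hT : ContDiffAt ℝ 2 T (P (x t)))
    (hs : ContDiffAt ℝ 2 s (x t))
    (hQ : ∀ᶠ z in 𝓝 (x t), OnQ B.b K (P z))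
    (hTP : ∀ᶠ z in 𝓝 (x t), T (P z) = z)
    (hPT : ∀ᶠ w in 𝓝 (P (x t)), P (T w) = nrm B.b K w)
    (hTn : ∀ᶠ w in 𝓝 (P (x t)), T (nrm B.b K w) = T w)
    (hS : S =ᶠ[𝓝 (P (x t))] s ∘ T)
    (hy : y =ᶠ[𝓝 t] P ∘ x)
    (G : F → F → F → ℝ)
    (hG : ∀ᶠ z in 𝓝 (x t), ∀ u v,
      G z u v = Real.exp (2 * s z) * B.b (fderiv ℝ P z u) (fderiv ℝ P z v)) :
    ((∀ᶠ r in 𝓝 t, DifferentiableAt ℝ x r) ∧ DifferentiableAt ℝ (deriv x) t ∧
      ∀ w : F, HasDerivAt (fun r => G (x r) (deriv x r) w)
        (1 / 2 * fderiv ℝ (fun z => G z (deriv x t) (deriv x t)) (x t) w) t) ↔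
      SolAt B K S y t := by
  have hyt : y t = P (x t) := hy.self_of_nhds
  set z0 := x t with hz0
  set y0 := P z0 with hy0
  have hQ0 : OnQ B.b K y0 := hQ.self_of_nhds
  have hT0 : T y0 = z0 := hTP.self_of_nhds
  -- derivatives
  have hPd : HasFDerivAt P (fderiv ℝ P z0) z0 := (hP.differentiableAt (by norm_num)).hasFDerivAt
  have hTd : HasFDerivAt T (fderiv ℝ T y0) y0 := (hT.differentiableAt (by norm_num)).hasFDerivAt
  have hsd : HasFDerivAt s (fderiv ℝ s z0) z0 := (hs.differentiableAt (by norm_num)).hasFDerivAt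
  set D := fderiv ℝ P z0 with hD
  set D' := fderiv ℝ T y0 with hD'
  set H := fderiv ℝ (fderiv ℝ P) z0 with hH
  have hPd2 : HasFDerivAt (fderiv ℝ P) H z0 := by
    have : ContDiffAt ℝ 1 (fderiv ℝ P) z0 := hP.fderiv_right (by norm_num)
    exact (this.differentiableAt (by norm_num)).hasFDerivAt
  have hHs : ∀ u v, H u v = H v u := by
    have := hP.isSymmSndFDerivAt (by simp)
    intro u v
    exact this.eq u v
  have F1 : ∀ v, D (D' v) = v - (K * B.b y0 v) • y0 := by
    intro v
    have h1 : HasFDerivAt (P ∘ T) (D.comp D') y0 := by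
      refine HasFDerivAt.comp y0 ?_ hTd
      rw [hT0]; exact hPd
    have h2 : HasFDerivAt (P ∘ T) (ContinuousLinearMap.id ℝ W - (K • B.b y0).smulRight y0) y0 :=
      (hasFDerivAt_nrm B.symm hQ0).congr_of_eventuallyEq hPT
    have := congrArg (fun L => L v) (h1.unique h2)
    simpa using this
  have F3 : ∀ w, K * B.b y0 (D w) = 0 := fun w => tan_of_onQ B.symm hPd hQ w
  have F4 : HasFDerivAt S ((fderiv ℝ s z0).comp D') y0 := by
    refine HasFDerivAt.congr_of_eventuallyEq ?_ hS
    refine HasFDerivAt.comp y0 ?_ hTd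
    rw [hT0]; exact hsd
  have F2 : ∀ w, D' (D w) = w := by
    intro w
    have h1 : HasFDerivAt (T ∘ P) (D'.comp D) z0 := HasFDerivAt.comp z0 hTd hPd
    have h2 : HasFDerivAt (T ∘ P) (ContinuousLinearMap.id ℝ F) z0 :=
      (hasFDerivAt_id z0).congr_of_eventuallyEq hTP
    have := congrArg (fun L => L w) (h1.unique h2)
    simpa using this
  set dS := fderiv ℝ S y0 with hdS
  have hdS' : dS = (fderiv ℝ s z0).comp D' := F4.fderiv
  have F4' : ∀ w, dS (D w) = fderiv ℝ s z0 w := by
    intro w; rw [hdS']; simp [F2]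
  have F5 : K * dS y0 = 0 := by
    have h1 : HasFDerivAt (fun w => T (nrm B.b K w))
        (D'.comp (ContinuousLinearMap.id ℝ W - (K • B.b y0).smulRight y0)) y0 := by
      have hn := hasFDerivAt_nrm B.symm hQ0
      have := nrm_of_onQ hQ0
      refine HasFDerivAt.comp y0 ?_ hn
      rw [this]; exact hTd
    have h2 : HasFDerivAt (fun w => T (nrm B.b K w)) D' y0 :=
      hTd.congr_of_eventuallyEq hTn
    have h3 := congrArg (fun L => L y0) (h1.unique h2)
    have h4 : (K * B.b y0 y0) • D' y0 = 0 := by simpa using h3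
    have h5 : K * B.b y0 y0 = 1 - dl K := by
      have : K * B.b y0 y0 + dl K = 1 := hQ0
      linarith
    have h6 : K • D' y0 = 0 := by
      have : (K * (1 - dl K)) • D' y0 = 0 := by rw [mul_smul, ← h5, h4, smul_zero]
      rwa [mul_sub, mul_one, mul_dl, sub_zero] at this
    rw [hdS']
    have : K * (fderiv ℝ s z0) (D' y0) = (fderiv ℝ s z0) (K • D' y0) := by simp
    simp only [ContinuousLinearMap.comp_apply]
    rw [this, h6, map_zero]
  -- the function identity near `t`
  have hyc : ContinuousAt y t := by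
    have : ContinuousAt (P ∘ x) t := ContinuousAt.comp hP.continuousAt hx
    exact this.congr hy.symm
  have hxy : x =ᶠ[𝓝 t] T ∘ y := by
    filter_upwards [hx.eventually hTP, hy] with r hr1 hr2
    simp only [Function.comp] at hr2 ⊢
    rw [hr2, hr1]
  have hQy : ∀ᶠ r in 𝓝 t, OnQ B.b K (y r) := by
    filter_upwards [hx.eventually hQ, hy] with r hr1 hr2
    rw [hr2]; exact hr1
  -- the key equivalence
  have key : (∀ᶠ r in 𝓝 t, DifferentiableAt ℝ x r) → DifferentiableAt ℝ (deriv x) t →
      ((∀ w : F, HasDerivAt (fun r => G (x r) (deriv x r) w)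
        (1 / 2 * fderiv ℝ (fun z => G z (deriv x t) (deriv x t)) z0 w) t) ↔
        deriv (deriv y) t = acc B K S (y t) (deriv y t)) := by
    intro h1 h2
    obtain ⟨hA, hB⟩ := reg_comp hx hP hy h1 h2
    have hxd : HasDerivAt x (deriv x t) t := (h1.self_of_nhds).hasDerivAt
    have hdy : ∀ᶠ r in 𝓝 t, deriv y r = fderiv ℝ P (x r) (deriv x r) := by
      filter_upwards [hA] with r hr
      exact hr.deriv
    have hB' : HasDerivAt (deriv y) (deriv (deriv y) t) t := hB.differentiableAt.hasDerivAt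
    have hu : deriv y t = D (deriv x t) := hdy.self_of_nhds
    set u := deriv x t with hu0
    set y1 := deriv y t with hy1
    set y2 := deriv (deriv y) t with hy2
    have hLHS : ∀ w, HasDerivAt (fun r => G (x r) (deriv x r) w)
        (Real.exp (2 * s z0) * (2 * fderiv ℝ s z0 u) * B.b y1 (D w) +
          Real.exp (2 * s z0) * (B.b y2 (D w) + B.b y1 (H u w))) t := by
      intro w
      have e1 : HasDerivAt (fun r => Real.exp (2 * s (x r)))
          (Real.exp (2 * s z0) * (2 * fderiv ℝ s z0 u)) t :=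
        ((hsd.comp_hasDerivAt t hxd).const_mul 2).exp
      have e2 : HasDerivAt (fun r => fderiv ℝ P (x r) w) (H u w) t := by
        have := (hPd2.comp_hasDerivAt t hxd).clm_apply (hasDerivAt_const t w)
        simpa using this
      have e3 : HasDerivAt (fun r => B.b (deriv y r) (fderiv ℝ P (x r) w))
          (B.b y2 (D w) + B.b y1 (H u w)) t := by
        have := (B.b.hasFDerivAt.comp_hasDerivAt t hB').clm_apply e2
        exact this
      have e4 := e1.mul e3
      refine e4.congr_of_eventuallyEq ?_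
      filter_upwards [hx.eventually hG, hdy] with r hr1 hr2
      rw [hr1, ← hr2]
      rfl
    have hRHS : ∀ w, fderiv ℝ (fun z => G z u u) z0 w =
        Real.exp (2 * s z0) * (2 * fderiv ℝ s z0 w) * B.b y1 y1 +
          Real.exp (2 * s z0) * (2 * B.b y1 (H w u)) := by
      intro w
      have e1 := (hsd.const_mul (2 : ℝ)).exp
      have e2 := hPd2.clm_apply (hasFDerivAt_const u z0)
      have e3 := (B.b.hasFDerivAt.comp z0 e2).clm_apply e2
      have e4 := (e1.mul e3).congr_of_eventuallyEq (f₁ := fun z => G z u u) (by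
        filter_upwards [hG] with z hz
        rw [hz]
        rfl)
      rw [e4.fderiv]
      simp [← hD, ← hu, B.symm _ y1]
      ring
    have hex : Real.exp (2 * s z0) ≠ 0 := (Real.exp_pos _).ne'
    have hSu : dS y1 = fderiv ℝ s z0 u := by rw [hu, F4']
    -- reduction to `(*)`
    have step1 : (∀ w : F, HasDerivAt (fun r => G (x r) (deriv x r) w)
        (1 / 2 * fderiv ℝ (fun z => G z u u) z0 w) t) ↔
        ∀ w, B.b (y2 + (2 * dS y1) • y1 - B.b y1 y1 • B.sharp dS) (D w) = 0 := by
      refine forall_congr' fun w => ?_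
      have e1 : B.b (y2 + (2 * dS y1) • y1 - B.b y1 y1 • B.sharp dS) (D w) =
          B.b y2 (D w) + 2 * dS y1 * B.b y1 (D w) - B.b y1 y1 * fderiv ℝ s z0 w := by
        simp [B.b_sharp, F4']
      rw [e1]
      constructor
      · intro h
        have h3 := h.unique (hLHS w)
        rw [hRHS w, hHs w u, ← hSu] at h3
        have h4 : Real.exp (2 * s z0) * (B.b y2 (D w) + 2 * dS y1 * B.b y1 (D w) -
            B.b y1 y1 * fderiv ℝ s z0 w) = 0 := by linarith
        exact (mul_eq_zero.1 h4).resolve_left hex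
      · intro h
        have h3 := hLHS w
        convert h3 using 1
        rw [hRHS w, hHs w u, ← hSu]
        have : Real.exp (2 * s z0) * (B.b y2 (D w) + 2 * dS y1 * B.b y1 (D w) -
            B.b y1 y1 * fderiv ℝ s z0 w) = 0 := by rw [h, mul_zero]
        linarith
    rw [step1]
    -- facts on `y`
    have F6 : ∀ᶠ r in 𝓝 t, K * B.b (y r) (deriv y r) = 0 := by
      have hA' : ∀ᶠ r in 𝓝 t, HasDerivAt y (deriv y r) r := by
        filter_upwards [hA] with r hr
        exact hr.differentiableAt.hasDerivAt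
      filter_upwards [hA', hQy.eventually_nhds] with r hr1 hr2
      have := tan_of_onQ B.symm hr1.hasFDerivAt hr2 1
      simpa using this
    have F6' : K * B.b y0 y1 = 0 := by
      have := F6.self_of_nhds
      rwa [hyt] at this
    have F7 : K * (B.b y1 y1 + B.b y0 y2) = 0 := by
      have h1 : HasDerivAt (fun r => K * B.b (y r) (deriv y r)) 0 t :=
        (hasDerivAt_const t (0 : ℝ)).congr_of_eventuallyEq F6
      have hyd : HasDerivAt y y1 t := hA.self_of_nhds.differentiableAt.hasDerivAt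
      have h2 := ((B.b.hasFDerivAt.comp_hasDerivAt t hyd).clm_apply hB').const_mul K
      have h3 := h2.unique h1
      simpa [hyt] using h3
    have hacc : acc B K S (y t) y1 =
        -(K * B.b y1 y1) • y0 - (2 * dS y1) • y1 + B.b y1 y1 • B.sharp dS := by
      unfold acc; rw [hyt]
    rw [hacc]
    set X := y2 + (2 * dS y1) • y1 - B.b y1 y1 • B.sharp dS with hX
    constructor
    · intro h
      have h1 : ∀ v, B.b X v = K * B.b y0 v * B.b X y0 := by
        intro v
        have h2 := h (D' v)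
        rw [F1 v] at h2
        simp only [map_sub, map_smul, smul_eq_mul] at h2
        linarith
      have h2 : X = (K * B.b X y0) • y0 := by
        have h3 : X - (K * B.b X y0) • y0 = 0 := by
          apply B.nondeg
          intro v
          simp only [map_sub, map_smul, sub_apply, smul_apply,
            smul_eq_mul]
          rw [h1 v]; ring
        exact sub_eq_zero.1 h3
      have h3 : K * B.b X y0 = -(K * B.b y1 y1) := by
        have : B.b X y0 = B.b y0 y2 + 2 * dS y1 * B.b y0 y1 - B.b y1 y1 * dS y0 := by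
          rw [hX]
          simp [B.b_sharp, B.symm y2 y0, B.symm y1 y0]
        rw [this]
        have e1 : K * (B.b y0 y2 + 2 * dS y1 * B.b y0 y1 - B.b y1 y1 * dS y0) =
          K * (B.b y1 y1 + B.b y0 y2) - K * B.b y1 y1 + 2 * dS y1 * (K * B.b y0 y1) -
            B.b y1 y1 * (K * dS y0) := by ring
        rw [e1, F7, F6', F5]; ring
      rw [h3] at h2
      have h4 : y2 = X - (2 * dS y1) • y1 + B.b y1 y1 • B.sharp dS := by rw [hX]; abel
      rw [h4, h2]
    · intro h w
      have h2 : X = -(K * B.b y1 y1) • y0 := by rw [hX, h]; abel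
      rw [h2]
      simp only [neg_smul, map_neg, map_smul, neg_apply, smul_apply, smul_eq_mul]
      have := F3 w
      have e1 : K * B.b y1 y1 * B.b y0 (D w) = B.b y1 y1 * (K * B.b y0 (D w)) := by ring
      rw [e1, this]; ring
  constructor
  · rintro ⟨h1, h2, h3⟩
    obtain ⟨hA, hB⟩ := reg_comp hx hP hy h1 h2
    refine ⟨?_, ?_⟩
    · filter_upwards [hA] with r hr
      exact hr.differentiableAt.hasDerivAt
    · rw [← (key h1 h2).1 h3]
      exact hB.differentiableAt.hasDerivAt
  · rintro ⟨h1, h2⟩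
    have h1' : ∀ᶠ r in 𝓝 t, DifferentiableAt ℝ y r := by
      filter_upwards [h1] with r hr
      exact hr.differentiableAt
    have hT' : ContDiffAt ℝ 2 T (y t) := by rw [hyt]; exact hT
    obtain ⟨hA, hB⟩ := reg_comp hyc hT' hxy h1' h2.differentiableAt
    have g1 : ∀ᶠ r in 𝓝 t, DifferentiableAt ℝ x r := by
      filter_upwards [hA] with r hr
      exact hr.differentiableAt
    refine ⟨g1, hB.differentiableAt, ?_⟩
    exact (key g1 hB.differentiableAt).2 h2.deriv

end Pool.H1.Lor
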