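import Pool.Agent.H1.Lor.Amb

/-!
# Abstract interface: spaces locally modelled on a space form
-/

namespace Pool.H1.Lor

open Filter Topology Set

variable {W : Type*} [NormedAddCommGroup W] [NormedSpace ℝ W]

/-- `M` is locally modelled on the space form of `(B, K)`: a collection of pairs
`φ : M → W` (local isometry onto the space form) and `ψ : W → M` (its local inverse, extended
radially), with transition maps in the isometry group. -/
structure GX (M : Type*) [TopologicalSpace M] (B : Form W) (K : ℝ) where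
  chart : M → (M → W) → (W → M) → Prop
  exists_chart : ∀ x, ∃ φ ψ, chart x φ ψ
  onQ : ∀ {x φ ψ}, chart x φ ψ → OnQ B.b K (φ x)
  lor : ∀ {x φ ψ}, chart x φ ψ → LorAt B.b K (φ x)
  cont : ∀ {x φ ψ}, chart x φ ψ → ContinuousAt φ x
  cont_inv : ∀ {x φ ψ}, chart x φ ψ → ContinuousAt ψ (φ x)
  left_inv : ∀ {x φ ψ}, chart x φ ψ → ψ (φ x) = x
  nhds : ∀ {x φ ψ}, chart x φ ψ → ∀ᶠ x' in 𝓝 x, chart x' φ ψ
  right_inv : ∀ {x φ ψ}, chart x φ ψ →
    ∀ᶠ z in 𝓝 (φ x), φ (ψ z) = nrm B.b K z ∧ ψ (nrm B.b K z) = ψ z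
  comp : ∀ {x φ ψ}, chart x φ ψ → ∀ A : Iso B.b K, chart x (A.act ∘ φ) (ψ ∘ A.inv)
  rigid : ∀ {x φ ψ φ' ψ'}, chart x φ ψ → chart x φ' ψ' →
    ∃ A : Iso B.b K, ∀ᶠ x' in 𝓝 x, φ' x' = A.act (φ x')

namespace GX

variable {M : Type*} [TopologicalSpace M] {B : Form W} {K : ℝ}

/-- `C²` functions on `M` (with values in a normed space). -/
def Smooth (G : GX M B K) {F : Type*} [NormedAddCommGroup F] [NormedSpace ℝ F] (f : M → F) :
    Prop := ∀ ⦃x φ ψ⦄, G.chart x φ ψ → ContDiffAt ℝ 2 (f ∘ ψ) (φ x)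

/-- `c` satisfies at time `t` the geodesic equation of `e^{2σ} g₀`. -/
def Geo (G : GX M B K) (σ : M → ℝ) (c : ℝ → M) (t : ℝ) : Prop :=
  ContinuousAt c t ∧ ∃ φ ψ, G.chart (c t) φ ψ ∧ SolAt B K (σ ∘ ψ) (φ ∘ c) t

/-- Geodesic completeness of `e^{2σ} g₀`. -/
def Complete (G : GX M B K) (σ : M → ℝ) : Prop :=
  ∀ s : Set ℝ, IsOpen s → s.OrdConnected → s.Nonempty → ∀ c : ℝ → M, (∀ t ∈ s, G.Geo σ c t) →
    ∃ c' : ℝ → M, (∀ t, G.Geo σ c' t) ∧ ∀ t ∈ s, c' t = c t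

end GX

end Pool.H1.Lor
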