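import Mathlib

/-!
# MP_5bfe9a_gt: the statement on Mathlib manifolds

`M` is a manifold modelled on the finite dimensional space `V`.
-/

namespace Pool.MP_5bfe9a_gt

open Filter Topology Set
open scoped Manifold ContDiff

/-- A field of functions of two tangent vectors (a metric, once it satisfies
`IsLorentzMetric`): `g x u v` is a real number for `u`, `v` tangent to `M` at `x`. -/
abbrev TensorField (V : Type*) [NormedAddCommGroup V] [NormedSpace ℝ V] (M : Type*)
    [TopologicalSpace M] [ChartedSpace V M] :=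
  ∀ x : M, TangentSpace 𝓘(ℝ, V) x → TangentSpace 𝓘(ℝ, V) x → ℝ

/-- A symmetric bilinear form with a negative vector, positive definite on the orthogonal
complement of this vector: signature `(-,+,…,+)`. -/
structure IsLorentzForm {T : Type*} [AddCommGroup T] [Module ℝ T] (q : T → T → ℝ) : Prop where
  symm : ∀ u v, q u v = q v u
  map_add : ∀ u v w, q u (v + w) = q u v + q u w
  map_smul : ∀ (a : ℝ) (u v), q u (a • v) = a * q u v
  signature : ∃ τ : T, q τ τ < 0 ∧ ∀ v, q τ v = 0 → v ≠ 0 → 0 < q v v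

section
variable {V : Type*} [NormedAddCommGroup V] [NormedSpace ℝ V]
  {M : Type*} [TopologicalSpace M] [ChartedSpace V M]

/-- The components of `g` in the chart of `M` around `p`: `inChart g p z u v` is the value of the
pull-back of `g` under the inverse of the chart, at the point `z` of the target of the chart,
on the vectors `u`, `v`. -/
noncomputable def inChart (g : TensorField V M) (p : M) (z u v : V) : ℝ :=
  g ((extChartAt 𝓘(ℝ, V) p).symm z)
    (mfderiv 𝓘(ℝ, V) 𝓘(ℝ, V) (extChartAt 𝓘(ℝ, V) p).symm z u)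
    (mfderiv 𝓘(ℝ, V) 𝓘(ℝ, V) (extChartAt 𝓘(ℝ, V) p).symm z v)

/-- A smooth Lorentzian metric on `M`. -/
structure IsLorentzMetric (g : TensorField V M) : Prop where
  lorentz : ∀ x, IsLorentzForm (g x)
  smooth : ∀ (p : M) (u v : V),
    ContDiffOn ℝ ∞ (fun z => inChart g p z u v) (extChartAt 𝓘(ℝ, V) p).target

/-- `γ` satisfies at time `t₀` the geodesic equation of the metric `g`. With `x` the expression of
`γ` in the chart around `γ t₀` and `g_z` the components of the metric in this chart, this is the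
Euler-Lagrange equation `d/dt g_{x(t)}(x'(t), w) = ½ D_w (z ↦ g_z(x', x'))` for all `w`. -/
def IsGeodesicAt (g : TensorField V M) (γ : ℝ → M) (t₀ : ℝ) : Prop :=
  ContinuousAt γ t₀ ∧
  ∃ x : ℝ → V, x = extChartAt 𝓘(ℝ, V) (γ t₀) ∘ γ ∧
    (∀ᶠ t in 𝓝 t₀, DifferentiableAt ℝ x t) ∧ DifferentiableAt ℝ (deriv x) t₀ ∧
    ∀ w : V, HasDerivAt (fun t => inChart g (γ t₀) (x t) (deriv x t) w)
      (1 / 2 * fderiv ℝ (fun z => inChart g (γ t₀) z (deriv x t₀) (deriv x t₀)) (x t₀) w) t₀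

/-- Geodesic completeness: every geodesic defined on an open interval extends to `ℝ`. -/
def GeodesicallyComplete (g : TensorField V M) : Prop :=
  ∀ s : Set ℝ, IsOpen s → s.OrdConnected → s.Nonempty →
    ∀ γ : ℝ → M, (∀ t ∈ s, IsGeodesicAt g γ t) →
      ∃ γ' : ℝ → M, (∀ t, IsGeodesicAt g γ' t) ∧ ∀ t ∈ s, γ' t = γ t

/-- `φ` maps the form `g x` to the form `β`. -/
def IsIsometryAt {W : Type*} [NormedAddCommGroup W] [NormedSpace ℝ W] (g : TensorField V M)
    (β : W → W → ℝ) (φ : M → W) (x : M) : Prop :=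
  ∀ u v, β (mfderiv 𝓘(ℝ, V) 𝓘(ℝ, W) φ x u) (mfderiv 𝓘(ℝ, V) 𝓘(ℝ, W) φ x v) = g x u v

/-- The form `q(x, y) + s t / K` on `V × ℝ`. -/
noncomputable def ambient (q : V → V → ℝ) (K : ℝ) (x y : V × ℝ) : ℝ :=
  q x.1 y.1 + x.2 * y.2 / K

/-- `g` has constant sectional curvature `K`: it is locally isometric to Minkowski space `(V, q)`
(`q` a form of signature `(-,+,…,+)`) if `K = 0`, and to the hyperquadric `{y | ⟨y,y⟩ = 1/K}` in
`V × ℝ` with the form `⟨,⟩ = ambient q K` if `K ≠ 0` (de Sitter space for `K > 0`,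
anti-de Sitter space for `K < 0`). -/
def HasConstantCurvature (g : TensorField V M) (K : ℝ) : Prop :=
  ∃ q : V → V → ℝ, IsLorentzForm q ∧ ∀ p : M,
    (K = 0 → ∃ φ : M → V, ContMDiffAt 𝓘(ℝ, V) 𝓘(ℝ, V) ∞ φ p ∧
      ∀ᶠ x in 𝓝 p, IsIsometryAt g q φ x) ∧
    (K ≠ 0 → ∃ φ : M → V × ℝ, ContMDiffAt 𝓘(ℝ, V) 𝓘(ℝ, V × ℝ) ∞ φ p ∧
      ∀ᶠ x in 𝓝 p, ambient q K (φ x) (φ x) = 1 / K ∧ IsIsometryAt g (ambient q K) φ x)

end

end Pool.MP_5bfe9a_gt
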