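import Pool.Agent.H1.Lor.B1Rigid
import Pool.Agent.H1.Lor.B3Calc
import Pool.Agent.H1.Lor.GXDefs
import Pool.Agent.H1.Lor.Statement

/-!
# Charts of a manifold of constant curvature
-/

namespace Pool.H1.Lor

open Filter Topology Set Module
open scoped Manifold ContDiff
open Pool.MP_5bfe9a_gt

/-- A Lorentz form as a bilinear map. -/
def lorLin {T : Type*} [AddCommGroup T] [Module ℝ T] {q : T → T → ℝ} (h : IsLorentzForm q) :
    T →ₗ[ℝ] T →ₗ[ℝ] ℝ :=
  LinearMap.mk₂ ℝ q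
    (fun u v w => by rw [h.symm (u + v) w, h.map_add, h.symm w u, h.symm w v])
    (fun a u v => by rw [h.symm (a • u) v, h.map_smul, h.symm v u]; rfl)
    (fun u v w => h.map_add u v w)
    (fun a u v => by rw [h.map_smul]; rfl)

theorem lorLin_apply {T : Type*} [AddCommGroup T] [Module ℝ T] {q : T → T → ℝ}
    (h : IsLorentzForm q) (u v : T) : lorLin h u v = q u v := rfl

/-- In a Lorentz form, the orthogonal complement of any negative vector is positive definite. -/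
theorem lorentz_pos_aux {T : Type*} [AddCommGroup T] [Module ℝ T]
    {q : T →ₗ[ℝ] T →ₗ[ℝ] ℝ} (hs : ∀ u v, q u v = q v u) {t : T} (ht : q t t < 0)
    (hpos : ∀ v, q t v = 0 → v ≠ 0 → 0 < q v v) {τ p : T} (h1 : q τ τ < 0) (h2 : q τ p = 0)
    (hp : p ≠ 0) : 0 < q p p := by
  have hnn : ∀ v, q t v = 0 → 0 ≤ q v v := by
    intro v hv
    by_cases h0 : v = 0
    · simp [h0]
    · exact (hpos v hv h0).le
  set m := q t t with hm
  set A := q t p with hA
  set C := q t τ with hC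
  have hm0 : m ≠ 0 := ht.ne
  set p' := p - (A / m) • t with hp'
  set τ' := τ - (C / m) • t with hτ'
  have e1 : q t p' = 0 := by
    simp only [hp', map_sub, map_smul, smul_eq_mul, ← hm, ← hA]
    field_simp; ring
  have e2 : q t τ' = 0 := by
    simp only [hτ', map_sub, map_smul, smul_eq_mul, ← hm, ← hC]
    field_simp; ring
  have f1 : q p' p' = q p p - A ^ 2 / m := by
    simp only [hp', map_sub, map_smul, LinearMap.sub_apply, LinearMap.smul_apply,
      smul_eq_mul, ← hm, ← hA, hs p t]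
    field_simp; ring
  have f2 : q τ' τ' = q τ τ - C ^ 2 / m := by
    simp only [hτ', map_sub, map_smul, LinearMap.sub_apply, LinearMap.smul_apply,
      smul_eq_mul, ← hm, ← hC, hs τ t]
    field_simp; ring
  have f3 : q τ' p' = -(A * C / m) := by
    simp only [hτ', hp', map_sub, map_smul, LinearMap.sub_apply,
      LinearMap.smul_apply, smul_eq_mul, ← hm, ← hC, ← hA, hs τ t, h2]
    field_simp; ring
  by_cases h0 : p' = 0
  · exfalso
    have g1 : p = (A / m) • t := by rw [hp'] at h0; exact sub_eq_zero.1 h0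
    have g2 : A ≠ 0 := by
      intro h; apply hp; rw [g1, h]; simp
    have g3 : (A / m) * C = 0 := by
      have : q τ p = (A / m) * C := by
        conv_lhs => rw [g1]
        simp [hs τ t, ← hC]
      rw [← this, h2]
    have g4 : C = 0 := by
      rcases mul_eq_zero.1 g3 with h | h
      · exact absurd h (div_ne_zero g2 hm0)
      · exact h
    have g5 := hnn τ' e2
    rw [f2, g4] at g5
    have : (0 : ℝ) ^ 2 / m = 0 := by simp
    rw [this] at g5
    linarith
  · have g1 := hpos p' e1 h0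
    have g2 : q t (q p' p' • τ' - q τ' p' • p') = 0 := by
      simp only [map_sub, map_smul, smul_eq_mul, e1, e2]; ring
    have g3 := hnn _ g2
    have g4 : q (q p' p' • τ' - q τ' p' • p') (q p' p' • τ' - q τ' p' • p') =
        q p' p' * (q p' p' * q τ' τ' - q τ' p' ^ 2) := by
      simp only [map_sub, map_smul, LinearMap.sub_apply, LinearMap.smul_apply,
        smul_eq_mul, hs p' τ']
      ring
    rw [g4] at g3
    have g5 : 0 ≤ q p' p' * q τ' τ' - q τ' p' ^ 2 := by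
      by_contra hh
      push Not at hh
      have := mul_neg_of_pos_of_neg g1 hh
      linarith
    rw [f3, f2] at g5
    set Q := q p' p' with hQ
    have hd : q p p = Q + A ^ 2 / m := by rw [f1]; ring
    rw [hd]
    -- `C ≠ 0`
    have hneg : -m > 0 := by linarith
    have g6 : Q * (q τ τ - C ^ 2 / m) < Q * (-(C ^ 2 / m)) := by
      apply mul_lt_mul_of_pos_left _ g1
      linarith
    have g7 : (A * C / m) ^ 2 < Q * (-(C ^ 2 / m)) := by
      have : (-(A * C / m)) ^ 2 = (A * C / m) ^ 2 := by ring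
      rw [this] at g5
      linarith
    have g8 : C ^ 2 * (A ^ 2 / m ^ 2 + Q / m) < 0 := by
      have : (A * C / m) ^ 2 - Q * (-(C ^ 2 / m)) = C ^ 2 * (A ^ 2 / m ^ 2 + Q / m) := by
        field_simp; ring
      linarith
    have g9 : A ^ 2 / m ^ 2 + Q / m < 0 := by
      by_contra hh
      push Not at hh
      have := mul_nonneg (sq_nonneg C) hh
      linarith
    have g10 : A ^ 2 / m ^ 2 + Q / m = (1 / m) * (Q + A ^ 2 / m) := by
      field_simp; ring
    rw [g10] at g9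
    by_contra hh
    push Not at hh
    have hm' : 1 / m < 0 := one_div_neg.2 ht
    have := mul_nonneg_of_nonpos_of_nonpos hm'.le hh
    linarith

/-- In a Lorentz form, the orthogonal complement of any negative vector is positive definite. -/
theorem lorentz_pos {T : Type*} [AddCommGroup T] [Module ℝ T]
    {q : T → T → ℝ} (h : IsLorentzForm q) {τ p : T} (h1 : q τ τ < 0) (h2 : q τ p = 0)
    (hp : p ≠ 0) : 0 < q p p := by
  obtain ⟨t, ht, hpos⟩ := h.signature
  exact lorentz_pos_aux (q := lorLin h) h.symm ht hpos h1 h2 hp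

variable {V : Type*} [NormedAddCommGroup V] [NormedSpace ℝ V]
  {M : Type*} [TopologicalSpace M] [ChartedSpace V M]
variable {W : Type*} [NormedAddCommGroup W] [NormedSpace ℝ W]

/-- `(φ, ψ)` is a chart at `x` of `(M, g0)` modelled on the space form. -/
structure IsCh (B : Form W) (K : ℝ) (g0 : TensorField V M) (x : M) (φ : M → W) (ψ : W → M) :
    Prop where
  smooth : ContMDiffAt 𝓘(ℝ, V) 𝓘(ℝ, W) 3 φ x
  iso : ∀ᶠ x' in 𝓝 x, OnQ B.b K (φ x') ∧ ∀ u v : TangentSpace 𝓘(ℝ, V) x',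
    B.b (mfderiv 𝓘(ℝ, V) 𝓘(ℝ, W) φ x' u) (mfderiv 𝓘(ℝ, V) 𝓘(ℝ, W) φ x' v) = g0 x' u v
  smooth_inv : ContMDiffAt 𝓘(ℝ, W) 𝓘(ℝ, V) 3 ψ (φ x)
  left : ∀ᶠ x' in 𝓝 x, ψ (φ x') = x'
  right : ∀ᶠ z in 𝓝 (φ x), φ (ψ z) = nrm B.b K z ∧ ψ (nrm B.b K z) = ψ z

/-- The coordinate expression of a map on `M`. -/
theorem coord_contDiffAt {φ : M → W} {x : M} {N : WithTop ℕ∞}
    (h : ContMDiffAt 𝓘(ℝ, V) 𝓘(ℝ, W) N φ x) :
    ContDiffAt ℝ N (φ ∘ (extChartAt 𝓘(ℝ, V) x).symm) (extChartAt 𝓘(ℝ, V) x x) := by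
  have h1 := contMDiffAt_iff_source.1 h
  rw [modelWithCornersSelf_coe, range_id, contMDiffWithinAt_univ] at h1
  exact h1.contDiffAt

theorem eventually_target (x : M) :
    ∀ᶠ z in 𝓝 (extChartAt 𝓘(ℝ, V) x x), z ∈ (extChartAt 𝓘(ℝ, V) x).target :=
  extChartAt_target_mem_nhds x

theorem tendsto_symm (x : M) : Tendsto (extChartAt 𝓘(ℝ, V) x).symm
    (𝓝 (extChartAt 𝓘(ℝ, V) x x)) (𝓝 x) := by
  have := (continuousAt_extChartAt_symm (I := 𝓘(ℝ, V)) x).tendsto
  rwa [extChartAt_to_inv] at this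

variable [IsManifold 𝓘(ℝ, V) ∞ M]

theorem mdiff_symm (x : M) {z : V} (hz : z ∈ (extChartAt 𝓘(ℝ, V) x).target) :
    MDifferentiableAt 𝓘(ℝ, V) 𝓘(ℝ, V) (extChartAt 𝓘(ℝ, V) x).symm z := by
  have := mdifferentiableWithinAt_extChartAt_symm (I := 𝓘(ℝ, V)) hz
  rwa [modelWithCornersSelf_coe, range_id, mdifferentiableWithinAt_univ] at this

theorem eventually_contMDiffAt {φ : M → W} {x : M}
    (h : ContMDiffAt 𝓘(ℝ, V) 𝓘(ℝ, W) 3 φ x) :
    ∀ᶠ x' in 𝓝 x, ContMDiffAt 𝓘(ℝ, V) 𝓘(ℝ, W) 3 φ x' :=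
  (contMDiffAt_iff_contMDiffAt_nhds (by simp)).1 h

/-- Derivative of the coordinate expression. -/
theorem coord_fderiv {φ : M → W} {x : M}
    (h : ContMDiffAt 𝓘(ℝ, V) 𝓘(ℝ, W) 3 φ x) :
    ∀ᶠ z in 𝓝 (extChartAt 𝓘(ℝ, V) x x), ∀ u : V,
      fderiv ℝ (φ ∘ (extChartAt 𝓘(ℝ, V) x).symm) z u =
      mfderiv 𝓘(ℝ, V) 𝓘(ℝ, W) φ ((extChartAt 𝓘(ℝ, V) x).symm z)
        (mfderiv 𝓘(ℝ, V) 𝓘(ℝ, V) (extChartAt 𝓘(ℝ, V) x).symm z u) := by
  filter_upwards [eventually_target x, (tendsto_symm x).eventually (eventually_contMDiffAt h)]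
    with z hz1 hz2 u
  rw [← mfderiv_eq_fderiv]
  exact mfderiv_comp_apply z (hz2.mdifferentiableAt (by norm_num)) (mdiff_symm x hz1) u

end Pool.H1.Lor
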