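import Pool.Agent.H1.Lor.Amb2

/-!
# Basic lemmas on `GX` structures
-/

namespace Pool.H1.Lor

open Filter Topology Set

variable {W : Type*} [NormedAddCommGroup W] [NormedSpace ℝ W]

namespace GX

variable {M : Type*} [TopologicalSpace M] {B : Form W} {K : ℝ} (G : GX M B K)
  {x : M} {φ φ' : M → W} {ψ ψ' : W → M}

include G

theorem eventually_left_inv (h : G.chart x φ ψ) : ∀ᶠ x' in 𝓝 x, ψ (φ x') = x' :=
  (G.nhds h).mono fun _ h' => G.left_inv h'

theorem tendsto_inv (h : G.chart x φ ψ) : Tendsto ψ (𝓝 (φ x)) (𝓝 x) := by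
  have := G.cont_inv h
  unfold ContinuousAt at this
  rwa [G.left_inv h] at this

/-- good points near `φ x`. -/
theorem eventually_good (h : G.chart x φ ψ) :
    ∀ᶠ z in 𝓝 (φ x), G.chart (ψ z) φ ψ ∧ φ (ψ z) = nrm B.b K z ∧ ψ (nrm B.b K z) = ψ z := by
  filter_upwards [(G.tendsto_inv h).eventually (G.nhds h), G.right_inv h] with z h1 h2
  exact ⟨h1, h2.1, h2.2⟩

/-- If `φ' = A φ` near `x`, then `ψ' = ψ A⁻¹` near `φ' x`. -/
theorem inv_trans (h : G.chart x φ ψ) (h' : G.chart x φ' ψ') {A : Iso B.b K}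
    (hA : ∀ᶠ x' in 𝓝 x, φ' x' = A.act (φ x')) : ∀ᶠ z in 𝓝 (φ' x), ψ' z = ψ (A.inv z) := by
  have hx : A.inv (φ' x) = φ x := by rw [hA.self_of_nhds, A.inv_act]
  have t1 : Tendsto A.inv (𝓝 (φ' x)) (𝓝 (φ x)) := by
    have := A.continuous_inv.tendsto (φ' x)
    rwa [hx] at this
  filter_upwards [(G.tendsto_inv h').eventually hA, (G.tendsto_inv h').eventually
    (G.eventually_left_inv h), G.right_inv h', t1.eventually (G.right_inv h)] with z h1 h2 h3 h4
  rw [← h2]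
  have : φ (ψ' z) = nrm B.b K (A.inv z) := by
    rw [A.nrm_inv, ← h3.1, h1, A.inv_act]
  rw [this, h4.2]

theorem comp_trans {F : Type*} (f : M → F) (h : G.chart x φ ψ) (h' : G.chart x φ' ψ')
    {A : Iso B.b K} (hA : ∀ᶠ x' in 𝓝 x, φ' x' = A.act (φ x')) :
    (f ∘ ψ') =ᶠ[𝓝 (φ' x)] (f ∘ ψ) ∘ A.inv := by
  filter_upwards [G.inv_trans h h' hA] with z hz
  simp [hz]

/-- The transition at nearby points. -/
theorem rigid_nhds (h : G.chart x φ ψ) (h' : G.chart x φ' ψ') :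
    ∃ A : Iso B.b K, ∀ᶠ x' in 𝓝 x, φ' x' = A.act (φ x') := G.rigid h h'

section smooth
variable {F : Type*} [NormedAddCommGroup F] [NormedSpace ℝ F] {f : M → F}

/-- Functions on `M` are homogeneous of degree `0` in the ambient coordinates. -/
theorem homog (hf : G.Smooth f) (h : G.chart x φ ψ) :
    ∀ᶠ z in 𝓝 (φ x), K • fderiv ℝ (f ∘ ψ) z z = 0 := by
  by_cases hK : K = 0
  · simp [hK]
  · have hd : ∀ᶠ z in 𝓝 (φ x), DifferentiableAt ℝ (f ∘ ψ) z := by
      have h1 : ContDiffAt ℝ 1 (f ∘ ψ) (φ x) := (hf h).of_le (by norm_num)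
      filter_upwards [h1.eventually (by simp)] with z hz using hz.differentiableAt (by norm_num)
    filter_upwards [hd, (G.right_inv h).eventually_nhds] with z hz hz'
    have hc : ∀ᶠ c : ℝ in 𝓝 1, (f ∘ ψ) (c • z) = (f ∘ ψ) z := by
      have t : Tendsto (fun c : ℝ => c • z) (𝓝 1) (𝓝 z) := by
        have : Continuous fun c : ℝ => c • z := by fun_prop
        have h2 := this.tendsto 1
        simpa using h2
      filter_upwards [t.eventually hz', lt_mem_nhds (zero_lt_one' ℝ)] with c hc hc0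
      simp only [Function.comp_apply]
      rw [← hc.2, nrm_smul hK hc0, (hz'.self_of_nhds).2]
    have h3 : HasDerivAt (fun c : ℝ => (f ∘ ψ) (c • z)) (fderiv ℝ (f ∘ ψ) z z) 1 := by
      have h4 : HasDerivAt (fun c : ℝ => c • z) z 1 := by
        simpa using (hasDerivAt_id (1 : ℝ)).smul_const z
      have h5 : HasFDerivAt (f ∘ ψ) (fderiv ℝ (f ∘ ψ) z) ((fun c : ℝ => c • z) 1) := by
        simpa using hz.hasFDerivAt
      exact h5.comp_hasDerivAt (1 : ℝ) h4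
    have h6 : HasDerivAt (fun c : ℝ => (f ∘ ψ) (c • z)) 0 1 := by
      refine (hasDerivAt_const (1 : ℝ) ((f ∘ ψ) z)).congr_of_eventuallyEq ?_
      exact hc
    rw [h3.unique h6, smul_zero]

theorem differentiableAt (hf : G.Smooth f) (h : G.chart x φ ψ) :
    DifferentiableAt ℝ (f ∘ ψ) (φ x) := (hf h).differentiableAt (by norm_num)

end smooth

/-- The geodesic equation does not depend on the chart. -/
theorem solAt_of_solAt {σ : M → ℝ} (hσ : G.Smooth σ) {c : ℝ → M} {t : ℝ}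
    (hc : ContinuousAt c t) (h : G.chart (c t) φ ψ) (h' : G.chart (c t) φ' ψ')
    (hs : SolAt B K (σ ∘ ψ) (φ ∘ c) t) {A : Iso B.b K}
    (hA : ∀ᶠ x' in 𝓝 (c t), φ' x' = A.act (φ x')) :
    SolAt B K (σ ∘ ψ') (φ' ∘ c) t ∧ deriv (φ' ∘ c) t = A.L (deriv (φ ∘ c) t) := by
  refine hs.act A (G.differentiableAt hσ h) ?_ ?_
  · filter_upwards [hc.eventually hA] with s hs'
    simpa using hs'
  · exact G.comp_trans σ h h' hA

omit G in
theorem Geo.solAt {G : GX M B K} {σ : M → ℝ} (hσ : G.Smooth σ) {c : ℝ → M} {t : ℝ}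
    (hc : G.Geo σ c t) (h : G.chart (c t) φ ψ) : SolAt B K (σ ∘ ψ) (φ ∘ c) t := by
  obtain ⟨h1, φ', ψ', h2, h3⟩ := hc
  obtain ⟨A, hA⟩ := G.rigid h2 h
  exact (G.solAt_of_solAt hσ h1 h2 h h3 hA).1

omit G in
theorem Geo.congr {G : GX M B K} {σ : M → ℝ} {c c' : ℝ → M} {t : ℝ}
    (hc : G.Geo σ c t) (h : c' =ᶠ[𝓝 t] c) : G.Geo σ c' t := by
  obtain ⟨h1, φ, ψ, h2, h3, h4⟩ := hc
  have ht : c' t = c t := h.self_of_nhds
  refine ⟨h1.congr h.symm, φ, ψ, by rwa [ht], ?_⟩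
  have e : (φ ∘ c') =ᶠ[𝓝 t] φ ∘ c := h.fun_comp φ
  have e' : deriv (φ ∘ c') =ᶠ[𝓝 t] deriv (φ ∘ c) := e.deriv
  refine ⟨?_, ?_⟩
  · filter_upwards [h3, e.eventually_nhds, e'] with s hs hs' hs''
    rw [hs'']
    exact hs.congr_of_eventuallyEq hs'
  · rw [e'.self_of_nhds]
    simp only [Function.comp_apply, ht]
    exact h4.congr_of_eventuallyEq e'

end GX

end Pool.H1.Lor
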