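import Pool.Agent.H1.Lor.Amb

/-!
# The positive definite form adapted to a timelike vector
-/

namespace Pool.H1.Lor

open Filter Topology Set

variable {W : Type*} [NormedAddCommGroup W] [NormedSpace ℝ W]

/-- The symmetric form `b(w,p) + (|K|-K) b(w,y) b(p,y) + (2/N) b(w,τ) b(p,τ)`, `N = -b(τ,τ)`. -/
noncomputable def Bh (b : W →L[ℝ] W →L[ℝ] ℝ) (K : ℝ) (y τ w p : W) : ℝ :=
  b w p + (|K| - K) * (b w y * b p y) + 2 / (-(b τ τ)) * (b w τ * b p τ)

section
variable {b : W →L[ℝ] W →L[ℝ] ℝ} {K : ℝ} {y τ : W}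

theorem absK_mul_by (hsym : ∀ x z, b x z = b z x) (hyτ : Tan b K y τ) :
    (|K| - K) * b τ y = 0 := by
  unfold Tan at hyτ
  rcases le_or_gt 0 K with h | h
  · rw [abs_of_nonneg h]; ring
  · rw [hsym τ y]
    have : b y τ = 0 := by
      rcases mul_eq_zero.1 hyτ with h0 | h0
      · linarith
      · exact h0
    rw [this]; ring

theorem Bh_self_pos (hsym : ∀ x z, b x z = b z x) (hy : OnQ b K y) (hl : LorAt b K y)
    (hτ : Tan b K y τ) (hN : b τ τ < 0) (w : W) (hw : w ≠ 0) :
    0 < Bh b K y τ w w ∧ |K| * (b w y) ^ 2 ≤ Bh b K y τ w w := by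
  -- tangential part
  set c : ℝ := K * b w y with hc
  set p : W := w - c • y with hp
  have hwp : w = p + c • y := by rw [hp]; abel
  have hKyp : K * b y p = 0 := by
    rw [hp, map_sub, map_smul, smul_eq_mul, hc, hsym y w]
    unfold OnQ at hy
    by_cases hK : K = 0
    · simp [hK]
    · rw [dl_ne hK, add_zero] at hy
      linear_combination (-(K * b w y)) * hy
  have hcyp : c * b p y = 0 := by
    rw [hc, hsym p y]
    linear_combination b w y * hKyp
  have hcyτ : c * b y τ = 0 := by
    unfold Tan at hτ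
    rw [hc]
    linear_combination b w y * hτ
  have hcyy : c * (c * b y y) = K * (b w y) ^ 2 := by
    unfold OnQ at hy
    by_cases hK : K = 0
    · simp [hc, hK]
    · rw [dl_ne hK, add_zero] at hy
      rw [hc]
      linear_combination (K * (b w y) ^ 2) * hy
  have hww : b w w = b p p + K * (b w y) ^ 2 := by
    conv_lhs => rw [hwp]
    rw [map_add, map_smul]
    simp only [add_apply, smul_apply, map_add, map_smul,
      smul_eq_mul]
    rw [hsym y p]
    linear_combination 2 * hcyp + hcyy
  have hwτ : b w τ = b p τ := by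
    conv_lhs => rw [hwp]
    rw [map_add, map_smul]
    simp only [add_apply, smul_apply, smul_eq_mul]
    linarith [hcyτ]
  have hNne : b τ τ ≠ 0 := ne_of_lt hN
  -- decomposition of p
  set d : ℝ := b p τ / b τ τ with hd
  set q : W := p - d • τ with hq
  have hdτ : d * b τ τ = b p τ := by rw [hd]; field_simp
  have hqτ : b τ q = 0 := by
    rw [hq, map_sub, map_smul, smul_eq_mul, hdτ, hsym τ p]; ring
  have hqT : Tan b K y q := by
    unfold Tan at hτ ⊢
    rw [hq, map_sub, map_smul, smul_eq_mul]
    linear_combination hKyp - d * hτ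
  have hpp : b p p = b q q + (b p τ) ^ 2 / b τ τ := by
    have hpq : p = q + d • τ := by rw [hq]; abel
    conv_lhs => rw [hpq]
    rw [map_add, map_smul]
    simp only [add_apply, smul_apply, map_add, map_smul,
      smul_eq_mul]
    rw [hsym q τ, hqτ, hdτ]
    rw [hd]
    ring
  have hval : Bh b K y τ w w = b q q + |K| * (b w y) ^ 2 + (b p τ) ^ 2 / (-(b τ τ)) := by
    unfold Bh
    rw [hww, hwτ, hpp]
    field_simp
    ring
  have hq0 : 0 ≤ b q q := by
    by_cases hq' : q = 0
    · rw [hq']; simp
    · exact (hl τ q hτ hqT hN hqτ hq').le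
  have hK0 : 0 ≤ |K| * (b w y) ^ 2 := by positivity
  have hP0 : 0 ≤ (b p τ) ^ 2 / (-(b τ τ)) := div_nonneg (sq_nonneg _) (by linarith)
  constructor
  · rw [hval]
    by_cases hq' : q = 0
    · -- then p = d τ
      have hpd : p = d • τ := by
        have := hq'
        rw [hq, sub_eq_zero] at this
        exact this
      by_cases hd0 : d = 0
      · have hp0 : p = 0 := by rw [hpd, hd0, zero_smul]
        have hwy : w = c • y := by rw [hwp, hp0, zero_add]
        have hc0 : c ≠ 0 := by
          intro h; apply hw; rw [hwy, h, zero_smul]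
        have : b w y ≠ 0 := by
          intro h; apply hc0; rw [hc, h, mul_zero]
        have hKne : K ≠ 0 := by
          intro h; apply hc0; rw [hc, h, zero_mul]
        have : 0 < |K| * (b w y) ^ 2 := by positivity
        linarith
      · have : b p τ ≠ 0 := by
          rw [← hdτ]; exact mul_ne_zero hd0 hNne
        have : 0 < (b p τ) ^ 2 / (-(b τ τ)) := div_pos (by positivity) (by linarith)
        linarith
    · have := hl τ q hτ hqT hN hqτ hq'
      linarith
  · rw [hval]; linarith

theorem Bh_nonneg (hsym : ∀ x z, b x z = b z x) (hy : OnQ b K y) (hl : LorAt b K y)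
    (hτ : Tan b K y τ) (hN : b τ τ < 0) (w : W) :
    0 ≤ Bh b K y τ w w := by
  by_cases hw : w = 0
  · rw [hw]; simp [Bh]
  · exact (Bh_self_pos hsym hy hl hτ hN w hw).1.le

theorem absK_sq_le (hsym : ∀ x z, b x z = b z x) (hy : OnQ b K y) (hl : LorAt b K y)
    (hτ : Tan b K y τ) (hN : b τ τ < 0) (w : W) :
    |K| * (b w y) ^ 2 ≤ Bh b K y τ w w := by
  by_cases hw : w = 0
  · rw [hw]; simp [Bh]
  · exact (Bh_self_pos hsym hy hl hτ hN w hw).2

/-- Cauchy-Schwarz: `b(w,p)² ≤ B̂(w,w) B̂(p,p)`. -/
theorem b_sq_le (hsym : ∀ x z, b x z = b z x) (hy : OnQ b K y) (hl : LorAt b K y)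
    (hτ : Tan b K y τ) (hN : b τ τ < 0) (w p : W) :
    (b w p) ^ 2 ≤ Bh b K y τ w w * Bh b K y τ p p := by
  set J : W := p + ((|K| - K) * b p y) • y + (2 / (-(b τ τ)) * b p τ) • τ with hJ
  have hNne : b τ τ ≠ 0 := ne_of_lt hN
  have h1 : (|K| - K) * b τ y = 0 := absK_mul_by hsym hτ
  have h1' : (|K| - K) * b y τ = 0 := by rw [hsym y τ]; exact h1
  have h2 : (|K| - K) * ((|K| - K) * b y y) = -2 * (|K| - K) := by
    unfold OnQ at hy
    rcases le_or_gt 0 K with h | h
    · rw [abs_of_nonneg h]; ring
    · rw [dl_ne (ne_of_lt h), add_zero] at hy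
      rw [abs_of_neg h]
      linear_combination (4 * K) * hy
  have hJy : (|K| - K) * b J y = -((|K| - K) * b p y) := by
    rw [hJ]
    simp only [map_add, map_smul, add_apply, smul_apply,
      smul_eq_mul]
    linear_combination (b p y) * h2 + (2 / (-(b τ τ)) * b p τ) * h1
  have hJτ : b J τ = - b p τ := by
    rw [hJ]
    simp only [map_add, map_smul, add_apply, smul_apply,
      smul_eq_mul]
    have : (2 / (-(b τ τ)) * b p τ) * b τ τ = -2 * b p τ := by field_simp
    linear_combination (b p y) * h1' + this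
  have hBJ : ∀ w, Bh b K y τ w J = b w p := by
    intro w
    unfold Bh
    have e1 : b w J = b w p + ((|K| - K) * b p y) * b w y + (2 / (-(b τ τ)) * b p τ) * b w τ := by
      rw [hJ]
      simp only [map_add, map_smul, smul_eq_mul]
    rw [e1, hJτ]
    linear_combination (b w y) * hJy
  have hJJ : Bh b K y τ J J = Bh b K y τ p p := by
    rw [hBJ J]
    unfold Bh
    rw [hJ]
    simp only [map_add, map_smul, add_apply, smul_apply,
      smul_eq_mul]
    rw [hsym y p, hsym τ p]
    ring
  have key : ∀ x : ℝ, 0 ≤ Bh b K y τ p p * (x * x) + (2 * b w p) * x + Bh b K y τ w w := by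
    intro x
    have h0 := Bh_nonneg hsym hy hl hτ hN (w + x • J)
    have e : Bh b K y τ (w + x • J) (w + x • J) =
        Bh b K y τ w w + 2 * x * Bh b K y τ w J + x * x * Bh b K y τ J J := by
      unfold Bh
      simp only [map_add, map_smul, add_apply, smul_apply,
        smul_eq_mul]
      rw [hsym J w]
      ring
    rw [e, hBJ, hJJ] at h0
    linarith
  have := discrim_le_zero key
  unfold discrim at this
  nlinarith

end

end Pool.H1.Lor
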