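import Pool.Agent.H1.Lor.Core1

/-!
# The adapted timelike vector and its derivative
-/

namespace Pool.H1.Lor

open Filter Topology Set

variable {W : Type*} [NormedAddCommGroup W] [NormedSpace ℝ W]
  {F : Type*} [NormedAddCommGroup F] [InnerProductSpace ℝ F]

/-- The vector `m` with `b(m, w) = ⟨Lv, Lw⟩ / ‖Lv‖²`. -/
noncomputable def mv (B : Form W) (v : W) (L : W →L[ℝ] F) : W :=
  (‖L v‖ ^ 2)⁻¹ • B.sharp ((innerSL ℝ (L v)).comp L)

/-- The timelike vector `τ = v - (1 + b(v,v)/2) m`. -/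
noncomputable def tv (B : Form W) (v : W) (L : W →L[ℝ] F) : W :=
  v - (1 + B.b v v / 2) • mv B v L

/-- The positive definite quadratic form adapted to the state `(y, v, L)`. -/
noncomputable def Gh (B : Form W) (K : ℝ) (y v : W) (L : W →L[ℝ] F) (w : W) : ℝ :=
  Bh B.b K y (tv B v L) w w

theorem b_mv (B : Form W) (v : W) (L : W →L[ℝ] F) (w : W) :
    B.b (mv B v L) w = (‖L v‖ ^ 2)⁻¹ * inner ℝ (L v) (L w) := by
  unfold mv
  rw [map_smul, smul_apply, B.b_sharp]
  simp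

theorem b_mv_self (B : Form W) (v : W) (L : W →L[ℝ] F) (h : L v ≠ 0) :
    B.b (mv B v L) v = 1 := by
  rw [b_mv, real_inner_self_eq_norm_sq]
  have : ‖L v‖ ≠ 0 := by simpa using h
  field_simp

theorem b_tv_tv (B : Form W) (v : W) (L : W →L[ℝ] F) (h : L v ≠ 0) :
    B.b (tv B v L) (tv B v L) =
      -2 + (1 + B.b v v / 2) ^ 2 * B.b (mv B v L) (mv B v L) := by
  unfold tv
  have h1 := b_mv_self B v L h
  have h2 : B.b v (mv B v L) = 1 := by rw [B.symm]; exact h1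
  simp only [map_sub, map_smul, sub_apply, smul_apply, smul_eq_mul]
  rw [h1, h2]
  ring

theorem b_v_tv (B : Form W) (v : W) (L : W →L[ℝ] F) (h : L v ≠ 0) :
    B.b v (tv B v L) = B.b v v / 2 - 1 := by
  unfold tv
  have h2 : B.b v (mv B v L) = 1 := by rw [B.symm]; exact b_mv_self B v L h
  simp only [map_sub, map_smul, smul_eq_mul]
  rw [h2]
  ring

theorem tan_mv (B : Form W) {K : ℝ} {y : W} (v : W) (L : W →L[ℝ] F) (hL : K • L y = 0) :
    Tan B.b K y (mv B v L) := by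
  unfold Tan
  rw [B.symm, b_mv]
  have : K * inner ℝ (L v) (L y) = 0 := by
    rw [← real_inner_smul_right, hL, inner_zero_right]
  linear_combination (‖L v‖ ^ 2)⁻¹ * this

theorem tan_tv (B : Form W) {K : ℝ} {y : W} (v : W) (L : W →L[ℝ] F) (hL : K • L y = 0)
    (hv : Tan B.b K y v) : Tan B.b K y (tv B v L) := by
  have h1 := tan_mv B v L hL
  unfold Tan at h1 hv ⊢
  unfold tv
  simp only [map_sub, map_smul, smul_eq_mul]
  linear_combination hv - (1 + B.b v v / 2) * h1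

/-- Derivative of `m`. -/
noncomputable def mv' (B : Form W) (v : W) (L : W →L[ℝ] F) (v' : W) (L' : W →L[ℝ] F) : W :=
  (‖L v‖ ^ 2)⁻¹ • B.sharp ((innerSL ℝ (L' v + L v')).comp L + (innerSL ℝ (L v)).comp L') -
    (2 * inner ℝ (L v) (L' v + L v') / (‖L v‖ ^ 2) ^ 2) • B.sharp ((innerSL ℝ (L v)).comp L)

theorem hasDerivAt_Lv {v : ℝ → W} {L : ℝ → W →L[ℝ] F} {v' : W} {L' : W →L[ℝ] F} {t : ℝ}
    (hv : HasDerivAt v v' t) (hL : HasDerivAt L L' t) :
    HasDerivAt (fun s => L s (v s)) (L' (v t) + L t v') t :=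
  hL.clm_apply hv

theorem hasDerivAt_mv (B : Form W) {v : ℝ → W} {L : ℝ → W →L[ℝ] F} {v' : W}
    {L' : W →L[ℝ] F} {t : ℝ} (hv : HasDerivAt v v' t) (hL : HasDerivAt L L' t)
    (h0 : L t (v t) ≠ 0) :
    HasDerivAt (fun s => mv B (v s) (L s)) (mv' B (v t) (L t) v' L') t := by
  have h1 := hasDerivAt_Lv hv hL
  have h2 : HasDerivAt (fun s => ‖L s (v s)‖ ^ 2)
      (2 * inner ℝ (L t (v t)) (L' (v t) + L t v')) t := by
    have := h1.norm_sq
    simpa using this
  have hne : ‖L t (v t)‖ ^ 2 ≠ 0 := by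
    have : ‖L t (v t)‖ ≠ 0 := by simpa using h0
    positivity
  have h3 := h2.inv hne
  have h4 : HasDerivAt (fun s => (innerSL ℝ (L s (v s))).comp (L s))
      ((innerSL ℝ (L' (v t) + L t v')).comp (L t) + (innerSL ℝ (L t (v t))).comp L') t := by
    have h5 : HasDerivAt (fun s => innerSL ℝ (L s (v s))) (innerSL ℝ (L' (v t) + L t v')) t :=
      (innerSL ℝ (E := F)).hasFDerivAt.comp_hasDerivAt t h1
    exact h5.clm_comp hL
  have h6 : HasDerivAt (fun s => B.sharp ((innerSL ℝ (L s (v s))).comp (L s)))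
      (B.sharp ((innerSL ℝ (L' (v t) + L t v')).comp (L t) + (innerSL ℝ (L t (v t))).comp L')) t :=
    B.sharp.hasFDerivAt.comp_hasDerivAt t h4
  have h7 := h3.smul h6
  refine h7.congr_deriv ?_
  unfold mv'
  rw [sub_eq_add_neg, ← neg_smul]
  congr 2
  ring

end Pool.H1.Lor
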