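import Pool.Agent.H1.Lor.Core2

/-!
# Bounds for the derivative of the adapted vector
-/

namespace Pool.H1.Lor

open Filter Topology Set

variable {W : Type*} [NormedAddCommGroup W] [NormedSpace ℝ W]
  {F : Type*} [NormedAddCommGroup F] [InnerProductSpace ℝ F]

theorem norm_eta_le (v : W) (L : W →L[ℝ] F) {C : ℝ} (hL : ‖L‖ ≤ C) :
    ‖(innerSL ℝ (L v)).comp L‖ ≤ ‖L v‖ * C := by
  refine (ContinuousLinearMap.opNorm_comp_le _ _).trans ?_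
  rw [innerSL_apply_norm]
  gcongr

theorem norm_mv_le (B : Form W) (v : W) (L : W →L[ℝ] F) {C s : ℝ} (hs : ‖B.sharp‖ ≤ s)
    (hL : ‖L‖ ≤ C) (hr : 0 < ‖L v‖) : ‖mv B v L‖ ≤ s * C / ‖L v‖ := by
  have hC : 0 ≤ C := (norm_nonneg _).trans hL
  have hs0 : 0 ≤ s := le_trans (norm_nonneg B.sharp) hs
  unfold mv
  rw [norm_smul, norm_inv, norm_pow, norm_norm]
  have h1 : ‖B.sharp ((innerSL ℝ (L v)).comp L)‖ ≤ s * (‖L v‖ * C) := by
    refine (B.sharp.le_opNorm _).trans ?_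
    exact mul_le_mul hs (norm_eta_le v L hL) (norm_nonneg _) hs0
  calc (‖L v‖ ^ 2)⁻¹ * ‖B.sharp ((innerSL ℝ (L v)).comp L)‖
      ≤ (‖L v‖ ^ 2)⁻¹ * (s * (‖L v‖ * C)) := by gcongr
    _ = s * C / ‖L v‖ := by field_simp

theorem norm_mv'_le (B : Form W) (v : W) (L : W →L[ℝ] F) (v' : W) (L' : W →L[ℝ] F) {C s : ℝ}
    (hC1 : 1 ≤ C) (hs : ‖B.sharp‖ ≤ s) (hL : ‖L‖ ≤ C) (hv' : ‖v'‖ ≤ C)
    (hL' : ‖L'‖ ≤ C * ‖v‖) (hv : ‖v‖ ≤ C * ‖L v‖) (hr : 1 ≤ ‖L v‖) :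
    ‖mv' B v L v' L'‖ ≤ 7 * s * C ^ 4 := by
  set r := ‖L v‖ with hrdef
  have hr0 : 0 < r := by linarith
  have hC0 : 0 ≤ C := by linarith
  have hs0 : 0 ≤ s := le_trans (norm_nonneg B.sharp) hs
  have hLr : ‖L'‖ ≤ C ^ 2 * r := by
    calc ‖L'‖ ≤ C * ‖v‖ := hL'
      _ ≤ C * (C * r) := by gcongr
      _ = C ^ 2 * r := by ring
  have hp : ‖L' v + L v'‖ ≤ 2 * C ^ 3 * r ^ 2 := by
    have h1 : ‖L' v‖ ≤ C ^ 3 * r ^ 2 := by
      calc ‖L' v‖ ≤ ‖L'‖ * ‖v‖ := L'.le_opNorm v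
        _ ≤ (C ^ 2 * r) * (C * r) := by gcongr
        _ = C ^ 3 * r ^ 2 := by ring
    have h2 : ‖L v'‖ ≤ C ^ 3 * r ^ 2 := by
      calc ‖L v'‖ ≤ ‖L‖ * ‖v'‖ := L.le_opNorm v'
        _ ≤ C * C := by gcongr
        _ = C ^ 2 * 1 := by ring
        _ ≤ C ^ 3 * r ^ 2 :=
            mul_le_mul (pow_le_pow_right₀ hC1 (by norm_num)) (one_le_pow₀ hr) zero_le_one
              (by positivity)
    calc ‖L' v + L v'‖ ≤ ‖L' v‖ + ‖L v'‖ := norm_add_le _ _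
      _ ≤ C ^ 3 * r ^ 2 + C ^ 3 * r ^ 2 := by gcongr
      _ = 2 * C ^ 3 * r ^ 2 := by ring
  have hη : ‖(innerSL ℝ (L v)).comp L‖ ≤ r * C := norm_eta_le v L hL
  have hη' : ‖(innerSL ℝ (L' v + L v')).comp L + (innerSL ℝ (L v)).comp L'‖ ≤ 3 * C ^ 4 * r ^ 2 := by
    refine (norm_add_le _ _).trans ?_
    have h1 : ‖(innerSL ℝ (L' v + L v')).comp L‖ ≤ 2 * C ^ 4 * r ^ 2 := by
      refine (ContinuousLinearMap.opNorm_comp_le _ _).trans ?_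
      rw [innerSL_apply_norm]
      calc ‖L' v + L v'‖ * ‖L‖ ≤ (2 * C ^ 3 * r ^ 2) * C := by gcongr
        _ = 2 * C ^ 4 * r ^ 2 := by ring
    have h2 : ‖(innerSL ℝ (L v)).comp L'‖ ≤ C ^ 4 * r ^ 2 := by
      refine (ContinuousLinearMap.opNorm_comp_le _ _).trans ?_
      rw [innerSL_apply_norm]
      calc ‖L v‖ * ‖L'‖ ≤ r * (C ^ 2 * r) := by gcongr
        _ = C ^ 2 * r ^ 2 := by ring
        _ ≤ C ^ 4 * r ^ 2 :=
            mul_le_mul_of_nonneg_right (pow_le_pow_right₀ hC1 (by norm_num)) (by positivity)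
    linarith
  have hin : |inner ℝ (L v) (L' v + L v')| ≤ r * (2 * C ^ 3 * r ^ 2) := by
    refine (abs_real_inner_le_norm _ _).trans ?_
    gcongr
  unfold mv'
  refine (norm_sub_le _ _).trans ?_
  have t1 : ‖(r ^ 2)⁻¹ • B.sharp ((innerSL ℝ (L' v + L v')).comp L + (innerSL ℝ (L v)).comp L')‖
      ≤ 3 * s * C ^ 4 := by
    rw [norm_smul, norm_inv, norm_pow, Real.norm_of_nonneg hr0.le]
    calc (r ^ 2)⁻¹ * ‖B.sharp ((innerSL ℝ (L' v + L v')).comp L + (innerSL ℝ (L v)).comp L')‖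
        ≤ (r ^ 2)⁻¹ * (s * (3 * C ^ 4 * r ^ 2)) := by
          gcongr
          refine (B.sharp.le_opNorm _).trans ?_
          exact mul_le_mul hs hη' (norm_nonneg _) hs0
      _ = 3 * s * C ^ 4 := by field_simp
  have t2 : ‖(2 * inner ℝ (L v) (L' v + L v') / (r ^ 2) ^ 2) • B.sharp ((innerSL ℝ (L v)).comp L)‖
      ≤ 4 * s * C ^ 4 := by
    rw [norm_smul, norm_div, norm_mul, Real.norm_eq_abs, Real.norm_eq_abs, norm_pow, norm_pow,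
      Real.norm_of_nonneg hr0.le]
    have h2 : |(2 : ℝ)| = 2 := abs_of_pos (by norm_num)
    rw [h2]
    calc 2 * |inner ℝ (L v) (L' v + L v')| / (r ^ 2) ^ 2 * ‖B.sharp ((innerSL ℝ (L v)).comp L)‖
        ≤ 2 * (r * (2 * C ^ 3 * r ^ 2)) / (r ^ 2) ^ 2 * (s * (r * C)) := by
          gcongr
          refine (B.sharp.le_opNorm _).trans ?_
          exact mul_le_mul hs hη (norm_nonneg _) hs0
      _ = 4 * s * C ^ 4 := by field_simp; ring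
  calc _ ≤ 3 * s * C ^ 4 + 4 * s * C ^ 4 := add_le_add t1 t2
    _ = 7 * s * C ^ 4 := by ring

theorem abs_b_le (B : Form W) {β : ℝ} (hβ : ‖B.b‖ ≤ β) (x z : W) : |B.b x z| ≤ β * ‖x‖ * ‖z‖ := by
  have h := B.b.le_opNorm₂ x z
  rw [Real.norm_eq_abs] at h
  refine h.trans ?_
  gcongr

/-- Derivative of `τ`. -/
noncomputable def tv' (B : Form W) (v : W) (L : W →L[ℝ] F) (v' : W) (L' : W →L[ℝ] F) : W :=
  v' - (B.b v v' • mv B v L + (1 + B.b v v / 2) • mv' B v L v' L')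

theorem hasDerivAt_theta (B : Form W) {v : ℝ → W} {v' : W} {t : ℝ} (hv : HasDerivAt v v' t) :
    HasDerivAt (fun s => 1 + B.b (v s) (v s) / 2) (B.b (v t) v') t := by
  have h1 : HasDerivAt (fun s => B.b (v s) (v s)) (B.b v' (v t) + B.b (v t) v') t :=
    (B.b.hasFDerivAt.comp_hasDerivAt t hv).clm_apply hv
  have h2 := (h1.div_const 2).const_add 1
  refine h2.congr_deriv ?_
  rw [B.symm v' (v t)]; ring

theorem hasDerivAt_tv (B : Form W) {v : ℝ → W} {L : ℝ → W →L[ℝ] F} {v' : W}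
    {L' : W →L[ℝ] F} {t : ℝ} (hv : HasDerivAt v v' t) (hL : HasDerivAt L L' t)
    (h0 : L t (v t) ≠ 0) :
    HasDerivAt (fun s => tv B (v s) (L s)) (tv' B (v t) (L t) v' L') t := by
  have h1 := hasDerivAt_theta B hv
  have h2 := hasDerivAt_mv B hv hL h0
  have h3 := hv.sub (h1.smul h2)
  refine h3.congr_deriv ?_
  unfold tv'
  rw [add_comm]

end Pool.H1.Lor
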