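import Pool.Agent.H1.Lor.Core3

/-!
# The main differential inequality
-/

namespace Pool.H1.Lor

open Filter Topology Set

variable {W : Type*} [NormedAddCommGroup W] [NormedSpace ℝ W]
  {F : Type*} [NormedAddCommGroup F] [InnerProductSpace ℝ F]

/-- Bounded local data of a trajectory at one time. -/
structure Good (B : Form W) (K : ℝ) (C : ℝ) (y v : W) (L : W →L[ℝ] F) (a : ℝ) (v' : W)
    (L' : W →L[ℝ] F) : Prop where
  hC1 : 1 ≤ C
  ha : |a| ≤ C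
  hy : ‖y‖ ≤ C
  hL : ‖L‖ ≤ C
  hv' : ‖v'‖ ≤ C
  hL' : ‖L'‖ ≤ C * ‖v‖
  hv : ‖v‖ ≤ C * ‖L v‖
  hvv : |B.b v v| ≤ C
  onQ : OnQ B.b K y
  tan : Tan B.b K y v
  Ly : K • L y = 0
  lor : LorAt B.b K y

theorem good_mu {B : Form W} {K C : ℝ} {y v : W} {L : W →L[ℝ] F} {a : ℝ} {v' : W}
    {L' : W →L[ℝ] F} (G : Good B K C y v L a v' L') {β s : ℝ} (hβ : ‖B.b‖ ≤ β)
    (hs : ‖B.sharp‖ ≤ s) (hr : max 1 (2 * (β + 1) * s * C ^ 2) ≤ ‖L v‖) :
    |(1 + B.b v v / 2) ^ 2 * B.b (mv B v L) (mv B v L)| ≤ 1 := by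
  have hC0 : 0 ≤ C := by linarith [G.hC1]
  have hs0 : 0 ≤ s := le_trans (norm_nonneg B.sharp) hs
  have hβ0 : 0 ≤ β := le_trans (norm_nonneg B.b) hβ
  have hr1 : 1 ≤ ‖L v‖ := (le_max_left _ _).trans hr
  have hr2 : 2 * (β + 1) * s * C ^ 2 ≤ ‖L v‖ := (le_max_right _ _).trans hr
  have hr0 : 0 < ‖L v‖ := by linarith
  have hm := norm_mv_le B v L hs G.hL hr0
  have hμ := abs_b_le B hβ (mv B v L) (mv B v L)
  have hθ : |1 + B.b v v / 2| ≤ 2 * C := by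
    have := abs_le.1 G.hvv
    rw [abs_le]; constructor <;> linarith [G.hC1, this.1, this.2]
  rw [abs_mul, abs_pow]
  have h1 : |B.b (mv B v L) (mv B v L)| ≤ β * (s * C / ‖L v‖) * (s * C / ‖L v‖) := by
    refine hμ.trans ?_
    gcongr
  calc |1 + B.b v v / 2| ^ 2 * |B.b (mv B v L) (mv B v L)|
      ≤ (2 * C) ^ 2 * (β * (s * C / ‖L v‖) * (s * C / ‖L v‖)) := by gcongr
    _ = β * (2 * s * C ^ 2) ^ 2 / ‖L v‖ ^ 2 := by field_simp
    _ ≤ 1 := by
        rw [div_le_one (by positivity)]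
        have h3 : (2 * (β + 1) * s * C ^ 2) ^ 2 ≤ ‖L v‖ ^ 2 := by gcongr
        refine le_trans ?_ h3
        have : (2 * (β + 1) * s * C ^ 2) ^ 2 = (β + 1) ^ 2 * (2 * s * C ^ 2) ^ 2 := by ring
        rw [this]
        gcongr
        nlinarith

theorem good_N {B : Form W} {K C : ℝ} {y v : W} {L : W →L[ℝ] F} {a : ℝ} {v' : W}
    {L' : W →L[ℝ] F} (G : Good B K C y v L a v' L') {β s : ℝ} (hβ : ‖B.b‖ ≤ β)
    (hs : ‖B.sharp‖ ≤ s) (hr : max 1 (2 * (β + 1) * s * C ^ 2) ≤ ‖L v‖) :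
    1 ≤ -(B.b (tv B v L) (tv B v L)) ∧ -(B.b (tv B v L) (tv B v L)) ≤ 3 := by
  have hr1 : 1 ≤ ‖L v‖ := (le_max_left _ _).trans hr
  have h0 : L v ≠ 0 := by
    intro h; rw [h, norm_zero] at hr1; linarith
  have h := abs_le.1 (good_mu G hβ hs hr)
  rw [b_tv_tv B v L h0]
  constructor <;> linarith [h.1, h.2]

/-- constants -/
noncomputable def cτ (C β s : ℝ) : ℝ := C + β * s * C ^ 3 + 14 * s * C ^ 5

theorem norm_tv'_le {B : Form W} {K C : ℝ} {y v : W} {L : W →L[ℝ] F} {a : ℝ} {v' : W}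
    {L' : W →L[ℝ] F} (G : Good B K C y v L a v' L') {β s : ℝ} (hβ : ‖B.b‖ ≤ β)
    (hs : ‖B.sharp‖ ≤ s) (hr1 : 1 ≤ ‖L v‖) :
    ‖tv' B v L v' L'‖ ≤ cτ C β s := by
  have hC0 : 0 ≤ C := by linarith [G.hC1]
  have hs0 : 0 ≤ s := le_trans (norm_nonneg B.sharp) hs
  have hβ0 : 0 ≤ β := le_trans (norm_nonneg B.b) hβ
  have hr0 : 0 < ‖L v‖ := by linarith
  have hm := norm_mv_le B v L hs G.hL hr0
  have hm' := norm_mv'_le B v L v' L' G.hC1 hs G.hL G.hv' G.hL' G.hv hr1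
  have hθ : |1 + B.b v v / 2| ≤ 2 * C := by
    have := abs_le.1 G.hvv
    rw [abs_le]; constructor <;> linarith [G.hC1, this.1, this.2]
  have hbv : |B.b v v'| ≤ β * (C * ‖L v‖) * C := by
    refine (abs_b_le B hβ v v').trans ?_
    have := G.hv
    have := G.hv'
    gcongr
  unfold tv' cτ
  refine (norm_sub_le _ _).trans ?_
  have h1 : ‖B.b v v' • mv B v L + (1 + B.b v v / 2) • mv' B v L v' L'‖ ≤
      β * s * C ^ 3 + 14 * s * C ^ 5 := by
    refine (norm_add_le _ _).trans ?_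
    rw [norm_smul, norm_smul, Real.norm_eq_abs, Real.norm_eq_abs]
    have e1 : |B.b v v'| * ‖mv B v L‖ ≤ β * s * C ^ 3 := by
      calc |B.b v v'| * ‖mv B v L‖ ≤ (β * (C * ‖L v‖) * C) * (s * C / ‖L v‖) := by gcongr
        _ = β * s * C ^ 3 := by field_simp
    have e2 : |1 + B.b v v / 2| * ‖mv' B v L v' L'‖ ≤ 14 * s * C ^ 5 := by
      calc |1 + B.b v v / 2| * ‖mv' B v L v' L'‖ ≤ (2 * C) * (7 * s * C ^ 4) := by gcongr
        _ = 14 * s * C ^ 5 := by ring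
    exact add_le_add e1 e2
  linarith [G.hv']

/-- constants -/
noncomputable def cN (C β s : ℝ) : ℝ := 30 * β * (β + 1) * s ^ 2 * C ^ 7

theorem b_tv_tv' {B : Form W} {K C : ℝ} {y v : W} {L : W →L[ℝ] F} {a : ℝ} {v' : W}
    {L' : W →L[ℝ] F} (G : Good B K C y v L a v' L') {β s : ℝ} (hβ : ‖B.b‖ ≤ β)
    (hs : ‖B.sharp‖ ≤ s) (hr1 : 1 ≤ ‖L v‖) :
    |B.b (tv B v L) (tv' B v L v' L')| ≤ cN C β s := by
  have hC0 : 0 ≤ C := by linarith [G.hC1]
  have hC1 := G.hC1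
  have hs0 : 0 ≤ s := le_trans (norm_nonneg B.sharp) hs
  have hβ0 : 0 ≤ β := le_trans (norm_nonneg B.b) hβ
  have hr0 : 0 < ‖L v‖ := by linarith
  have h0 : L v ≠ 0 := by
    intro h; rw [h, norm_zero] at hr1; linarith
  have hm := norm_mv_le B v L hs G.hL hr0
  have hm' := norm_mv'_le B v L v' L' G.hC1 hs G.hL G.hv' G.hL' G.hv hr1
  have hθ : |1 + B.b v v / 2| ≤ 2 * C := by
    have := abs_le.1 G.hvv
    rw [abs_le]; constructor <;> linarith [G.hC1, this.1, this.2]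
  have hbv : |B.b v v'| ≤ β * (C * ‖L v‖) * C := by
    refine (abs_b_le B hβ v v').trans ?_
    have := G.hv
    have := G.hv'
    gcongr
  -- identity
  have hne : ‖L v‖ ^ 2 ≠ 0 := by positivity
  have e1 : B.b v (mv B v L) = 1 := by rw [B.symm]; exact b_mv_self B v L h0
  have e2 : B.b v (mv' B v L v' L') = - B.b (mv B v L) v' := by
    rw [B.symm v, b_mv]
    unfold mv'
    simp only [map_sub, map_smul, sub_apply, smul_apply, B.b_sharp, smul_eq_mul, add_apply,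
      ContinuousLinearMap.comp_apply, innerSL_apply_apply]
    rw [real_inner_self_eq_norm_sq, real_inner_comm (L v) (L' v + L v')]
    simp only [inner_add_right]
    field_simp
    ring
  have key : B.b (tv B v L) (tv' B v L v' L') =
      (1 + B.b v v / 2) * B.b v v' * B.b (mv B v L) (mv B v L) +
      (1 + B.b v v / 2) ^ 2 * B.b (mv B v L) (mv' B v L v' L') := by
    unfold tv tv'
    simp only [map_sub, map_smul, map_add, sub_apply, smul_apply, smul_eq_mul]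
    rw [e1, e2]
    ring
  rw [key]
  have b1 : |B.b (mv B v L) (mv B v L)| ≤ β * (s * C / ‖L v‖) * (s * C / ‖L v‖) := by
    refine (abs_b_le B hβ _ _).trans ?_
    gcongr
  have b2 : |B.b (mv B v L) (mv' B v L v' L')| ≤ β * (s * C / ‖L v‖) * (7 * s * C ^ 4) := by
    refine (abs_b_le B hβ _ _).trans ?_
    gcongr
  refine (abs_add_le _ _).trans ?_
  rw [abs_mul, abs_mul, abs_mul, abs_pow]
  have c1 : |1 + B.b v v / 2| * |B.b v v'| * |B.b (mv B v L) (mv B v L)| ≤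
      2 * β * (β + 1) * s ^ 2 * C ^ 7 := by
    calc |1 + B.b v v / 2| * |B.b v v'| * |B.b (mv B v L) (mv B v L)|
        ≤ (2 * C) * (β * (C * ‖L v‖) * C) * (β * (s * C / ‖L v‖) * (s * C / ‖L v‖)) := by gcongr
      _ = (2 * β * β * s ^ 2 * C ^ 5) / ‖L v‖ := by field_simp
      _ ≤ (2 * β * β * s ^ 2 * C ^ 5) / 1 := by gcongr
      _ = 2 * β * β * s ^ 2 * C ^ 5 := by ring
      _ ≤ 2 * β * (β + 1) * s ^ 2 * C ^ 7 := by
          gcongr
          · linarith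
          · norm_num
  have c2 : |1 + B.b v v / 2| ^ 2 * |B.b (mv B v L) (mv' B v L v' L')| ≤
      28 * β * (β + 1) * s ^ 2 * C ^ 7 := by
    calc |1 + B.b v v / 2| ^ 2 * |B.b (mv B v L) (mv' B v L v' L')|
        ≤ (2 * C) ^ 2 * (β * (s * C / ‖L v‖) * (7 * s * C ^ 4)) := by gcongr
      _ = (28 * β * 1 * s ^ 2 * C ^ 7) / ‖L v‖ := by field_simp; ring
      _ ≤ (28 * β * 1 * s ^ 2 * C ^ 7) / 1 := by gcongr
      _ = 28 * β * 1 * s ^ 2 * C ^ 7 := by ring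
      _ ≤ 28 * β * (β + 1) * s ^ 2 * C ^ 7 := by
          gcongr
          linarith
  unfold cN
  linarith

end Pool.H1.Lor
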