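import Pool.Agent.H1.Lor.Core4

/-!
# The main differential inequality, continued
-/

namespace Pool.H1.Lor

open Filter Topology Set

variable {W : Type*} [NormedAddCommGroup W] [NormedSpace ℝ W]
  {F : Type*} [NormedAddCommGroup F] [InnerProductSpace ℝ F]

theorem Bh_tau {b : W →L[ℝ] W →L[ℝ] ℝ} {K : ℝ} {y τ : W} (hsym : ∀ x z, b x z = b z x)
    (hτ : Tan b K y τ) (hN : b τ τ < 0) : Bh b K y τ τ τ = -(b τ τ) := by
  have h := absK_mul_by hsym hτ
  unfold Bh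
  have hne : b τ τ ≠ 0 := ne_of_lt hN
  have e : 2 / (-(b τ τ)) * (b τ τ * b τ τ) = -2 * b τ τ := by field_simp
  rw [e]
  linear_combination (b τ y) * h

section
variable {B : Form W} {K C : ℝ} {y v : W} {L : W →L[ℝ] F} {a : ℝ} {v' : W}
    {L' : W →L[ℝ] F}

theorem good_Gv (G : Good B K C y v L a v' L') {β s : ℝ} (hβ : ‖B.b‖ ≤ β)
    (hs : ‖B.sharp‖ ≤ s) (hr : max 1 (2 * (β + 1) * s * C ^ 2) ≤ ‖L v‖) :
    Gh B K y v L (a • v) ≤ 19 * C ^ 4 := by
  have hC1 := G.hC1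
  have hC0 : 0 ≤ C := by linarith
  have hr1 : 1 ≤ ‖L v‖ := (le_max_left _ _).trans hr
  have h0 : L v ≠ 0 := by
    intro h; rw [h, norm_zero] at hr1; linarith
  have hN := good_N G hβ hs hr
  have htan := absK_mul_by B.symm G.tan
  have hvv := abs_le.1 G.hvv
  have ha2 : a ^ 2 ≤ C ^ 2 := by
    rw [← sq_abs a]; exact pow_le_pow_left₀ (abs_nonneg _) G.ha 2
  have e : Gh B K y v L (a • v) = a ^ 2 * (B.b v v +
      2 / (-(B.b (tv B v L) (tv B v L))) * (B.b v v / 2 - 1) ^ 2) := by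
    unfold Gh Bh
    simp only [map_smul, smul_apply, smul_eq_mul]
    rw [b_v_tv B v L h0]
    linear_combination (a ^ 2 * B.b v y) * htan
  rw [e]
  have h1 : (B.b v v / 2 - 1) ^ 2 ≤ 9 * C ^ 2 := by
    have : |B.b v v / 2 - 1| ≤ 3 * C := by
      rw [abs_le]; constructor <;> linarith [hvv.1, hvv.2]
    calc (B.b v v / 2 - 1) ^ 2 = |B.b v v / 2 - 1| ^ 2 := (sq_abs _).symm
      _ ≤ (3 * C) ^ 2 := pow_le_pow_left₀ (abs_nonneg _) this 2
      _ = 9 * C ^ 2 := by ring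
  have h2 : 2 / (-(B.b (tv B v L) (tv B v L))) ≤ 2 := by
    rw [div_le_iff₀ (by linarith [hN.1])]; linarith [hN.1]
  have h2' : 0 ≤ 2 / (-(B.b (tv B v L) (tv B v L))) := div_nonneg (by norm_num) (by linarith [hN.1])
  have h3 : B.b v v + 2 / (-(B.b (tv B v L) (tv B v L))) * (B.b v v / 2 - 1) ^ 2 ≤ 19 * C ^ 2 := by
    have : 2 / (-(B.b (tv B v L) (tv B v L))) * (B.b v v / 2 - 1) ^ 2 ≤ 2 * (9 * C ^ 2) :=
      mul_le_mul h2 h1 (sq_nonneg _) (by norm_num)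
    nlinarith [hvv.2]
  calc a ^ 2 * (B.b v v + 2 / (-(B.b (tv B v L) (tv B v L))) * (B.b v v / 2 - 1) ^ 2)
      ≤ a ^ 2 * (19 * C ^ 2) := by gcongr
    _ ≤ C ^ 2 * (19 * C ^ 2) := by gcongr
    _ = 19 * C ^ 4 := by ring

/-- constants -/
noncomputable def cG (K C β s : ℝ) : ℝ :=
  β * cτ C β s ^ 2 + 2 * |K| * (β * cτ C β s * C) ^ 2 + 2 * cN C β s ^ 2

theorem good_Gtau' (G : Good B K C y v L a v' L') {β s : ℝ} (hβ : ‖B.b‖ ≤ β)
    (hs : ‖B.sharp‖ ≤ s) (hr : max 1 (2 * (β + 1) * s * C ^ 2) ≤ ‖L v‖) :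
    Gh B K y v L (tv' B v L v' L') ≤ cG K C β s := by
  have hC1 := G.hC1
  have hC0 : 0 ≤ C := by linarith
  have hβ0 : 0 ≤ β := le_trans (norm_nonneg B.b) hβ
  have hr1 : 1 ≤ ‖L v‖ := (le_max_left _ _).trans hr
  have hN := good_N G hβ hs hr
  have hτ' := norm_tv'_le G hβ hs hr1
  have hcτ0 : 0 ≤ cτ C β s := (norm_nonneg _).trans hτ'
  have hbb := b_tv_tv' G hβ hs hr1
  unfold Gh Bh cG
  set z := tv' B v L v' L' with hz
  have h1 : B.b z z ≤ β * cτ C β s ^ 2 := by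
    refine (le_abs_self _).trans ((abs_b_le B hβ z z).trans ?_)
    calc β * ‖z‖ * ‖z‖ ≤ β * cτ C β s * cτ C β s := by gcongr
      _ = β * cτ C β s ^ 2 := by ring
  have h2 : (|K| - K) * (B.b z y * B.b z y) ≤ 2 * |K| * (β * cτ C β s * C) ^ 2 := by
    have e1 : |B.b z y| ≤ β * cτ C β s * C := by
      refine (abs_b_le B hβ z y).trans ?_
      have := G.hy
      gcongr
    have e2 : B.b z y * B.b z y ≤ (β * cτ C β s * C) ^ 2 := by
      rw [← sq, ← sq_abs]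
      exact pow_le_pow_left₀ (abs_nonneg _) e1 2
    have e3 : |K| - K ≤ 2 * |K| := by linarith [neg_abs_le K]
    have e4 : 0 ≤ |K| - K := by linarith [le_abs_self K]
    exact mul_le_mul e3 e2 (mul_self_nonneg _) (by positivity)
  have h3 : 2 / (-(B.b (tv B v L) (tv B v L))) * (B.b z (tv B v L) * B.b z (tv B v L)) ≤
      2 * cN C β s ^ 2 := by
    have e1 : 2 / (-(B.b (tv B v L) (tv B v L))) ≤ 2 := by
      rw [div_le_iff₀ (by linarith [hN.1])]; linarith [hN.1]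
    have e2 : B.b z (tv B v L) * B.b z (tv B v L) ≤ cN C β s ^ 2 := by
      rw [← sq, ← sq_abs, B.symm z]
      exact pow_le_pow_left₀ (abs_nonneg _) hbb 2
    exact mul_le_mul e1 e2 (mul_self_nonneg _) (by norm_num)
  linarith

theorem good_pos (G : Good B K C y v L a v' L') {β s : ℝ} (hβ : ‖B.b‖ ≤ β)
    (hs : ‖B.sharp‖ ≤ s) (hr : max 1 (2 * (β + 1) * s * C ^ 2) ≤ ‖L v‖) {w : W} (hw : w ≠ 0) :
    0 < Gh B K y v L w :=
  (Bh_self_pos B.symm G.onQ G.lor (tan_tv B v L G.Ly G.tan)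
    (by linarith [(good_N G hβ hs hr).1]) w hw).1

theorem good_nonneg (G : Good B K C y v L a v' L') {β s : ℝ} (hβ : ‖B.b‖ ≤ β)
    (hs : ‖B.sharp‖ ≤ s) (hr : max 1 (2 * (β + 1) * s * C ^ 2) ≤ ‖L v‖) (w : W) :
    0 ≤ Gh B K y v L w :=
  Bh_nonneg B.symm G.onQ G.lor (tan_tv B v L G.Ly G.tan)
    (by linarith [(good_N G hβ hs hr).1]) w

theorem good_cs (G : Good B K C y v L a v' L') {β s : ℝ} (hβ : ‖B.b‖ ≤ β)
    (hs : ‖B.sharp‖ ≤ s) (hr : max 1 (2 * (β + 1) * s * C ^ 2) ≤ ‖L v‖) (w p : W) :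
    (B.b w p) ^ 2 ≤ Gh B K y v L w * Gh B K y v L p :=
  b_sq_le B.symm G.onQ G.lor (tan_tv B v L G.Ly G.tan)
    (by linarith [(good_N G hβ hs hr).1]) w p

theorem good_K (G : Good B K C y v L a v' L') {β s : ℝ} (hβ : ‖B.b‖ ≤ β)
    (hs : ‖B.sharp‖ ≤ s) (hr : max 1 (2 * (β + 1) * s * C ^ 2) ≤ ‖L v‖) (w : W) :
    |K| * (B.b w y) ^ 2 ≤ Gh B K y v L w :=
  absK_sq_le B.symm G.onQ G.lor (tan_tv B v L G.Ly G.tan)
    (by linarith [(good_N G hβ hs hr).1]) w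

end

/-- constants -/
noncomputable def cD (K C β s : ℝ) : ℝ :=
  2 + 2 * |K| * (19 * C ^ 4) + 12 * cN C β s + 2 * (3 + cG K C β s)

theorem core_deriv {B : Form W} {K C : ℝ} {y v : ℝ → W} {L : ℝ → W →L[ℝ] F} {t a : ℝ} {v' : W}
    {L' : W →L[ℝ] F} (hy : HasDerivAt y (a • v t) t) (hv : HasDerivAt v v' t)
    (hL : HasDerivAt L L' t) (G : Good B K C (y t) (v t) (L t) a v' L') {β s : ℝ}
    (hβ : ‖B.b‖ ≤ β) (hs : ‖B.sharp‖ ≤ s)
    (hr : max 1 (2 * (β + 1) * s * C ^ 2) ≤ ‖L t (v t)‖) (w : W) :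
    ∃ D, HasDerivAt (fun r => Gh B K (y r) (v r) (L r) w) D t ∧
      |D| ≤ cD K C β s * Gh B K (y t) (v t) (L t) w := by
  have hr1 : 1 ≤ ‖L t (v t)‖ := (le_max_left _ _).trans hr
  have h0 : L t (v t) ≠ 0 := by
    intro h; rw [h, norm_zero] at hr1; linarith
  have hN := good_N G hβ hs hr
  set τ := tv B (v t) (L t) with hτdef
  set τ' := tv' B (v t) (L t) v' L' with hτ'def
  have hNne : B.b τ τ ≠ 0 := by
    intro h; rw [h] at hN; linarith [hN.1]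
  have hτ : HasDerivAt (fun r => tv B (v r) (L r)) τ' t := hasDerivAt_tv B hv hL h0
  have d1 : HasDerivAt (fun r => B.b w (y r)) (B.b w (a • v t)) t :=
    (B.b w).hasFDerivAt.comp_hasDerivAt t hy
  have d2 : HasDerivAt (fun r => B.b w (tv B (v r) (L r))) (B.b w τ') t :=
    (B.b w).hasFDerivAt.comp_hasDerivAt t hτ
  have d3 : HasDerivAt (fun r => B.b (tv B (v r) (L r)) (tv B (v r) (L r)))
      (B.b τ' τ + B.b τ τ') t :=
    (B.b.hasFDerivAt.comp_hasDerivAt t hτ).clm_apply hτ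
  have d4 := (d3.neg.inv (by simpa using hNne)).const_mul (2 : ℝ)
  have d5 := ((d1.mul d1).const_mul (|K| - K)).const_add (B.b w w)
  have d6 := d5.add (d4.mul (d2.mul d2))
  refine ⟨_, d6.congr_of_eventuallyEq ?_, ?_⟩
  · exact Filter.Eventually.of_forall fun r => by
      simp only [Gh, Bh, Pi.add_apply, Pi.mul_apply, div_eq_mul_inv]
      rfl
  · -- the bound
    set g := Gh B K (y t) (v t) (L t) w with hg
    have hg0 : 0 ≤ g := good_nonneg G hβ hs hr w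
    have hyw : |K| * (B.b w (y t)) ^ 2 ≤ g := good_K G hβ hs hr w
    have hyw' : (B.b w (a • v t)) ^ 2 ≤ g * (19 * C ^ 4) := by
      refine (good_cs G hβ hs hr w (a • v t)).trans ?_
      exact mul_le_mul_of_nonneg_left (good_Gv G hβ hs hr) hg0
    have hwτ : (B.b w τ) ^ 2 ≤ 3 * g := by
      refine (good_cs G hβ hs hr w τ).trans ?_
      have : Gh B K (y t) (v t) (L t) τ = -(B.b τ τ) := by
        unfold Gh
        exact Bh_tau B.symm (tan_tv B _ _ G.Ly G.tan) (by linarith [hN.1])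
      rw [this]
      nlinarith [hN.2]
    have hwτ' : (B.b w τ') ^ 2 ≤ g * cG K C β s := by
      refine (good_cs G hβ hs hr w τ').trans ?_
      exact mul_le_mul_of_nonneg_left (good_Gtau' G hβ hs hr) hg0
    have hbb : |B.b τ τ'| ≤ cN C β s := b_tv_tv' G hβ hs hr1
    have hsym : B.b τ' τ = B.b τ τ' := B.symm _ _
    have hN0 : 0 < -(B.b τ τ) := by linarith [hN.1]
    have i1 : (-(B.b τ τ))⁻¹ ≤ 1 := inv_le_one_of_one_le₀ hN.1
    have i0 : 0 ≤ (-(B.b τ τ))⁻¹ := (inv_pos.2 hN0).le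
    -- three pieces
    have p1 : |(|K| - K) * (B.b w (a • v t) * B.b w (y t) + B.b w (y t) * B.b w (a • v t))| ≤
        2 * g + 2 * |K| * (19 * C ^ 4) * g := by
      have e4 : 0 ≤ |K| - K := by linarith [le_abs_self K]
      have e3 : |K| - K ≤ 2 * |K| := by linarith [neg_abs_le K]
      have e5 : B.b w (a • v t) * B.b w (y t) + B.b w (y t) * B.b w (a • v t) =
        2 * (B.b w (y t) * B.b w (a • v t)) := by ring
      rw [e5, abs_mul, abs_of_nonneg e4, abs_mul, abs_of_pos (by norm_num : (0:ℝ) < 2), abs_mul]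
      have e6 : 2 * (|B.b w (y t)| * |B.b w (a • v t)|) ≤
          (B.b w (y t)) ^ 2 + (B.b w (a • v t)) ^ 2 := by
        have := sq_nonneg (|B.b w (y t)| - |B.b w (a • v t)|)
        rw [← sq_abs (B.b w (y t)), ← sq_abs (B.b w (a • v t))]
        nlinarith
      calc (|K| - K) * (2 * (|B.b w (y t)| * |B.b w (a • v t)|))
          ≤ (2 * |K|) * ((B.b w (y t)) ^ 2 + (B.b w (a • v t)) ^ 2) :=
            mul_le_mul e3 e6 (by positivity) (by positivity)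
        _ = 2 * (|K| * (B.b w (y t)) ^ 2) + 2 * |K| * (B.b w (a • v t)) ^ 2 := by ring
        _ ≤ 2 * g + 2 * |K| * (g * (19 * C ^ 4)) := by gcongr
        _ = 2 * g + 2 * |K| * (19 * C ^ 4) * g := by ring
    have p2 : |2 * (-(-(B.b τ' τ + B.b τ τ')) / (-(B.b τ τ)) ^ 2) * (B.b w τ * B.b w τ)| ≤
        12 * cN C β s * g := by
      rw [hsym]
      have e : 2 * (-(-(B.b τ τ' + B.b τ τ')) / (-(B.b τ τ)) ^ 2) * (B.b w τ * B.b w τ) =
          4 * B.b τ τ' * ((-(B.b τ τ))⁻¹ ^ 2) * (B.b w τ) ^ 2 := by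
        field_simp
        ring
      rw [e, abs_mul, abs_mul, abs_mul, abs_of_pos (by norm_num : (0:ℝ) < 4),
        abs_of_nonneg (by positivity : (0:ℝ) ≤ (-(B.b τ τ))⁻¹ ^ 2),
        abs_of_nonneg (sq_nonneg (B.b w τ))]
      have hcN : 0 ≤ cN C β s := (abs_nonneg _).trans hbb
      calc 4 * |B.b τ τ'| * (-(B.b τ τ))⁻¹ ^ 2 * (B.b w τ) ^ 2
          ≤ 4 * cN C β s * 1 ^ 2 * (3 * g) := by gcongr
        _ = 12 * cN C β s * g := by ring
    have p3 : |2 * (-(B.b τ τ))⁻¹ * (B.b w τ' * B.b w τ + B.b w τ * B.b w τ')| ≤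
        2 * (3 + cG K C β s) * g := by
      have e5 : B.b w τ' * B.b w τ + B.b w τ * B.b w τ' = 2 * (B.b w τ * B.b w τ') := by ring
      rw [e5, abs_mul, abs_mul, abs_of_pos (by norm_num : (0:ℝ) < 2), abs_of_nonneg i0, abs_mul,
        abs_of_pos (by norm_num : (0:ℝ) < 2), abs_mul]
      have e6 : 2 * (|B.b w τ| * |B.b w τ'|) ≤ (B.b w τ) ^ 2 + (B.b w τ') ^ 2 := by
        have := sq_nonneg (|B.b w τ| - |B.b w τ'|)
        rw [← sq_abs (B.b w τ), ← sq_abs (B.b w τ')]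
        nlinarith
      calc 2 * (-(B.b τ τ))⁻¹ * (2 * (|B.b w τ| * |B.b w τ'|))
          ≤ 2 * 1 * ((B.b w τ) ^ 2 + (B.b w τ') ^ 2) := by gcongr
        _ ≤ 2 * 1 * (3 * g + g * cG K C β s) := by gcongr
        _ = 2 * (3 + cG K C β s) * g := by ring
    have hsum : cD K C β s * g = (2 * g + 2 * |K| * (19 * C ^ 4) * g) + 12 * cN C β s * g +
        2 * (3 + cG K C β s) * g := by
      unfold cD; ring
    rw [hsum]
    refine le_trans (le_of_eq (congrArg _ ?_)) ((abs_add_three _ _ _).trans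
      (add_le_add (add_le_add p1 p2) p3))
    simp only [Pi.mul_apply, Pi.neg_apply, Pi.inv_apply]
    ring

end Pool.H1.Lor
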