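import Pool.Agent.H1.Lor.Ode

/-!
# Local existence of geodesics, with uniform time
-/

namespace Pool.H1.Lor

open Filter Topology Set Metric

/-- Flow box with uniform time, staying in a neighbourhood. -/
theorem flow_box {P : Type*} [NormedAddCommGroup P] [NormedSpace ℝ P] [CompleteSpace P]
    {X : P → P} {p₀ : P} (hX : ContDiffAt ℝ 1 X p₀) {U : Set P} (hU : U ∈ 𝓝 p₀) :
    ∃ r > 0, ∃ ε > 0, ∀ p ∈ closedBall p₀ r, ∀ t₀ : ℝ, ∃ α : ℝ → P, α t₀ = p ∧
      ∀ t ∈ Ioo (t₀ - ε) (t₀ + ε), HasDerivAt α (X (α t)) t ∧ α t ∈ U := by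
  obtain ⟨ε, hε, a, r, L, k, hr, hpl⟩ := IsPicardLindelof.of_contDiffAt_one hX
  obtain ⟨α, hα, hcont⟩ :=
    (hpl 0).exists_forall_mem_closedBall_eq_hasDerivWithinAt_continuousOn
  simp only [zero_sub, zero_add] at hα hcont
  have h0 : ContinuousWithinAt α (closedBall p₀ r ×ˢ Icc (-ε) ε) (p₀, 0) :=
    hcont (p₀, 0) ⟨mem_closedBall_self r.2, by constructor <;> linarith⟩
  have hα0 : α (p₀, 0) = p₀ := (hα p₀ (mem_closedBall_self r.2)).1
  have hU' : U ∈ 𝓝 (α (p₀, 0)) := by rwa [hα0]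
  have h1 := h0 hU'
  rw [mem_map, mem_nhdsWithin_iff] at h1
  obtain ⟨η, hη, hsub⟩ := h1
  set r' : ℝ := min r (η / 2) with hr'
  set ε' : ℝ := min ε (η / 2) with hε'
  have hr'0 : 0 < r' := lt_min (by exact_mod_cast hr) (by linarith)
  have hε'0 : 0 < ε' := lt_min hε (by linarith)
  refine ⟨r', hr'0, ε', hε'0, fun p hp t₀ => ⟨fun t => α (p, t - t₀), ?_, ?_⟩⟩
  · have : p ∈ closedBall p₀ r := closedBall_subset_closedBall (min_le_left _ _) hp
    simpa using (hα p this).1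
  · intro t ht
    have hpr : p ∈ closedBall p₀ r := closedBall_subset_closedBall (min_le_left _ _) hp
    have htt : t - t₀ ∈ Ioo (-ε') ε' := by
      constructor <;> linarith [ht.1, ht.2]
    have htt' : t - t₀ ∈ Ioo (-ε) ε :=
      ⟨by linarith [htt.1, min_le_left ε (η / 2)], by linarith [htt.2, min_le_left ε (η / 2)]⟩
    constructor
    · have h2 := ((hα p hpr).2 (t - t₀) (Ioo_subset_Icc_self htt')).hasDerivAt
        (Icc_mem_nhds htt'.1 htt'.2)
      have h3 : HasDerivAt (fun s => s - t₀) 1 t := (hasDerivAt_id t).sub_const t₀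
      have h4 := h2.scomp t h3
      rw [one_smul] at h4
      exact h4
    · apply hsub
      refine ⟨?_, hpr, Ioo_subset_Icc_self htt'⟩
      rw [mem_ball, Prod.dist_eq, max_lt_iff]
      constructor
      · have := mem_closedBall.1 hp
        have h5 : r' ≤ η / 2 := min_le_right _ _
        show dist p p₀ < η
        linarith
      · show dist (t - t₀) 0 < η
        rw [Real.dist_eq, sub_zero, abs_lt]
        have h5 : ε' ≤ η / 2 := min_le_right _ _
        constructor <;> linarith [htt.1, htt.2]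

variable {W : Type*} [NormedAddCommGroup W] [NormedSpace ℝ W]

theorem SolAt.congr {B : Form W} {K : ℝ} {S : W → ℝ} {y y' : ℝ → W} {t : ℝ}
    (h : SolAt B K S y t) (e : y' =ᶠ[𝓝 t] y) : SolAt B K S y' t := by
  have e' : deriv y' =ᶠ[𝓝 t] deriv y := e.deriv
  refine ⟨?_, ?_⟩
  · filter_upwards [h.1, e.eventually_nhds, e'] with s hs hs' hs''
    rw [hs'']
    exact hs.congr_of_eventuallyEq hs'
  · rw [e'.self_of_nhds, e.self_of_nhds]
    exact h.2.congr_of_eventuallyEq e'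

/-- Solutions starting tangentially to the space form stay on it. -/
theorem stay_onQ {B : Form W} {K : ℝ} {S : W → ℝ} {α : ℝ → W × W} {a b t₀ C : ℝ}
    (ht₀ : t₀ ∈ Ioo a b)
    (hα : ∀ t ∈ Ioo a b, HasDerivAt α (fld B K S (α t)) t)
    (hS : ∀ t ∈ Ioo a b, K • fderiv ℝ S (α t).1 (α t).1 = 0)
    (hC1 : ∀ t ∈ Ioo a b, |K * B.b (α t).2 (α t).2| ≤ C)
    (hC2 : ∀ t ∈ Ioo a b, |2 * fderiv ℝ S (α t).1 (α t).2| ≤ C)
    (hQ : OnQ B.b K (α t₀).1) (hT : Tan B.b K (α t₀).1 (α t₀).2) :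
    ∀ t ∈ Ioo a b, OnQ B.b K (α t).1 ∧ Tan B.b K (α t).1 (α t).2 := by
  by_cases hK : K = 0
  · subst hK; intro t _; simp [OnQ, Tan, dl_zero]
  have hC0 : 0 ≤ C := (abs_nonneg _).trans (hC1 t₀ ht₀)
  set f : ℝ → ℝ × ℝ := fun t => (K * B.b (α t).1 (α t).1 - 1, K * B.b (α t).1 (α t).2) with hf
  set v : ℝ → ℝ × ℝ → ℝ × ℝ := fun t x =>
    (2 * x.2, -(K * B.b (α t).2 (α t).2) * x.1 - 2 * fderiv ℝ S (α t).1 (α t).2 * x.2) with hv
  have hlip : ∀ t ∈ Ioo a b, LipschitzOnWith (Real.toNNReal (2 + 2 * C)) (v t) univ := by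
    intro t ht
    refine LipschitzOnWith.of_dist_le_mul fun x _ z _ => ?_
    rw [Real.coe_toNNReal _ (by positivity), Prod.dist_eq]
    have d1 : |x.1 - z.1| ≤ dist x z := by
      rw [Prod.dist_eq, Real.dist_eq]; exact le_max_left _ _
    have d2 : |x.2 - z.2| ≤ dist x z := by
      rw [Prod.dist_eq]; exact le_trans (le_of_eq (Real.dist_eq _ _).symm) (le_max_right _ _)
    have d0 : 0 ≤ dist x z := dist_nonneg
    refine max_le ?_ ?_
    · rw [Real.dist_eq]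
      have : (v t x).1 - (v t z).1 = 2 * (x.2 - z.2) := by simp only [hv]; ring
      rw [this, abs_mul, abs_of_pos (by norm_num : (0:ℝ) < 2)]
      nlinarith
    · rw [Real.dist_eq]
      have : (v t x).2 - (v t z).2 = -(K * B.b (α t).2 (α t).2) * (x.1 - z.1) -
          2 * fderiv ℝ S (α t).1 (α t).2 * (x.2 - z.2) := by simp only [hv]; ring
      rw [this]
      refine (abs_sub _ _).trans ?_
      rw [abs_mul, abs_mul, abs_neg]
      have c1 := hC1 t ht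
      have c2 := hC2 t ht
      have a1 : |K * B.b (α t).2 (α t).2| * |x.1 - z.1| ≤ C * dist x z :=
        mul_le_mul c1 d1 (abs_nonneg _) hC0
      have a2 : |2 * fderiv ℝ S (α t).1 (α t).2| * |x.2 - z.2| ≤ C * dist x z :=
        mul_le_mul c2 d2 (abs_nonneg _) hC0
      linarith
  have hder : ∀ t ∈ Ioo a b, HasDerivAt f (v t (f t)) t := by
    intro t ht
    have h1 : HasDerivAt (fun t => (α t).1) (α t).2 t := (hα t ht).fst
    have h2 : HasDerivAt (fun t => (α t).2) (acc B K S (α t).1 (α t).2) t := (hα t ht).snd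
    have e1 : HasDerivAt (fun t => B.b (α t).1 (α t).1)
        (B.b (α t).2 (α t).1 + B.b (α t).1 (α t).2) t :=
      (B.b.hasFDerivAt.comp_hasDerivAt t h1).clm_apply h1
    have e2 : HasDerivAt (fun t => B.b (α t).1 (α t).2)
        (B.b (α t).2 (α t).2 + B.b (α t).1 (acc B K S (α t).1 (α t).2)) t :=
      (B.b.hasFDerivAt.comp_hasDerivAt t h1).clm_apply h2
    refine ((e1.const_mul K).sub_const 1).prodMk (e2.const_mul K) |>.congr_deriv ?_
    simp only [hv, hf, Prod.mk.injEq]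
    constructor
    · rw [B.symm (α t).2 (α t).1]; ring
    · unfold acc
      simp only [map_add, map_sub, map_smul, smul_eq_mul]
      rw [B.symm (α t).1 (B.sharp _), B.b_sharp]
      have h3 := hS t ht
      rw [smul_eq_mul] at h3
      linear_combination (B.b (α t).2 (α t).2) * h3
  have h0 : f t₀ = (fun _ : ℝ => ((0 : ℝ), (0 : ℝ))) t₀ := by
    simp only [hf]
    unfold OnQ at hQ
    unfold Tan at hT
    rw [dl_ne hK, add_zero] at hQ
    rw [hQ, hT, sub_self]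
  have key := ODE_solution_unique_of_mem_Ioo (v := v) (s := fun _ => univ)
    (K := Real.toNNReal (2 + 2 * C)) (f := f) (g := fun _ => ((0 : ℝ), (0 : ℝ))) hlip ht₀
    (fun t ht => ⟨hder t ht, mem_univ _⟩)
    (fun t ht => ⟨by
      have : v t ((0 : ℝ), (0 : ℝ)) = 0 := by simp [hv]
      rw [this]; exact hasDerivAt_const _ _, mem_univ _⟩) h0
  intro t ht
  have h1 := key ht
  simp only [hf, Prod.mk.injEq] at h1
  refine ⟨?_, h1.2⟩
  unfold OnQ
  rw [dl_ne hK, add_zero]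
  linarith [h1.1]

namespace GX

variable {M : Type*} [TopologicalSpace M] {B : Form W} {K : ℝ} {G : GX M B K}
  {φ : M → W} {ψ : W → M} {σ : M → ℝ} {x₀ : M}

/-- Local existence of geodesics with uniform time near given initial data. -/
theorem geo_exists [FiniteDimensional ℝ W] (hσ : G.Smooth σ) (h : G.chart x₀ φ ψ) (u₀ : W) :
    ∃ r > 0, ∃ ε > 0, ∀ x, G.chart x φ ψ → ‖φ x - φ x₀‖ ≤ r → ∀ u, Tan B.b K (φ x) u →
      ‖u - u₀‖ ≤ r → ∀ t₀ : ℝ, ∃ c : ℝ → M, c t₀ = x ∧ deriv (φ ∘ c) t₀ = u ∧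
        ∀ t ∈ Ioo (t₀ - ε) (t₀ + ε), G.Geo σ c t := by
  have : CompleteSpace W := FiniteDimensional.complete ℝ W
  have hX : ContDiffAt ℝ 1 (fld B K (σ ∘ ψ)) (φ x₀, u₀) := contDiffAt_fld (hσ h)
  have c1 : ContinuousAt (fun p : W × W => K * B.b p.2 p.2) (φ x₀, u₀) := by
    apply Continuous.continuousAt; fun_prop
  have hfd : ContinuousAt (fderiv ℝ (σ ∘ ψ)) (φ x₀) :=
    ((hσ h).fderiv_right (m := 1) (by norm_num)).continuousAt
  have c2 : ContinuousAt (fun p : W × W => 2 * fderiv ℝ (σ ∘ ψ) p.1 p.2) (φ x₀, u₀) := by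
    have h1 : ContinuousAt (fun p : W × W => fderiv ℝ (σ ∘ ψ) p.1) (φ x₀, u₀) :=
      ContinuousAt.comp (g := fderiv ℝ (σ ∘ ψ)) (f := Prod.fst) hfd continuousAt_fst
    exact continuousAt_const.mul (h1.clm_apply continuousAt_snd)
  set C : ℝ := max (|K * B.b u₀ u₀| + 1) (|2 * fderiv ℝ (σ ∘ ψ) (φ x₀) u₀| + 1) with hC
  have b1 : ∀ᶠ p : W × W in 𝓝 (φ x₀, u₀), |K * B.b p.2 p.2| ≤ C := by
    have := c1.abs.eventually (gt_mem_nhds (lt_add_one |K * B.b u₀ u₀|))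
    filter_upwards [this] with p hp using hp.le.trans (le_max_left _ _)
  have b2 : ∀ᶠ p : W × W in 𝓝 (φ x₀, u₀), |2 * fderiv ℝ (σ ∘ ψ) p.1 p.2| ≤ C := by
    have := c2.abs.eventually (gt_mem_nhds (lt_add_one |2 * fderiv ℝ (σ ∘ ψ) (φ x₀) u₀|))
    filter_upwards [this] with p hp using hp.le.trans (le_max_right _ _)
  have tf : Tendsto (Prod.fst : W × W → W) (𝓝 (φ x₀, u₀)) (𝓝 (φ x₀)) :=
    (continuous_fst (X := W) (Y := W)).tendsto (φ x₀, u₀)
  have b3 : ∀ᶠ p : W × W in 𝓝 (φ x₀, u₀), K • fderiv ℝ (σ ∘ ψ) p.1 p.1 = 0 :=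
    tf.eventually (G.homog hσ h)
  have b4 : ∀ᶠ p : W × W in 𝓝 (φ x₀, u₀), G.chart (ψ p.1) φ ψ ∧
      φ (ψ p.1) = nrm B.b K p.1 ∧ ψ (nrm B.b K p.1) = ψ p.1 :=
    tf.eventually (G.eventually_good h)
  obtain ⟨r, hr, ε, hε, hflow⟩ := flow_box hX (b1.and (b2.and (b3.and b4)))
  refine ⟨r, hr, ε, hε, fun x hx hxr u hu hur t₀ => ?_⟩
  obtain ⟨α, hα0, hα⟩ := hflow (φ x, u) (by
    rw [mem_closedBall, Prod.dist_eq, dist_eq_norm, dist_eq_norm]
    exact max_le hxr hur) t₀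
  have ht₀ : t₀ ∈ Ioo (t₀ - ε) (t₀ + ε) := ⟨by linarith, by linarith⟩
  have hstay := stay_onQ (B := B) (K := K) (S := σ ∘ ψ) (C := C) ht₀ (fun t ht => (hα t ht).1)
    (fun t ht => (hα t ht).2.2.2.1) (fun t ht => (hα t ht).2.1) (fun t ht => (hα t ht).2.2.1)
    (by rw [hα0]; exact G.onQ hx) (by rw [hα0]; exact hu)
  have hφ : ∀ t ∈ Ioo (t₀ - ε) (t₀ + ε), φ (ψ (α t).1) = (α t).1 := by
    intro t ht
    rw [(hα t ht).2.2.2.2.2.1, nrm_onQ (hstay t ht).1]
  have hsol : ∀ t ∈ Ioo (t₀ - ε) (t₀ + ε), SolAt B K (σ ∘ ψ) (fun s => (α s).1) t ∧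
      deriv (fun s => (α s).1) t = (α t).2 := by
    intro t ht
    apply solAt_of_pair
    filter_upwards [Ioo_mem_nhds ht.1 ht.2] with s hs using (hα s hs).1
  have hev : ∀ t ∈ Ioo (t₀ - ε) (t₀ + ε),
      (φ ∘ fun s => ψ (α s).1) =ᶠ[𝓝 t] fun s => (α s).1 := by
    intro t ht
    filter_upwards [Ioo_mem_nhds ht.1 ht.2] with s hs using hφ s hs
  refine ⟨fun s => ψ (α s).1, ?_, ?_, ?_⟩
  · simp only [hα0]; exact G.left_inv hx
  · rw [(hev t₀ ht₀).deriv_eq, (hsol t₀ ht₀).2, hα0]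
  · intro t ht
    refine ⟨?_, φ, ψ, (hα t ht).2.2.2.2.1, (hsol t ht).1.congr (hev t ht)⟩
    have h1 := G.cont_inv (hα t ht).2.2.2.2.1
    rw [hφ t ht] at h1
    have h2 : ContinuousAt (fun s => (α s).1) t :=
      ContinuousAt.fst (hα t ht).1.continuousAt
    exact ContinuousAt.comp (g := ψ) (f := fun s => (α s).1) h1 h2

end GX

end Pool.H1.Lor
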