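import Pool.Agent.H1.Lor.Zeta

/-!
# Developing geodesics: the family of geodesics issued from a point
-/

namespace Pool.H1.Lor

open Filter Topology Set Metric

variable {W : Type*} [NormedAddCommGroup W] [NormedSpace ℝ W]

section defs
variable (B : Form W) (K : ℝ) (y₀ : W)

/-- scaling factor -/
noncomputable def aof (z : W) : ℝ := K * B.b y₀ z + dl K

/-- direction at `y₀` of the geodesic through `z` -/
noncomputable def wof (z : W) : W := (aof B K y₀ z)⁻¹ • z - y₀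

/-- `K b(w,w)` -/
noncomputable def om (z : W) : ℝ := K * B.b (wof B K y₀ z) (wof B K y₀ z)

/-- domain -/
def Oset : Set W := {z | 0 < K * B.b z z + dl K ∧ 0 < aof B K y₀ z}

/-- projected segment -/
noncomputable def bet (p : ℝ × W) : W := nrm B.b K (y₀ + p.1 • wof B K y₀ p.2)

/-- domain for the pairs -/
def Uset : Set (ℝ × W) := {p | p.2 ∈ Oset B K y₀ ∧ p.1 ∈ Jset (om B K y₀ p.2)}

end defs

section lemmas
variable {B : Form W} {K : ℝ} {y₀ : W}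

theorem continuous_aof : Continuous (aof B K y₀) := by unfold aof; fun_prop

theorem isOpen_Oset : IsOpen (Oset B K y₀) :=
  (isOpen_lt continuous_const continuous_form).inter (isOpen_lt continuous_const continuous_aof)

theorem continuousAt_wof {z : W} (hz : 0 < aof B K y₀ z) : ContinuousAt (wof B K y₀) z := by
  unfold wof
  exact ((continuous_aof.continuousAt.inv₀ hz.ne').smul continuousAt_id).sub continuousAt_const

theorem continuousAt_om {z : W} (hz : 0 < aof B K y₀ z) : ContinuousAt (om B K y₀) z := by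
  have h := continuousAt_wof hz
  unfold om
  exact continuousAt_const.mul ((B.b.continuous.continuousAt.comp h).clm_apply h)

theorem isOpen_Uset : IsOpen (Uset B K y₀) := by
  rw [isOpen_iff_mem_nhds]
  rintro ⟨l, z⟩ ⟨hz, hl⟩
  have h1 : ∀ᶠ p : ℝ × W in 𝓝 (l, z), p.2 ∈ Oset B K y₀ :=
    (continuous_snd.tendsto (l, z)).eventually (isOpen_Oset.mem_nhds hz)
  have h2 : ContinuousAt (fun p : ℝ × W => 1 + om B K y₀ p.2 * p.1 ^ 2) (l, z) := by
    have h3 : ContinuousAt (fun p : ℝ × W => om B K y₀ p.2) (l, z) :=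
      ContinuousAt.comp (g := om B K y₀) (f := Prod.snd) (continuousAt_om hz.2) continuousAt_snd
    exact continuousAt_const.add (h3.mul (continuousAt_fst.pow 2))
  have h4 : ∀ᶠ p : ℝ × W in 𝓝 (l, z), 0 < 1 + om B K y₀ p.2 * p.1 ^ 2 :=
    h2.eventually (lt_mem_nhds hl)
  filter_upwards [h1, h4] with p hp hp' using ⟨hp, hp'⟩

theorem tan_wof (hy : OnQ B.b K y₀) {z : W} (hz : z ∈ Oset B K y₀) :
    Tan B.b K y₀ (wof B K y₀ z) := by
  by_cases hK : K = 0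
  · simp [Tan, hK]
  have ha : aof B K y₀ z ≠ 0 := hz.2.ne'
  unfold Tan wof
  unfold OnQ at hy
  have e : aof B K y₀ z = K * B.b y₀ z := by unfold aof; rw [dl_ne hK, add_zero]
  rw [dl_ne hK, add_zero] at hy
  simp only [map_sub, map_smul, smul_eq_mul, mul_sub]
  rw [hy]
  have : K * ((aof B K y₀ z)⁻¹ * B.b y₀ z) = (aof B K y₀ z)⁻¹ * aof B K y₀ z := by
    rw [e]; ring
  rw [this, inv_mul_cancel₀ ha, sub_self]

theorem form_line (hy : OnQ B.b K y₀) {z : W} (hz : z ∈ Oset B K y₀) (l : ℝ) :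
    K * B.b (y₀ + l • wof B K y₀ z) (y₀ + l • wof B K y₀ z) + dl K = 1 + om B K y₀ z * l ^ 2 := by
  have h := tan_wof hy hz
  unfold Tan at h
  unfold OnQ at hy
  unfold om
  simp only [map_add, map_smul, add_apply, smul_apply, smul_eq_mul]
  rw [B.symm (wof B K y₀ z) y₀]
  linear_combination hy + 2 * l * h

theorem one_mem_Jset (hy : OnQ B.b K y₀) {z : W} (hz : z ∈ Oset B K y₀) :
    (1 : ℝ) ∈ Jset (om B K y₀ z) := by
  show 0 < 1 + om B K y₀ z * 1 ^ 2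
  rw [← form_line hy hz 1]
  have e : y₀ + (1:ℝ) • wof B K y₀ z = (aof B K y₀ z)⁻¹ • z := by
    rw [one_smul]; unfold wof; abel
  rw [e]
  by_cases hK : K = 0
  · simp [hK, dl_zero]
  · have h1 := hz.1
    have h2 := hz.2
    rw [dl_ne hK, add_zero] at h1 ⊢
    simp only [map_smul, smul_apply, smul_eq_mul]
    have : K * ((aof B K y₀ z)⁻¹ * ((aof B K y₀ z)⁻¹ * B.b z z)) =
      (aof B K y₀ z)⁻¹ ^ 2 * (K * B.b z z) := by ring
    rw [this]
    positivity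

theorem nf_line (hy : OnQ B.b K y₀) {z : W} (hz : z ∈ Oset B K y₀) (l : ℝ) :
    nf B.b K (y₀ + l • wof B K y₀ z) = Real.sqrt (1 + om B K y₀ z * l ^ 2) := by
  unfold nf; rw [form_line hy hz]

theorem bet_one {z : W} (hz : z ∈ Oset B K y₀) : bet B K y₀ (1, z) = nrm B.b K z := by
  unfold bet
  have e : y₀ + (1:ℝ) • wof B K y₀ z = (aof B K y₀ z)⁻¹ • z := by
    rw [one_smul]; unfold wof; abel
  rw [e]
  by_cases hK : K = 0
  · subst hK
    have : aof B 0 y₀ z = 1 := by simp [aof, dl_zero]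
    rw [this]; simp
  · exact nrm_smul hK (inv_pos.2 hz.2)

theorem bet_zero (hy : OnQ B.b K y₀) (z : W) : bet B K y₀ (0, z) = y₀ := by
  unfold bet; rw [zero_smul, add_zero, nrm_onQ hy]

theorem pos_line (hy : OnQ B.b K y₀) {p : ℝ × W} (hp : p ∈ Uset B K y₀) :
    0 < K * B.b (y₀ + p.1 • wof B K y₀ p.2) (y₀ + p.1 • wof B K y₀ p.2) + dl K := by
  rw [form_line hy hp.1]; exact hp.2

theorem onQ_bet (hy : OnQ B.b K y₀) {p : ℝ × W} (hp : p ∈ Uset B K y₀) :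
    OnQ B.b K (bet B K y₀ p) := onQ_nrm (pos_line hy hp)

theorem continuousAt_bet (hy : OnQ B.b K y₀) {p : ℝ × W} (hp : p ∈ Uset B K y₀) :
    ContinuousAt (bet B K y₀) p := by
  have h1 : ContinuousAt (fun p : ℝ × W => y₀ + p.1 • wof B K y₀ p.2) p := by
    have h3 : ContinuousAt (fun p : ℝ × W => wof B K y₀ p.2) p :=
      ContinuousAt.comp (g := wof B K y₀) (f := Prod.snd) (continuousAt_wof hp.1.2)
        continuousAt_snd
    exact continuousAt_const.add (continuousAt_fst.smul h3)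
  exact ContinuousAt.comp (g := nrm B.b K) (continuousAt_nrm (pos_line hy hp)) h1

end lemmas

namespace GX

variable {M : Type*} [TopologicalSpace M] {B : Form W} {K : ℝ} {G : GX M B K}
  {φ₀ : M → W} {ψ₀ : W → M} {x₀ : M} {gam : W → ℝ → M}

/-- the lifted family. -/
noncomputable def gg (B : Form W) (K : ℝ) (y₀ : W) (gam : W → ℝ → M) (p : ℝ × W) : M :=
  gam (wof B K y₀ p.2) (sfun (om B K y₀ p.2) p.1)

/-- The family of geodesics with given initial velocities. -/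
def IsFam (G : GX M B K) (φ₀ : M → W) (x₀ : M) (gam : W → ℝ → M) : Prop :=
  ∀ w, Tan B.b K (φ₀ x₀) w → (∀ t, G.Geo (fun _ => 0) (gam w) t) ∧ gam w 0 = x₀ ∧
    deriv (φ₀ ∘ gam w) 0 = w

theorem exists_fam [FiniteDimensional ℝ W] (h0 : G.Complete (fun _ => 0))
    (h : G.chart x₀ φ₀ ψ₀) : ∃ gam : W → ℝ → M, G.IsFam φ₀ x₀ gam := by
  classical
  choose f hf using fun (w : W) (hw : Tan B.b K (φ₀ x₀) w) => exists_geo_of_complete h0 h hw
  refine ⟨fun w => if hw : Tan B.b K (φ₀ x₀) w then f w hw else fun _ => x₀, fun w hw => ?_⟩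
  simp only [dif_pos hw]
  exact hf w hw

theorem fam_energy (h : G.chart x₀ φ₀ ψ₀) (hg : G.IsFam φ₀ x₀ gam) {z : W}
    (hz : z ∈ Oset B K (φ₀ x₀)) (t : ℝ) :
    K * G.energy (fun _ => 0) (gam (wof B K (φ₀ x₀) z)) t = om B K (φ₀ x₀) z := by
  obtain ⟨h1, h2, h3⟩ := hg _ (tan_wof (G.onQ h) hz)
  rw [energy_const smooth_zero isOpen_univ ordConnected_univ (fun r _ => h1 r) t (mem_univ _) 0
    (mem_univ _)]
  have h4 : G.chart (gam (wof B K (φ₀ x₀) z) 0) φ₀ ψ₀ := by rwa [h2]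
  rw [energy_eq smooth_zero (h1 0) h4, h3]
  simp [om]

theorem continuousAt_gg_left (h : G.chart x₀ φ₀ ψ₀) (hg : G.IsFam φ₀ x₀ gam) {l : ℝ} {z : W}
    (hp : (l, z) ∈ Uset B K (φ₀ x₀)) :
    ContinuousAt (fun l => gg B K (φ₀ x₀) gam (l, z)) l := by
  obtain ⟨h1, h2, h3⟩ := hg _ (tan_wof (G.onQ h) hp.1)
  unfold gg
  exact ContinuousAt.comp (g := gam (wof B K (φ₀ x₀) z)) (f := sfun (om B K (φ₀ x₀) z))
    (h1 _).1 (hasDerivAt_sfun hp.2).continuousAt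

theorem zet_iff (h : G.chart x₀ φ₀ ψ₀) {φ : M → W} {l : ℝ} {z : W}
    (hp : (l, z) ∈ Uset B K (φ₀ x₀)) :
    φ (gg B K (φ₀ x₀) gam (l, z)) = bet B K (φ₀ x₀) (l, z) ↔
      zet φ (gam (wof B K (φ₀ x₀) z)) (om B K (φ₀ x₀) z) l = φ₀ x₀ + l • wof B K (φ₀ x₀) z := by
  unfold bet gg zet nrm
  rw [nf_line (G.onQ h) hp.1]
  have hq : Real.sqrt (1 + om B K (φ₀ x₀) z * l ^ 2) ≠ 0 := (Real.sqrt_pos.2 hp.2).ne'
  constructor
  · intro e
    simp only at e
    rw [e, smul_smul, mul_inv_cancel₀ hq, one_smul]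
  · intro e
    simp only
    rw [← e, smul_smul, inv_mul_cancel₀ hq, one_smul]

/-- Line lemma. -/
theorem line (h : G.chart x₀ φ₀ ψ₀) (hg : G.IsFam φ₀ x₀ gam) {φ : M → W} {ψ : W → M} {z : W}
    {I : Set ℝ} (hI : IsOpen I) (hI' : I.OrdConnected)
    (hU : ∀ l ∈ I, (l, z) ∈ Uset B K (φ₀ x₀))
    (hch : ∀ l ∈ I, G.chart (gg B K (φ₀ x₀) gam (l, z)) φ ψ) {l₀ : ℝ} (hl₀ : l₀ ∈ I)
    (hev : ∀ᶠ l in 𝓝 l₀, φ (gg B K (φ₀ x₀) gam (l, z)) = bet B K (φ₀ x₀) (l, z)) :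
    ∀ l ∈ I, φ (gg B K (φ₀ x₀) gam (l, z)) = bet B K (φ₀ x₀) (l, z) := by
  have hz : z ∈ Oset B K (φ₀ x₀) := (hU l₀ hl₀).1
  obtain ⟨h1, h2, h3⟩ := hg _ (tan_wof (G.onQ h) hz)
  have hω := fun t => fam_energy h hg hz t
  have haff := zet_affine h1 hω hI hI' (fun l hl => (hU l hl).2) hch hl₀
  have hev' : zet φ (gam (wof B K (φ₀ x₀) z)) (om B K (φ₀ x₀) z) =ᶠ[𝓝 l₀]
      fun l => φ₀ x₀ + l • wof B K (φ₀ x₀) z := by
    filter_upwards [hev, hI.mem_nhds hl₀] with l hl hl' using (zet_iff h (hU l hl')).1 hl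
  have e1 : zet φ (gam (wof B K (φ₀ x₀) z)) (om B K (φ₀ x₀) z) l₀ =
      φ₀ x₀ + l₀ • wof B K (φ₀ x₀) z := hev'.self_of_nhds
  have e2 : zet' φ (gam (wof B K (φ₀ x₀) z)) (om B K (φ₀ x₀) z) l₀ = wof B K (φ₀ x₀) z := by
    have d1 := (hasDerivAt_zet h1 hω (hU l₀ hl₀).2 (hch l₀ hl₀)).1
    have d2 : HasDerivAt (fun l : ℝ => φ₀ x₀ + l • wof B K (φ₀ x₀) z) (wof B K (φ₀ x₀) z) l₀ := by
      have := ((hasDerivAt_id l₀).smul_const (wof B K (φ₀ x₀) z)).const_add (φ₀ x₀)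
      simpa using this
    exact d1.unique (d2.congr_of_eventuallyEq hev')
  intro l hl
  rw [zet_iff h (hU l hl), haff l hl, e1, e2, sub_smul]
  abel

/-- Propagation lemma. -/
theorem propagate [T2Space M] (h : G.chart x₀ φ₀ ψ₀) (hg : G.IsFam φ₀ x₀ gam) {φ : M → W}
    {ψ : W → M} {z : W} {I : Set ℝ} (hI : IsOpen I) (hI' : I.OrdConnected)
    (hU : ∀ l ∈ I, (l, z) ∈ Uset B K (φ₀ x₀))
    (hch : ∀ l ∈ I, G.chart (ψ (bet B K (φ₀ x₀) (l, z))) φ ψ ∧
      φ (ψ (bet B K (φ₀ x₀) (l, z))) = bet B K (φ₀ x₀) (l, z)) {l₀ : ℝ} (hl₀ : l₀ ∈ I)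
    (hev : ∀ᶠ l in 𝓝 l₀, gg B K (φ₀ x₀) gam (l, z) = ψ (bet B K (φ₀ x₀) (l, z))) :
    ∀ l ∈ I, gg B K (φ₀ x₀) gam (l, z) = ψ (bet B K (φ₀ x₀) (l, z)) := by
  set A : Set ℝ := {l | ∀ᶠ l' in 𝓝 l, gg B K (φ₀ x₀) gam (l', z) =
    ψ (bet B K (φ₀ x₀) (l', z))} with hA
  have hAo : IsOpen A := by
    rw [isOpen_iff_mem_nhds]
    intro r hr
    exact (eventually_eventually_nhds.2 hr)
  have hsub : closure A ∩ I ⊆ A := by
    rintro l ⟨hlA, hl⟩
    have c1 : ContinuousAt (fun l => gg B K (φ₀ x₀) gam (l, z)) l :=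
      continuousAt_gg_left h hg (hU l hl)
    have cb : ContinuousAt (fun l => bet B K (φ₀ x₀) (l, z)) l := by
      have h1 := continuousAt_bet (G.onQ h) (hU l hl)
      exact ContinuousAt.comp (g := bet B K (φ₀ x₀)) (f := fun l : ℝ => (l, z)) h1
        (by fun_prop)
    have c2 : ContinuousAt (fun l => ψ (bet B K (φ₀ x₀) (l, z))) l := by
      have h1 := G.cont_inv (hch l hl).1
      rw [(hch l hl).2] at h1
      exact ContinuousAt.comp (g := ψ) (f := fun l => bet B K (φ₀ x₀) (l, z)) h1 cb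
    have hfr : ∃ᶠ l' in 𝓝 l, l' ∈ A := mem_closure_iff_frequently.1 hlA
    have heq : gg B K (φ₀ x₀) gam (l, z) = ψ (bet B K (φ₀ x₀) (l, z)) :=
      tendsto_nhds_unique_of_frequently_eq c1 c2 (hfr.mono fun x hx => hx.self_of_nhds)
    have hc0 : G.chart (gg B K (φ₀ x₀) gam (l, z)) φ ψ := by rw [heq]; exact (hch l hl).1
    have ev1 : ∀ᶠ l' in 𝓝 l, G.chart (gg B K (φ₀ x₀) gam (l', z)) φ ψ ∧ l' ∈ I :=
      (c1.eventually (G.nhds hc0)).and (hI.mem_nhds hl)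
    obtain ⟨η, hη, hball⟩ := Metric.eventually_nhds_iff_ball.1 ev1
    obtain ⟨l₁, hl₁A, hl₁b⟩ : ∃ l₁, l₁ ∈ A ∧ l₁ ∈ ball l η :=
      (hfr.and_eventually (ball_mem_nhds l hη)).exists
    have hIη : IsOpen (ball l η) := isOpen_ball
    have hIη' : (ball l η).OrdConnected := by rw [Real.ball_eq_Ioo]; exact ordConnected_Ioo
    have key := line h hg (φ := φ) (ψ := ψ) hIη hIη' (fun l' hl' => hU l' (hball l' hl').2)
      (fun l' hl' => (hball l' hl').1) hl₁b (by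
        filter_upwards [hl₁A, hIη.mem_nhds hl₁b] with l' e1 e2
        rw [e1]
        exact (hch l' (hball l' e2).2).2)
    show ∀ᶠ l' in 𝓝 l, gg B K (φ₀ x₀) gam (l', z) = ψ (bet B K (φ₀ x₀) (l', z))
    filter_upwards [ball_mem_nhds l hη] with l' hl'
    rw [← key l' hl', G.left_inv (hball l' hl').1]
  have := hI'.isPreconnected.subset_of_closure_inter_subset hAo ⟨l₀, hl₀, hev⟩ hsub
  intro l hl
  exact (this hl).self_of_nhds

end GX

end Pool.H1.Lor
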