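import Pool.Agent.H1.Lor.Ext1

/-!
# The developing map on a half space
-/

namespace Pool.H1.Lor

open Filter Topology Set Metric

variable {W : Type*} [NormedAddCommGroup W] [NormedSpace ℝ W]

namespace GX

variable {M : Type*} [TopologicalSpace M] {B : Form W} {K : ℝ} {G : GX M B K}
  {φ₀ : M → W} {ψ₀ : W → M} {x₀ : M} {gam : W → ℝ → M}

/-- The family of geodesics is given near `p` by a chart. -/
def PP (G : GX M B K) (y₀ : W) (gam : W → ℝ → M) (p : ℝ × W) : Prop :=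
  ∃ φ ψ, G.chart (gg B K y₀ gam p) φ ψ ∧ φ (gg B K y₀ gam p) = bet B K y₀ p ∧
    ∀ᶠ q in 𝓝 p, gg B K y₀ gam q = ψ (bet B K y₀ q)

theorem gg_zero (h : G.chart x₀ φ₀ ψ₀) (hg : G.IsFam φ₀ x₀ gam) {z : W}
    (hz : z ∈ Oset B K (φ₀ x₀)) : gg B K (φ₀ x₀) gam (0, z) = x₀ := by
  unfold gg
  simp only [sfun_zero]
  exact (hg _ (tan_wof (G.onQ h) hz)).2.1

theorem zero_mem_Uset {y₀ z : W} (hz : z ∈ Oset B K y₀) : ((0 : ℝ), z) ∈ Uset B K y₀ :=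
  ⟨hz, zero_mem_Jset _⟩

/-- initial germ -/
theorem init_germ (h : G.chart x₀ φ₀ ψ₀) (hg : G.IsFam φ₀ x₀ gam) {z : W}
    (hz : z ∈ Oset B K (φ₀ x₀)) :
    ∀ᶠ l : ℝ in 𝓝 0, gg B K (φ₀ x₀) gam (l, z) = ψ₀ (bet B K (φ₀ x₀) (l, z)) := by
  have hU := zero_mem_Uset hz
  have c1 := continuousAt_gg_left h hg hU
  have hc0 : G.chart (gg B K (φ₀ x₀) gam (0, z)) φ₀ ψ₀ := by rwa [gg_zero h hg hz]
  have ev1 : ∀ᶠ l in 𝓝 (0:ℝ), G.chart (gg B K (φ₀ x₀) gam (l, z)) φ₀ ψ₀ ∧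
      l ∈ Jset (om B K (φ₀ x₀) z) :=
    (c1.eventually (G.nhds hc0)).and ((isOpen_Jset _).mem_nhds (zero_mem_Jset _))
  obtain ⟨η, hη, hball⟩ := Metric.eventually_nhds_iff_ball.1 ev1
  obtain ⟨h1, h2, h3⟩ := hg _ (tan_wof (G.onQ h) hz)
  have hω := fun t => fam_energy h hg hz t
  have hIη' : (ball (0:ℝ) η).OrdConnected := by rw [Real.ball_eq_Ioo]; exact ordConnected_Ioo
  have haff := zet_affine h1 hω isOpen_ball hIη' (fun l hl => (hball l hl).2)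
    (fun l hl => (hball l hl).1) (mem_ball_self hη)
  have z0 : zet φ₀ (gam (wof B K (φ₀ x₀) z)) (om B K (φ₀ x₀) z) 0 = φ₀ x₀ := by
    unfold zet; simp [sfun_zero, h2]
  have z1 : zet' φ₀ (gam (wof B K (φ₀ x₀) z)) (om B K (φ₀ x₀) z) 0 = wof B K (φ₀ x₀) z := by
    unfold zet'; simp [sfun_zero, h3]
  filter_upwards [ball_mem_nhds (0:ℝ) hη] with l hl
  have e := haff l hl
  rw [z0, z1, sub_zero] at e
  have e2 := (zet_iff h (φ := φ₀) (gam := gam) (l := l) (z := z) ⟨hz, (hball l hl).2⟩).2 e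
  rw [← e2, G.left_inv (hball l hl).1]

/-- Openness. -/
theorem PP.eventually (h : G.chart x₀ φ₀ ψ₀) {p : ℝ × W}
    (hp : p ∈ Uset B K (φ₀ x₀)) (hP : G.PP (φ₀ x₀) gam p) :
    ∀ᶠ q in 𝓝 p, G.PP (φ₀ x₀) gam q := by
  obtain ⟨φ, ψ, h1, h2, h3⟩ := hP
  have cb : Tendsto (bet B K (φ₀ x₀)) (𝓝 p) (𝓝 (φ (gg B K (φ₀ x₀) gam p))) := by
    rw [h2]; exact continuousAt_bet (G.onQ h) hp
  filter_upwards [h3.eventually_nhds, cb.eventually (G.eventually_good h1),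
    isOpen_Uset.mem_nhds hp] with q hq1 hq2 hq3
  have e := hq1.self_of_nhds
  refine ⟨φ, ψ, by rw [e]; exact hq2.1, ?_, hq1⟩
  rw [e, hq2.2.1, nrm_onQ (onQ_bet (G.onQ h) hq3)]

/-- Closedness. -/
theorem PP.closed [T2Space M] (h : G.chart x₀ φ₀ ψ₀) (hg : G.IsFam φ₀ x₀ gam) {z : W} {l : ℝ}
    (hp : (l, z) ∈ Uset B K (φ₀ x₀)) (hfr : ∃ᶠ l' in 𝓝 l, G.PP (φ₀ x₀) gam (l', z)) :
    G.PP (φ₀ x₀) gam (l, z) := by
  have hz : z ∈ Oset B K (φ₀ x₀) := hp.1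
  obtain ⟨φ₁, ψ₁, hc1⟩ := G.exists_chart (gg B K (φ₀ x₀) gam (l, z))
  have c1 := continuousAt_gg_left h hg hp
  have ev1 : ∀ᶠ l' in 𝓝 l, G.chart (gg B K (φ₀ x₀) gam (l', z)) φ₁ ψ₁ ∧
      l' ∈ Jset (om B K (φ₀ x₀) z) :=
    (c1.eventually (G.nhds hc1)).and ((isOpen_Jset _).mem_nhds hp.2)
  obtain ⟨η, hη, hball⟩ := Metric.eventually_nhds_iff_ball.1 ev1
  obtain ⟨l₁, hPl₁, hl₁b⟩ : ∃ l₁, G.PP (φ₀ x₀) gam (l₁, z) ∧ l₁ ∈ ball l (η / 2) :=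
    (hfr.and_eventually (ball_mem_nhds l (by positivity))).exists
  have hl₁b' : l₁ ∈ ball l η := ball_subset_ball (by linarith) hl₁b
  obtain ⟨φ, ψ, hφ1, hφ2, hφ3⟩ := hPl₁
  have hl₁U : (l₁, z) ∈ Uset B K (φ₀ x₀) := ⟨hz, (hball l₁ hl₁b').2⟩
  obtain ⟨A, hA⟩ := G.rigid (hball l₁ hl₁b').1 hφ1
  set φ₂ : M → W := A.act ∘ φ₁ with hφ₂
  set ψ₂ : W → M := ψ₁ ∘ A.inv with hψ₂
  have hch2 : ∀ l' ∈ ball l η, G.chart (gg B K (φ₀ x₀) gam (l', z)) φ₂ ψ₂ := fun l' hl' =>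
    G.comp (hball l' hl').1 A
  have hψψ₂ : ∀ᶠ y in 𝓝 (φ (gg B K (φ₀ x₀) gam (l₁, z))), ψ y = ψ₂ y :=
    G.inv_trans (hball l₁ hl₁b').1 hφ1 hA
  have hφφ₂ : φ (gg B K (φ₀ x₀) gam (l₁, z)) = φ₂ (gg B K (φ₀ x₀) gam (l₁, z)) :=
    hA.self_of_nhds
  -- near `(l₁, z)` the family is given by `ψ₂`
  have cb : Tendsto (bet B K (φ₀ x₀)) (𝓝 (l₁, z)) (𝓝 (φ (gg B K (φ₀ x₀) gam (l₁, z)))) := by
    rw [hφ2]; exact continuousAt_bet (G.onQ h) hl₁U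
  have hnear : ∀ᶠ q in 𝓝 (l₁, z), gg B K (φ₀ x₀) gam q = ψ₂ (bet B K (φ₀ x₀) q) := by
    filter_upwards [hφ3, cb.eventually hψψ₂] with q hq1 hq2
    rw [hq1, hq2]
  have tl : ∀ z' : W, Tendsto (fun l' : ℝ => (l', z')) (𝓝 l₁) (𝓝 (l₁, z')) := fun z' => by
    have : Continuous (fun l' : ℝ => (l', z')) := by fun_prop
    exact this.tendsto l₁
  have tz : Tendsto (fun z' : W => (l₁, z')) (𝓝 z) (𝓝 (l₁, z)) := by
    have : Continuous (fun z' : W => (l₁, z')) := by fun_prop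
    exact this.tendsto z
  have hinit : ∀ᶠ z' in 𝓝 z, ∀ᶠ l' in 𝓝 l₁, gg B K (φ₀ x₀) gam (l', z') =
      ψ₂ (bet B K (φ₀ x₀) (l', z')) := by
    filter_upwards [tz.eventually hnear.eventually_nhds] with z' hz'
    exact (tl z').eventually hz'
  -- the line
  have hgood1 : ∀ᶠ q in 𝓝 (l₁, z), φ₂ (ψ₂ (bet B K (φ₀ x₀) q)) = bet B K (φ₀ x₀) q := by
    have cb' : Tendsto (bet B K (φ₀ x₀)) (𝓝 (l₁, z))
        (𝓝 (φ₂ (gg B K (φ₀ x₀) gam (l₁, z)))) := by rw [← hφφ₂]; exact cb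
    filter_upwards [cb'.eventually (G.eventually_good (hch2 l₁ hl₁b')),
      isOpen_Uset.mem_nhds hl₁U] with q hq1 hq2
    rw [hq1.2.1, nrm_onQ (onQ_bet (G.onQ h) hq2)]
  have hline := line h hg (φ := φ₂) (ψ := ψ₂) (I := ball l η) (z := z) isOpen_ball
    (by rw [Real.ball_eq_Ioo]; exact ordConnected_Ioo)
    (fun l' hl' => ⟨hz, (hball l' hl').2⟩) hch2 hl₁b' (by
      filter_upwards [(tl z).eventually hnear, (tl z).eventually hgood1] with l' e1 e2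
      rw [e1, e2])
  -- the good set
  set 𝒢 : Set (ℝ × W) := {q | q ∈ Uset B K (φ₀ x₀) ∧ G.chart (ψ₂ (bet B K (φ₀ x₀) q)) φ₂ ψ₂ ∧
    φ₂ (ψ₂ (bet B K (φ₀ x₀) q)) = bet B K (φ₀ x₀) q} with h𝒢
  have hG𝒢 : ∀ l' ∈ ball l η, 𝒢 ∈ 𝓝 (l', z) := by
    intro l' hl'
    have hU' : (l', z) ∈ Uset B K (φ₀ x₀) := ⟨hz, (hball l' hl').2⟩
    have cb' : Tendsto (bet B K (φ₀ x₀)) (𝓝 (l', z))
        (𝓝 (φ₂ (gg B K (φ₀ x₀) gam (l', z)))) := by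
      rw [hline l' hl']; exact continuousAt_bet (G.onQ h) hU'
    filter_upwards [cb'.eventually (G.eventually_good (hch2 l' hl')),
      isOpen_Uset.mem_nhds hU'] with q hq1 hq2
    exact ⟨hq2, hq1.1, by rw [hq1.2.1, nrm_onQ (onQ_bet (G.onQ h) hq2)]⟩
  have htube : ∃ V ∈ 𝓝 z, ∀ l' ∈ closedBall l (η / 2), ∀ z' ∈ V, (l', z') ∈ 𝒢 := by
    have hcomp : IsCompact (closedBall l (η / 2)) := isCompact_closedBall l (η / 2)
    have hsub : closedBall l (η / 2) ×ˢ ({z} : Set W) ⊆ interior 𝒢 := by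
      rintro ⟨l', z'⟩ ⟨h1, h2⟩
      rw [mem_singleton_iff] at h2
      subst h2
      exact mem_interior_iff_mem_nhds.2 (hG𝒢 l' (closedBall_subset_ball (by linarith) h1))
    obtain ⟨u, v, hu, hv, hu1, hv1, huv⟩ :=
      generalized_tube_lemma hcomp isCompact_singleton isOpen_interior hsub
    refine ⟨v, hv.mem_nhds (hv1 rfl), fun l' hl' z' hz' => ?_⟩
    exact interior_subset (huv ⟨hu1 hl', hz'⟩)
  obtain ⟨V, hV, hV𝒢⟩ := htube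
  have hbl : ball l (η / 2) ⊆ closedBall l (η / 2) := ball_subset_closedBall
  refine ⟨φ₂, ψ₂, hch2 l (mem_ball_self hη), hline l (mem_ball_self hη), ?_⟩
  have hprod : ball l (η / 2) ×ˢ (V ∩ {z' | ∀ᶠ l' in 𝓝 l₁, gg B K (φ₀ x₀) gam (l', z') =
      ψ₂ (bet B K (φ₀ x₀) (l', z'))}) ∈ 𝓝 (l, z) :=
    prod_mem_nhds (ball_mem_nhds l (by positivity)) (inter_mem hV hinit)
  filter_upwards [hprod] with q hq
  obtain ⟨l', z'⟩ := q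
  obtain ⟨hl', hz'V, hz'i⟩ := hq
  exact propagate h hg (φ := φ₂) (ψ := ψ₂) (z := z') (I := ball l (η / 2)) isOpen_ball
    (by rw [Real.ball_eq_Ioo]; exact ordConnected_Ioo)
    (fun r hr => (hV𝒢 r (hbl hr) z' hz'V).1)
    (fun r hr => (hV𝒢 r (hbl hr) z' hz'V).2) hl₁b hz'i l' hl'

/-- Base point. -/
theorem PP.base [T2Space M] (h : G.chart x₀ φ₀ ψ₀) (hg : G.IsFam φ₀ x₀ gam) {z : W}
    (hz : z ∈ Oset B K (φ₀ x₀)) : G.PP (φ₀ x₀) gam (0, z) := by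
  have hU := zero_mem_Uset hz
  have hc0 : G.chart (gg B K (φ₀ x₀) gam (0, z)) φ₀ ψ₀ := by rwa [gg_zero h hg hz]
  have hb0 : bet B K (φ₀ x₀) (0, z) = φ₀ x₀ := bet_zero (G.onQ h) z
  refine ⟨φ₀, ψ₀, hc0, by rw [gg_zero h hg hz, hb0], ?_⟩
  set 𝒢 : Set (ℝ × W) := {q | q ∈ Uset B K (φ₀ x₀) ∧ G.chart (ψ₀ (bet B K (φ₀ x₀) q)) φ₀ ψ₀ ∧
    φ₀ (ψ₀ (bet B K (φ₀ x₀) q)) = bet B K (φ₀ x₀) q} with h𝒢
  have hG𝒢 : 𝒢 ∈ 𝓝 ((0:ℝ), z) := by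
    have cb' : Tendsto (bet B K (φ₀ x₀)) (𝓝 (0, z)) (𝓝 (φ₀ x₀)) := by
      have := continuousAt_bet (G.onQ h) hU
      unfold ContinuousAt at this
      rwa [hb0] at this
    filter_upwards [cb'.eventually (G.eventually_good h), isOpen_Uset.mem_nhds hU] with q hq1 hq2
    exact ⟨hq2, hq1.1, by rw [hq1.2.1, nrm_onQ (onQ_bet (G.onQ h) hq2)]⟩
  obtain ⟨u, hu, v, hv, huv⟩ := mem_nhds_prod_iff.1 hG𝒢
  obtain ⟨η, hη, hηu⟩ := Metric.mem_nhds_iff.1 hu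
  filter_upwards [prod_mem_nhds (ball_mem_nhds (0:ℝ) hη) hv] with q hq
  obtain ⟨l', z'⟩ := q
  obtain ⟨hl', hz'⟩ := hq
  have hmem : ∀ r ∈ ball (0:ℝ) η, (r, z') ∈ 𝒢 := fun r hr => huv ⟨hηu hr, hz'⟩
  exact propagate h hg (φ := φ₀) (ψ := ψ₀) (z := z') (I := ball 0 η) isOpen_ball
    (by rw [Real.ball_eq_Ioo]; exact ordConnected_Ioo)
    (fun r hr => (hmem r hr).1) (fun r hr => (hmem r hr).2) (mem_ball_self hη)
    (init_germ h hg (hmem 0 (mem_ball_self hη)).1.1) l' hl'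

theorem PP.all [T2Space M] (h : G.chart x₀ φ₀ ψ₀) (hg : G.IsFam φ₀ x₀ gam) {p : ℝ × W}
    (hp : p ∈ Uset B K (φ₀ x₀)) : G.PP (φ₀ x₀) gam p := by
  obtain ⟨l, z⟩ := p
  have hz : z ∈ Oset B K (φ₀ x₀) := hp.1
  set A : Set ℝ := {l | l ∈ Jset (om B K (φ₀ x₀) z) ∧ G.PP (φ₀ x₀) gam (l, z)} with hA
  have tl : ∀ l : ℝ, Tendsto (fun l' : ℝ => (l', z)) (𝓝 l) (𝓝 (l, z)) := fun l => by
    have : Continuous (fun l' : ℝ => (l', z)) := by fun_prop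
    exact this.tendsto l
  have hAo : IsOpen A := by
    rw [isOpen_iff_mem_nhds]
    rintro r ⟨hr1, hr2⟩
    filter_upwards [(isOpen_Jset _).mem_nhds hr1,
      (tl r).eventually (PP.eventually h ⟨hz, hr1⟩ hr2)] with r' h1 h2
    exact ⟨h1, h2⟩
  have hcl : closure A ∩ Jset (om B K (φ₀ x₀) z) ⊆ A := by
    rintro r ⟨hr1, hr2⟩
    refine ⟨hr2, PP.closed h hg ⟨hz, hr2⟩ ?_⟩
    exact (mem_closure_iff_frequently.1 hr1).mono fun x hx => hx.2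
  exact ((ordConnected_Jset (om B K (φ₀ x₀) z)).isPreconnected.subset_of_closure_inter_subset hAo
    ⟨0, zero_mem_Jset _, zero_mem_Jset _, PP.base h hg hz⟩ hcl hp.2).2

theorem mem_Oset_self {y₀ : W} (hy : OnQ B.b K y₀) : y₀ ∈ Oset B K y₀ := by
  have h1 : K * B.b y₀ y₀ + dl K = 1 := hy
  refine ⟨by rw [h1]; norm_num, ?_⟩
  unfold aof
  rw [h1]; norm_num

/-- The developing map: an isometric (radially extended) map from a half of the space form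
to `M`, inverse to charts near each point. -/
theorem exists_dev [T2Space M] [FiniteDimensional ℝ W] (h0 : G.Complete (fun _ => 0))
    (h : G.chart x₀ φ₀ ψ₀) :
    ∃ Ψ : W → M, Ψ (φ₀ x₀) = x₀ ∧ ∀ q, OnQ B.b K q → 0 < K * B.b (φ₀ x₀) q + dl K →
      ∃ φ ψ, G.chart (Ψ q) φ ψ ∧ φ (Ψ q) = q ∧ ∀ᶠ z in 𝓝 q, Ψ z = ψ z := by
  obtain ⟨gam, hg⟩ := exists_fam h0 h
  have hy := G.onQ h
  refine ⟨fun z => gg B K (φ₀ x₀) gam (1, z), ?_, ?_⟩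
  · -- the value at the base point
    have hO := mem_Oset_self hy
    have ha : aof B K (φ₀ x₀) (φ₀ x₀) = 1 := hy
    have hw : wof B K (φ₀ x₀) (φ₀ x₀) = 0 := by unfold wof; rw [ha]; simp
    have hom : om B K (φ₀ x₀) (φ₀ x₀) = 0 := by unfold om; rw [hw]; simp
    have hb : ∀ l, bet B K (φ₀ x₀) (l, φ₀ x₀) = φ₀ x₀ := by
      intro l; unfold bet; simp only [hw, smul_zero, add_zero]; exact nrm_onQ hy
    have hU : ∀ l ∈ (univ : Set ℝ), (l, φ₀ x₀) ∈ Uset B K (φ₀ x₀) := by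
      intro l _
      refine ⟨hO, ?_⟩
      show 0 < 1 + om B K (φ₀ x₀) (φ₀ x₀) * l ^ 2
      rw [hom]; norm_num
    have := propagate h hg (φ := φ₀) (ψ := ψ₀) (z := φ₀ x₀) (I := univ) isOpen_univ
      ordConnected_univ hU (fun l _ => by
        rw [hb l, G.left_inv h]; exact ⟨h, rfl⟩) (mem_univ 0) (init_germ h hg hO) 1 (mem_univ 1)
    simp only
    rw [this, hb, G.left_inv h]
  · intro q hq hq0
    have hqO : q ∈ Oset B K (φ₀ x₀) := by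
      refine ⟨?_, hq0⟩
      have h1 : K * B.b q q + dl K = 1 := hq
      rw [h1]; norm_num
    have hqU : ((1:ℝ), q) ∈ Uset B K (φ₀ x₀) := ⟨hqO, one_mem_Jset hy hqO⟩
    obtain ⟨φ, ψ, h1, h2, h3⟩ := PP.all h hg hqU
    have h2' : φ (gg B K (φ₀ x₀) gam (1, q)) = q := by
      rw [h2, bet_one hqO, nrm_onQ hq]
    refine ⟨φ, ψ, h1, h2', ?_⟩
    have tz : Tendsto (fun z' : W => ((1:ℝ), z')) (𝓝 q) (𝓝 (1, q)) := by
      have : Continuous (fun z' : W => ((1:ℝ), z')) := by fun_prop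
      exact this.tendsto q
    have hr := G.right_inv h1
    rw [h2'] at hr
    filter_upwards [tz.eventually h3, isOpen_Oset.mem_nhds hqO, hr] with z hz1 hz2 hz3
    rw [hz1, bet_one hz2, hz3.2]

end GX

end Pool.H1.Lor
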