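import Pool.Agent.H1.Lor.Ext2
import Pool.Agent.H1.Lor.Cont
import Pool.Agent.H1.Lor.ExtCrit

/-!
# Completeness of the conformal metric
-/

namespace Pool.H1.Lor

open Filter Topology Set Metric

variable {W : Type*} [NormedAddCommGroup W] [NormedSpace ℝ W]
  {F : Type*} [NormedAddCommGroup F] [InnerProductSpace ℝ F]

theorem Gh_at_zero (B : Form W) (K : ℝ) (y v : W) (L : W →L[ℝ] F) : Gh B K y v L 0 = 0 := by
  simp [Gh, Bh]

theorem Gh_le (B : Form W) (K : ℝ) (y v : W) (L : W →L[ℝ] F) :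
    ∃ C, 0 ≤ C ∧ ∀ w, Gh B K y v L w ≤ C * ‖w‖ ^ 2 := by
  set τ := tv B v L
  refine ⟨‖B.b‖ + |(|K| - K)| * (‖B.b‖ * ‖y‖) ^ 2 + |2 / (-(B.b τ τ))| * (‖B.b‖ * ‖τ‖) ^ 2,
    by positivity, fun w => ?_⟩
  have hb : ∀ z, |B.b w z| ≤ ‖B.b‖ * ‖w‖ * ‖z‖ := fun z => by
    have := (B.b w).le_opNorm z
    have h2 := B.b.le_opNorm w
    rw [Real.norm_eq_abs] at this
    exact this.trans (by gcongr)
  have h1 : B.b w w ≤ ‖B.b‖ * ‖w‖ ^ 2 :=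
    (le_abs_self _).trans ((hb w).trans (le_of_eq (by ring)))
  have h2 : (|K| - K) * (B.b w y * B.b w y) ≤ |(|K| - K)| * (‖B.b‖ * ‖y‖) ^ 2 * ‖w‖ ^ 2 := by
    refine (le_abs_self _).trans ?_
    rw [abs_mul, abs_mul]
    calc |(|K| - K)| * (|B.b w y| * |B.b w y|)
        ≤ |(|K| - K)| * ((‖B.b‖ * ‖w‖ * ‖y‖) * (‖B.b‖ * ‖w‖ * ‖y‖)) := by
          have := hb y
          gcongr
      _ = |(|K| - K)| * (‖B.b‖ * ‖y‖) ^ 2 * ‖w‖ ^ 2 := by ring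
  have h3 : 2 / (-(B.b τ τ)) * (B.b w τ * B.b w τ) ≤
      |2 / (-(B.b τ τ))| * (‖B.b‖ * ‖τ‖) ^ 2 * ‖w‖ ^ 2 := by
    refine (le_abs_self _).trans ?_
    rw [abs_mul, abs_mul]
    calc |2 / (-(B.b τ τ))| * (|B.b w τ| * |B.b w τ|)
        ≤ |2 / (-(B.b τ τ))| * ((‖B.b‖ * ‖w‖ * ‖τ‖) * (‖B.b‖ * ‖w‖ * ‖τ‖)) := by
          have := hb τ
          gcongr
      _ = |2 / (-(B.b τ τ))| * (‖B.b‖ * ‖τ‖) ^ 2 * ‖w‖ ^ 2 := by ring
  unfold Gh Bh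
  calc B.b w w + (|K| - K) * (B.b w y * B.b w y) + 2 / (-(B.b τ τ)) * (B.b w τ * B.b w τ)
      ≤ ‖B.b‖ * ‖w‖ ^ 2 + |(|K| - K)| * (‖B.b‖ * ‖y‖) ^ 2 * ‖w‖ ^ 2 +
        |2 / (-(B.b τ τ))| * (‖B.b‖ * ‖τ‖) ^ 2 * ‖w‖ ^ 2 := by gcongr
    _ = _ := by ring

/-- A differential inequality. -/
theorem gronwall_simple {g : ℝ → ℝ} {a b C : ℝ}
    (hg : ∀ t ∈ Ioo a b, ∃ D, HasDerivAt g D t ∧ |D| ≤ C * g t) {T t : ℝ} (hT : T ∈ Ioo a b)
    (ht : t ∈ Ioo a b) (hTt : T ≤ t) : g t ≤ g T * Real.exp (C * (t - T)) := by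
  choose! D hD using hg
  have h1 : ∀ s ∈ Ioo a b, HasDerivAt (fun s => g s * Real.exp (-(C * s)))
      (D s * Real.exp (-(C * s)) + g s * (Real.exp (-(C * s)) * (-(C * 1)))) s := by
    intro s hs
    have e1 : HasDerivAt (fun s : ℝ => -(C * s)) (-(C * 1)) s := ((hasDerivAt_id s).const_mul C).neg
    exact (hD s hs).1.mul e1.exp
  have hanti : AntitoneOn (fun s => g s * Real.exp (-(C * s))) (Ioo a b) := by
    refine antitoneOn_of_deriv_nonpos (convex_Ioo a b)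
      (fun s hs => (h1 s hs).continuousAt.continuousWithinAt) ?_ ?_
    · rw [interior_Ioo]
      exact fun s hs => (h1 s hs).differentiableAt.differentiableWithinAt
    · rw [interior_Ioo]
      intro s hs
      rw [(h1 s hs).deriv]
      have h2 := (le_abs_self _).trans (hD s hs).2
      have h3 := Real.exp_pos (-(C * s))
      nlinarith
  have h4 := hanti hT ht hTt
  simp only at h4
  have h5 := Real.exp_pos (C * t)
  have h6 : g t = g t * Real.exp (-(C * t)) * Real.exp (C * t) := by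
    rw [mul_assoc, ← Real.exp_add]; simp
  rw [h6]
  calc g t * Real.exp (-(C * t)) * Real.exp (C * t)
      ≤ g T * Real.exp (-(C * T)) * Real.exp (C * t) := by gcongr
    _ = g T * Real.exp (C * (t - T)) := by
        rw [mul_assoc, ← Real.exp_add]; congr 2; ring

namespace GX

variable {M : Type*} [TopologicalSpace M] {B : Form W} {K : ℝ} {G : GX M B K}
  {σ : M → ℝ} {ξ : M → F} {Ψ : W → M} {y₀ : W} {c : ℝ → M}

/-- Lifts through the developing map. -/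
def Lift (G : GX M B K) (σ : M → ℝ) (Ψ : W → M) (y₀ : W) (c : ℝ → M) (Y : ℝ → W) (t : ℝ) :
    Prop :=
  G.Geo σ c t ∧ (∃ φ ψ, G.chart (c t) φ ψ ∧ Y =ᶠ[𝓝 t] φ ∘ c ∧ ∀ᶠ z in 𝓝 (Y t), Ψ z = ψ z) ∧
    0 < K * B.b y₀ (Y t) + dl K

theorem Lift.continuousAt {Y : ℝ → W} {t : ℝ} (h : G.Lift σ Ψ y₀ c Y t) : ContinuousAt Y t := by
  obtain ⟨h1, ⟨φ, ψ, h2, h3, h4⟩, h5⟩ := h
  have : ContinuousAt (φ ∘ c) t := ContinuousAt.comp (G.cont h2) h1.1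
  exact this.congr h3.symm

theorem Lift.onQ {Y : ℝ → W} {t : ℝ} (h : G.Lift σ Ψ y₀ c Y t) : OnQ B.b K (Y t) := by
  obtain ⟨h1, ⟨φ, ψ, h2, h3, h4⟩, h5⟩ := h
  rw [h3.self_of_nhds]
  exact G.onQ h2

theorem Lift.dev {Y : ℝ → W} {t : ℝ} (h : G.Lift σ Ψ y₀ c Y t) : Ψ (Y t) = c t := by
  obtain ⟨h1, ⟨φ, ψ, h2, h3, h4⟩, h5⟩ := h
  rw [h4.self_of_nhds, h3.self_of_nhds]
  exact G.left_inv h2

/-- Two charts with the same inverse germ agree. -/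
theorem chart_eq_of_inv {x : M} {φ φ' : M → W} {ψ ψ' : W → M} (h : G.chart x φ ψ)
    (h' : G.chart x φ' ψ') (hx : φ x = φ' x) (hψ : ∀ᶠ z in 𝓝 (φ x), ψ z = ψ' z) :
    ∀ᶠ x' in 𝓝 x, φ x' = φ' x' := by
  have hr := G.right_inv h'
  rw [← hx] at hr
  filter_upwards [G.nhds h, (G.cont h).eventually hψ, (G.cont h).eventually hr] with x' h1 h2 h3
  have e1 : ψ' (φ x') = x' := by rw [← h2, G.left_inv h1]
  rw [e1, nrm_onQ (G.onQ h1)] at h3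
  exact h3.1.symm

theorem locP_lift (G : GX M B K) (σ : M → ℝ) (Ψ : W → M) (y₀ : W) (c : ℝ → M) :
    LocP (G.Lift σ Ψ y₀ c) where
  congr := by
    rintro Y Y' t hYY' ⟨h1, ⟨φ, ψ, h2, h3, h4⟩, h5⟩
    have e : Y' t = Y t := hYY'.self_of_nhds
    exact ⟨h1, ⟨φ, ψ, h2, hYY'.trans h3, by rwa [e]⟩, by rwa [e]⟩
  uniq := by
    intro Y Y' s hs hs' hY hY' t₀ ht₀ h0
    set A : Set ℝ := {r | Y =ᶠ[𝓝 r] Y'} with hA
    have hAo : IsOpen A := by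
      rw [isOpen_iff_mem_nhds]
      intro r hr
      exact (eventually_eventually_nhds.2 hr)
    have hcl : closure A ∩ s ⊆ A := by
      rintro r ⟨hrA, hr⟩
      have heq : Y r = Y' r :=
        tendsto_nhds_unique_of_frequently_eq (hY r hr).continuousAt (hY' r hr).continuousAt
          ((mem_closure_iff_frequently.1 hrA).mono fun x hx => hx.self_of_nhds)
      obtain ⟨h1, ⟨φ, ψ, h2, h3, h4⟩, h5⟩ := hY r hr
      obtain ⟨_, ⟨φ', ψ', h2', h3', h4'⟩, h5'⟩ := hY' r hr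
      have e1 : Y r = φ (c r) := h3.self_of_nhds
      have e2 : Y' r = φ' (c r) := h3'.self_of_nhds
      have hφ := chart_eq_of_inv h2 h2' (by rw [← e1, ← e2, heq]) (by
        rw [← e1]
        rw [← heq] at h4'
        filter_upwards [h4, h4'] with z hz hz'
        rw [← hz, hz'])
      show ∀ᶠ r' in 𝓝 r, Y r' = Y' r'
      filter_upwards [h3, h3', h1.1.eventually hφ] with r' q1 q2 q3
      rw [q1, q2]
      exact q3
    have := hs'.isPreconnected.subset_of_closure_inter_subset hAo ⟨t₀, ht₀, h0⟩ hcl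
    intro r hr
    exact (this hr).self_of_nhds

/-- The quadratic form along a lift. -/
noncomputable def gU (B : Form W) (K : ℝ) (σ : M → ℝ) (ξ : M → F) (Ψ : W → M)
    (c : ℝ → M) (Y : ℝ → W) (s : ℝ) (w : W) : ℝ :=
  Gh B K (Y s) (Real.exp (2 * σ (c s)) • deriv Y s) (fderiv ℝ (ξ ∘ Ψ) (Y s)) w

omit [TopologicalSpace M] in
theorem gU_eq {Y : ℝ → W} {t : ℝ} {φ : M → W} {ψ : W → M} (hY : ContinuousAt Y t)
    (h3 : Y =ᶠ[𝓝 t] φ ∘ c) (h4 : ∀ᶠ z in 𝓝 (Y t), Ψ z = ψ z) (w : W) :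
    ∀ᶠ s in 𝓝 t, gU B K σ ξ Ψ c Y s w = gq B K σ ξ φ ψ c s w := by
  filter_upwards [h3.eventually_nhds, hY.eventually h4.eventually_nhds] with s h5 h6
  have h5' : Y =ᶠ[𝓝 s] φ ∘ c := h5
  have e1 : Y s = φ (c s) := h5'.self_of_nhds
  have e2 : deriv Y s = deriv (φ ∘ c) s := h5'.deriv_eq
  have e3 : fderiv ℝ (ξ ∘ Ψ) (Y s) = fderiv ℝ (ξ ∘ ψ) (Y s) := by
    apply Filter.EventuallyEq.fderiv_eq
    filter_upwards [h6] with z hz
    simp [hz]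
  unfold gU gq
  rw [e3, e2, e1]

/-- Conclusions of the local estimate along a lift. -/
theorem lift_est {R C E₀ : ℝ}
    (hloc : ∀ (c : ℝ → M) (t : ℝ), (∀ᶠ s in 𝓝 t, G.Geo σ c s) →
      |G.energy σ c t| ≤ E₀ → R ≤ ‖deriv (ξ ∘ c) t‖ → ∀ φ ψ, G.chart (c t) φ ψ → ∀ w : W,
      (∃ D, HasDerivAt (fun s => gq B K σ ξ φ ψ c s w) D t ∧
        |D| ≤ C * gq B K σ ξ φ ψ c t w) ∧
      (w ≠ 0 → 0 < gq B K σ ξ φ ψ c t w) ∧
      (B.b w (deriv (φ ∘ c) t)) ^ 2 ≤ C * gq B K σ ξ φ ψ c t w)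
    {Y : ℝ → W} {t : ℝ} (hY : ∀ᶠ s in 𝓝 t, G.Lift σ Ψ y₀ c Y s)
    (hE : |G.energy σ c t| ≤ E₀) (hR : R ≤ ‖deriv (ξ ∘ c) t‖) (w : W) :
    (∃ D, HasDerivAt (fun s => gU B K σ ξ Ψ c Y s w) D t ∧
        |D| ≤ C * gU B K σ ξ Ψ c Y t w) ∧ 0 ≤ gU B K σ ξ Ψ c Y t w ∧
      (B.b w (deriv Y t)) ^ 2 ≤ C * gU B K σ ξ Ψ c Y t w := by
  have hYt := hY.self_of_nhds
  have hcont := hYt.continuousAt
  obtain ⟨h1, ⟨φ, ψ, h2, h3, h4⟩, h5⟩ := hYt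
  have hev := gU_eq (σ := σ) (ξ := ξ) (B := B) (K := K) hcont h3 h4 w
  obtain ⟨⟨D, hD1, hD2⟩, hpos, hb⟩ := hloc c t (hY.mono fun s hs => hs.1) hE hR φ ψ h2 w
  have e0 : gU B K σ ξ Ψ c Y t w = gq B K σ ξ φ ψ c t w := hev.self_of_nhds
  have ed : deriv Y t = deriv (φ ∘ c) t := h3.deriv_eq
  refine ⟨⟨D, hD1.congr_of_eventuallyEq hev, by rw [e0]; exact hD2⟩, ?_, ?_⟩
  · by_cases hw : w = 0
    · rw [hw]; unfold gU; rw [Gh_at_zero]
    · rw [e0]; exact (hpos hw).le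
  · rw [e0, ed]; exact hb

theorem lift_hasDerivAt (hσ : G.Smooth σ) {Y : ℝ → W} {t : ℝ} (h : G.Lift σ Ψ y₀ c Y t) :
    HasDerivAt Y (deriv Y t) t := by
  obtain ⟨h1, ⟨φ, ψ, h2, h3, h4⟩, h5⟩ := h
  have := (h1.solAt hσ h2).1.self_of_nhds
  exact (this.congr_of_eventuallyEq h3).differentiableAt.hasDerivAt

theorem gU_self (hσ : G.Smooth σ) (hξ : G.Smooth ξ) {Y : ℝ → W} {t : ℝ}
    (h : G.Lift σ Ψ y₀ c Y t) : |K| * gU B K σ ξ Ψ c Y t (Y t) ≤ 1 := by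
  have hcont := h.continuousAt
  obtain ⟨h1, ⟨φ, ψ, h2, h3, h4⟩, h5⟩ := h
  have hev := gU_eq (σ := σ) (ξ := ξ) (B := B) (K := K) hcont h3 h4 (Y t)
  rw [hev.self_of_nhds, h3.self_of_nhds]
  exact gq_self hσ hξ h1 h2

/-- The limit lemma. -/
theorem lift_limit [FiniteDimensional ℝ W] (hσ : G.Smooth σ) (hξ : G.Smooth ξ) {R C E₀ : ℝ}
    (hC : 0 < C)
    (hloc : ∀ (c : ℝ → M) (t : ℝ), (∀ᶠ s in 𝓝 t, G.Geo σ c s) →
      |G.energy σ c t| ≤ E₀ → R ≤ ‖deriv (ξ ∘ c) t‖ → ∀ φ ψ, G.chart (c t) φ ψ → ∀ w : W,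
      (∃ D, HasDerivAt (fun s => gq B K σ ξ φ ψ c s w) D t ∧
        |D| ≤ C * gq B K σ ξ φ ψ c t w) ∧
      (w ≠ 0 → 0 < gq B K σ ξ φ ψ c t w) ∧
      (B.b w (deriv (φ ∘ c) t)) ^ 2 ≤ C * gq B K σ ξ φ ψ c t w)
    {Y : ℝ → W} {a b T : ℝ} (hT : T ∈ Ioo a b) (hY : ∀ t ∈ Ioo a b, G.Lift σ Ψ y₀ c Y t)
    (hE : ∀ t ∈ Ioo a b, |G.energy σ c t| ≤ E₀) (hR : ∀ t ∈ Ioo a b, R ≤ ‖deriv (ξ ∘ c) t‖)
    (hYT : Y T = y₀) (hab1 : b - a ≤ 1)
    (hab2 : Real.sqrt (|K| * (C * Real.exp C)) * (b - a) ≤ 1 / 2) :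
    ∃ q, Tendsto Y (𝓝[<] b) (𝓝 q) ∧ OnQ B.b K q ∧ 0 < K * B.b y₀ q + dl K ∧
      ∃ C', ∀ t ∈ Ioo T b, ‖deriv Y t‖ ≤ C' := by
  have hest := fun t (ht : t ∈ Ioo a b) (w : W) => lift_est (y₀ := y₀) hloc
    (by filter_upwards [Ioo_mem_nhds ht.1 ht.2] with s hs using hY s hs) (hE t ht) (hR t ht) w
  have hder := fun t (ht : t ∈ Ioo a b) => lift_hasDerivAt hσ (hY t ht)
  -- Gronwall
  have hgr : ∀ t ∈ Ioo a b, T ≤ t → ∀ w, (B.b w (deriv Y t)) ^ 2 ≤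
      C * Real.exp C * gU B K σ ξ Ψ c Y T w := by
    intro t ht hTt w
    have h1 := gronwall_simple (g := fun s => gU B K σ ξ Ψ c Y s w) (C := C)
      (fun s hs => (hest s hs w).1) hT ht hTt
    have h2 := (hest t ht w).2.2
    have h3 := (hest T hT w).2.1
    have h4 : Real.exp (C * (t - T)) ≤ Real.exp C := by
      apply Real.exp_le_exp.2
      have : t - T ≤ 1 := by linarith [ht.2, hT.1]
      nlinarith
    calc (B.b w (deriv Y t)) ^ 2 ≤ C * gU B K σ ξ Ψ c Y t w := h2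
      _ ≤ C * (gU B K σ ξ Ψ c Y T w * Real.exp (C * (t - T))) := by gcongr
      _ ≤ C * (gU B K σ ξ Ψ c Y T w * Real.exp C) := by gcongr
      _ = C * Real.exp C * gU B K σ ξ Ψ c Y T w := by ring
  -- bound on the derivative
  obtain ⟨CT, hCT0, hCT⟩ := Gh_le B K (Y T) (Real.exp (2 * σ (c T)) • deriv Y T)
    (fderiv ℝ (ξ ∘ Ψ) (Y T))
  set C' : ℝ := Real.sqrt (C * Real.exp C * CT) * ‖B.sharp‖ with hC'
  have hC'0 : 0 ≤ C' := by positivity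
  have hbd : ∀ t ∈ Ioo a b, T ≤ t → ‖deriv Y t‖ ≤ C' := by
    intro t ht hTt
    refine NormedSpace.norm_le_dual_bound ℝ _ hC'0 fun f => ?_
    have h1 := hgr t ht hTt (B.sharp f)
    rw [B.b_sharp] at h1
    have h2 : gU B K σ ξ Ψ c Y T (B.sharp f) ≤ CT * ‖B.sharp f‖ ^ 2 := hCT _
    have h3 : ‖B.sharp f‖ ≤ ‖B.sharp‖ * ‖f‖ := B.sharp.le_opNorm f
    have h4 : (f (deriv Y t)) ^ 2 ≤ (C' * ‖f‖) ^ 2 := by
      calc (f (deriv Y t)) ^ 2 ≤ C * Real.exp C * gU B K σ ξ Ψ c Y T (B.sharp f) := h1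
        _ ≤ C * Real.exp C * (CT * ‖B.sharp f‖ ^ 2) := by gcongr
        _ ≤ C * Real.exp C * (CT * (‖B.sharp‖ * ‖f‖) ^ 2) := by gcongr
        _ = (C * Real.exp C * CT) * (‖B.sharp‖ * ‖f‖) ^ 2 := by ring
        _ = (Real.sqrt (C * Real.exp C * CT)) ^ 2 * (‖B.sharp‖ * ‖f‖) ^ 2 := by
            rw [Real.sq_sqrt (by positivity)]
        _ = (C' * ‖f‖) ^ 2 := by rw [hC']; ring
    rw [Real.norm_eq_abs]
    exact abs_le_of_sq_le_sq h4 (by positivity)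
  -- bound on `K b(y₀, Y)`
  set M₁ : ℝ := Real.sqrt (|K| * (C * Real.exp C)) with hM₁
  have hM₁0 : 0 ≤ M₁ := Real.sqrt_nonneg _
  have hfd : ∀ t ∈ Ioo a b, T ≤ t → |K * B.b y₀ (deriv Y t)| ≤ M₁ := by
    intro t ht hTt
    have h1 := hgr t ht hTt y₀
    have h2 := gU_self hσ hξ (hY T hT)
    rw [hYT] at h2
    apply abs_le_of_sq_le_sq _ hM₁0
    have hK0 : 0 ≤ |K| := abs_nonneg K
    calc (K * B.b y₀ (deriv Y t)) ^ 2 = |K| * (|K| * (B.b y₀ (deriv Y t)) ^ 2) := by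
          rw [mul_pow, ← sq_abs K]; ring
      _ ≤ |K| * (|K| * (C * Real.exp C * gU B K σ ξ Ψ c Y T y₀)) := by gcongr
      _ = |K| * (C * Real.exp C) * (|K| * gU B K σ ξ Ψ c Y T y₀) := by ring
      _ ≤ |K| * (C * Real.exp C) * 1 := by gcongr
      _ = M₁ ^ 2 := by rw [hM₁, Real.sq_sqrt (by positivity), mul_one]
  have hIco : ∀ t ∈ Ico T b, t ∈ Ioo a b := fun t ht => ⟨hT.1.trans_le ht.1, ht.2⟩
  have hfb : ∀ t ∈ Ico T b, 1 / 2 ≤ K * B.b y₀ (Y t) + dl K := by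
    intro t ht
    have h1 : ∀ s ∈ Ico T b, HasDerivWithinAt (fun s => K * B.b y₀ (Y s))
        (K * B.b y₀ (deriv Y s)) (Ico T b) s := by
      intro s hs
      have h2 : HasDerivAt (fun s => B.b y₀ (Y s)) (B.b y₀ (deriv Y s)) s :=
        (B.b y₀).hasFDerivAt.comp_hasDerivAt s (hder s (hIco s hs))
      exact (h2.const_mul K).hasDerivWithinAt
    have h3 := (convex_Ico T b).norm_image_sub_le_of_norm_hasDerivWithin_le h1
      (fun s hs => by rw [Real.norm_eq_abs]; exact hfd s (hIco s hs) hs.1)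
      (left_mem_Ico.2 hT.2) ht
    have habs : ‖t - T‖ = t - T := by
      rw [Real.norm_eq_abs, abs_of_nonneg (sub_nonneg.2 ht.1)]
    rw [hYT, habs, Real.norm_eq_abs] at h3
    have h4 : K * B.b y₀ y₀ + dl K = 1 := by
      have := (hY T hT).onQ
      rw [hYT] at this
      exact this
    have h5 : M₁ * (t - T) ≤ M₁ * (b - a) := by
      apply mul_le_mul_of_nonneg_left _ hM₁0
      linarith [ht.2, hT.1]
    have h6 := (abs_le.1 h3).1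
    linarith
  -- Lipschitz and limit
  have hlip : LipschitzOnWith (Real.toNNReal C') Y (Ico T b) := by
    refine (convex_Ico T b).lipschitzOnWith_of_nnnorm_hasDerivWithin_le
      (fun s hs => (hder s (hIco s hs)).hasDerivWithinAt) fun s hs => ?_
    have := hbd s (hIco s hs) hs.1
    rw [← NNReal.coe_le_coe, coe_nnnorm, Real.coe_toNNReal _ hC'0]
    exact this
  obtain ⟨g, hg1, hg2⟩ := hlip.extend_finite_dimension
  have hlim : Tendsto Y (𝓝[<] b) (𝓝 (g b)) := by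
    have h1 : Tendsto g (𝓝[<] b) (𝓝 (g b)) := (hg1.continuous.tendsto b).mono_left nhdsWithin_le_nhds
    refine h1.congr' ?_
    filter_upwards [Ico_mem_nhdsLT hT.2] with s hs using (hg2 hs).symm
  refine ⟨g b, hlim, ?_, ?_, C', fun t ht => hbd t ⟨hT.1.trans ht.1, ht.2⟩ ht.1.le⟩
  · have h1 : Tendsto (fun t => K * B.b (Y t) (Y t) + dl K) (𝓝[<] b)
        (𝓝 (K * B.b (g b) (g b) + dl K)) :=
      (continuous_form.tendsto (g b)).comp hlim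
    have h2 : Tendsto (fun t => K * B.b (Y t) (Y t) + dl K) (𝓝[<] b) (𝓝 1) := by
      refine tendsto_const_nhds.congr' ?_
      filter_upwards [Ico_mem_nhdsLT hT.2] with s hs
      exact ((hY s (hIco s hs)).onQ).symm
    exact tendsto_nhds_unique h1 h2
  · have hcont : Continuous fun z : W => K * B.b y₀ z + dl K := by fun_prop
    have h1 : Tendsto (fun t => K * B.b y₀ (Y t) + dl K) (𝓝[<] b)
        (𝓝 (K * B.b y₀ (g b) + dl K)) := (hcont.tendsto (g b)).comp hlim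
    have h2 : 1 / 2 ≤ K * B.b y₀ (g b) + dl K := by
      refine ge_of_tendsto h1 ?_
      filter_upwards [Ico_mem_nhdsLT hT.2] with s hs using hfb s hs
    linarith

/-- A lift which is valid near `T`. -/
theorem lift_start {T : ℝ} (hc : ∀ᶠ t in 𝓝 T, G.Geo σ c t)
    {φ : M → W} {ψ : W → M} (h : G.chart (c T) φ ψ)
    (h1 : 0 < K * B.b y₀ (φ (c T)) + dl K) (h2 : ∀ᶠ z in 𝓝 (φ (c T)), Ψ z = ψ z) :
    ∀ᶠ t in 𝓝 T, G.Lift σ Ψ y₀ c (φ ∘ c) t := by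
  have hcT : ContinuousAt c T := hc.self_of_nhds.1
  have t1 : Tendsto (φ ∘ c) (𝓝 T) (𝓝 (φ (c T))) := ContinuousAt.comp (G.cont h) hcT
  have hpos : ∀ᶠ z in 𝓝 (φ (c T)), 0 < K * B.b y₀ z + dl K := by
    have hcont : Continuous fun z : W => K * B.b y₀ z + dl K := by fun_prop
    exact (hcont.tendsto (φ (c T))).eventually (lt_mem_nhds h1)
  filter_upwards [hc, hcT.eventually (G.nhds h),
    t1.eventually h2.eventually_nhds, t1.eventually hpos] with t q1 q2 q3 q4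
  exact ⟨q1, ⟨φ, ψ, q2, EventuallyEq.rfl, q3⟩, q4⟩

/-- Extension of lifts. -/
theorem lift_ext [T2Space M] (hdev : ∀ q, OnQ B.b K q → 0 < K * B.b y₀ q + dl K →
      ∃ φ ψ, G.chart (Ψ q) φ ψ ∧ φ (Ψ q) = q ∧ ∀ᶠ z in 𝓝 q, Ψ z = ψ z)
    {a b : ℝ} (hab : a < b) {Y : ℝ → W} (hY : ∀ t ∈ Ioo a b, G.Lift σ Ψ y₀ c Y t)
    (hc : ∀ᶠ t in 𝓝 b, G.Geo σ c t) {q : W} (hq : Tendsto Y (𝓝[<] b) (𝓝 q))
    (hq1 : OnQ B.b K q) (hq2 : 0 < K * B.b y₀ q + dl K) :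
    ∃ b' > b, ∃ Y' : ℝ → W, (∀ t ∈ Ioo a b', G.Lift σ Ψ y₀ c Y' t) ∧
      ∀ t ∈ Ioo a b, Y' t = Y t := by
  obtain ⟨φ, ψ, h1, h2, h3⟩ := hdev q hq1 hq2
  have hcb : ContinuousAt c b := hc.self_of_nhds.1
  have hψc : ContinuousAt ψ q := by
    have := G.cont_inv h1
    rwa [h2] at this
  have hnear : ∀ᶠ t in 𝓝[<] b, c t = ψ (Y t) := by
    filter_upwards [hq.eventually h3, Ioo_mem_nhdsLT hab] with t e1 e2
    rw [← e1, (hY t e2).dev]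
  have hcbq : c b = Ψ q := by
    have l1 : Tendsto c (𝓝[<] b) (𝓝 (c b)) := hcb.mono_left nhdsWithin_le_nhds
    have l2 : Tendsto c (𝓝[<] b) (𝓝 (ψ q)) := by
      have : Tendsto (fun t => ψ (Y t)) (𝓝[<] b) (𝓝 (ψ q)) := Tendsto.comp hψc hq
      exact this.congr' (hnear.mono fun t ht => ht.symm)
    rw [h3.self_of_nhds]
    exact tendsto_nhds_unique l1 l2
  have h1' : G.chart (c b) φ ψ := by rwa [hcbq]
  have h2' : φ (c b) = q := by rw [hcbq, h2]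
  have hst := lift_start (y₀ := y₀) (Ψ := Ψ) hc h1' (by rwa [h2']) (by rwa [h2'])
  have hr := G.right_inv h1'
  rw [h2'] at hr
  have hleft : ∀ᶠ t in 𝓝[<] b, Y t = (φ ∘ c) t := by
    filter_upwards [hnear, hq.eventually hr, Ioo_mem_nhdsLT hab] with t e1 e2 e3
    rw [Function.comp_apply, e1, e2.1, nrm_onQ (hY t e3).onQ]
  obtain ⟨δ₁, hδ₁, hball⟩ := Metric.eventually_nhds_iff_ball.1 hst
  obtain ⟨l, hl, hleft'⟩ := mem_nhdsLT_iff_exists_Ioo_subset.1 hleft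
  set m := max (b - δ₁) l with hm
  have hmb : m < b := max_lt (by linarith) hl
  obtain ⟨Y', e1, e2, e3⟩ := (locP_lift G σ Ψ y₀ c).glue (U := Ioo a b) (V := Ioo m (b + δ₁))
    isOpen_Ioo isOpen_Ioo hY (fun t ht => hball t (by
      rw [Real.ball_eq_Ioo]
      exact ⟨lt_of_le_of_lt (le_max_left _ _) ht.1, ht.2⟩))
    (fun t ht => hleft' ⟨lt_of_le_of_lt (le_max_right _ _) ht.2.1, ht.1.2⟩)
  refine ⟨b + δ₁, by linarith, Y', fun t ht => e1 t ?_, e2⟩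
  rcases lt_or_ge t b with h | h
  · exact Or.inl ⟨ht.1, h⟩
  · exact Or.inr ⟨hmb.trans_le h, ht.2⟩

/-- If the velocity is large near the end, the geodesic develops in a compact set and the
velocity is bounded. -/
theorem bounded_of_large [T2Space M] [FiniteDimensional ℝ W] (h0 : G.Complete (fun _ => 0))
    (hσ : G.Smooth σ) (hξ : G.Smooth ξ) {R C E₀ : ℝ} (hC : 0 < C)
    (hloc : ∀ (c : ℝ → M) (t : ℝ), (∀ᶠ s in 𝓝 t, G.Geo σ c s) →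
      |G.energy σ c t| ≤ E₀ → R ≤ ‖deriv (ξ ∘ c) t‖ → ∀ φ ψ, G.chart (c t) φ ψ → ∀ w : W,
      (∃ D, HasDerivAt (fun s => gq B K σ ξ φ ψ c s w) D t ∧
        |D| ≤ C * gq B K σ ξ φ ψ c t w) ∧
      (w ≠ 0 → 0 < gq B K σ ξ φ ψ c t w) ∧
      (B.b w (deriv (φ ∘ c) t)) ^ 2 ≤ C * gq B K σ ξ φ ψ c t w)
    {a b : ℝ} (hab : a < b) (hc : ∀ t ∈ Ioo a b, G.Geo σ c t)
    (hE : ∀ t ∈ Ioo a b, |G.energy σ c t| ≤ E₀)
    (hR : ∀ t ∈ Ioo a b, R ≤ ‖deriv (ξ ∘ c) t‖) (hab1 : b - a ≤ 1)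
    (hab2 : Real.sqrt (|K| * (C * Real.exp C)) * (b - a) ≤ 1 / 2) :
    ∃ R', ∀ᶠ t in 𝓝[<] b, ‖deriv (ξ ∘ c) t‖ ≤ R' := by
  set T : ℝ := (a + b) / 2 with hTdef
  have hT : T ∈ Ioo a b := by constructor <;> simp only [hTdef] <;> linarith
  obtain ⟨φ₀, ψ₀, hch⟩ := G.exists_chart (c T)
  obtain ⟨Ψ, hΨ1, hdev⟩ := exists_dev h0 hch
  set y₀ : W := φ₀ (c T) with hy₀
  have hy₀Q : OnQ B.b K y₀ := G.onQ hch
  have hy₀1 : K * B.b y₀ y₀ + dl K = 1 := hy₀Q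
  obtain ⟨φ, ψ, k1, k2, k3⟩ := hdev y₀ hy₀Q (by rw [hy₀1]; norm_num)
  rw [hΨ1] at k1 k2
  have hgeo : ∀ t ∈ Ioo a b, ∀ᶠ s in 𝓝 t, G.Geo σ c s := fun t ht => by
    filter_upwards [Ioo_mem_nhds ht.1 ht.2] with s hs using hc s hs
  have hst := lift_start (y₀ := y₀) (Ψ := Ψ) (hgeo T hT) k1 (by rw [k2, hy₀1]; norm_num)
    (by rwa [k2])
  obtain ⟨δ, hδ, hball⟩ := Metric.eventually_nhds_iff_ball.1
    (hst.and (Ioo_mem_nhds hT.1 hT.2))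
  rw [Real.ball_eq_Ioo] at hball
  -- the interval around `T`
  have hTδ : T ∈ Ioo (T - δ) (T + δ) := by constructor <;> linarith
  have hsubl : a ≤ T - δ := by
    by_contra hcon
    push Not at hcon
    have : max (T - δ) ((T - δ + a) / 2) < T := max_lt (by linarith) (by linarith [hT.1])
    have h2 := (hball ((T - δ + a) / 2) ⟨by linarith, by linarith [hT.1]⟩).2.1
    linarith
  have hsubr : T + δ ≤ b := by
    by_contra hcon
    push Not at hcon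
    have h2 := (hball ((T + δ + b) / 2) ⟨by linarith [hT.2], by linarith⟩).2.2
    linarith
  have hYT : (φ ∘ c) T = y₀ := k2
  -- the limit lemma on subintervals
  have hlim : ∀ b₁, T < b₁ → b₁ ≤ b → ∀ Y : ℝ → W,
      (∀ t ∈ Ioo (T - δ) b₁, G.Lift σ Ψ y₀ c Y t) → Y T = y₀ →
      ∃ q, Tendsto Y (𝓝[<] b₁) (𝓝 q) ∧ OnQ B.b K q ∧ 0 < K * B.b y₀ q + dl K ∧
      ∃ C', ∀ t ∈ Ioo T b₁, ‖deriv Y t‖ ≤ C' := by
    intro b₁ hb₁ hb₁b Y hY hYT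
    have hsub : ∀ t ∈ Ioo (T - δ) b₁, t ∈ Ioo a b := fun t ht =>
      ⟨lt_of_le_of_lt hsubl ht.1, ht.2.trans_le hb₁b⟩
    refine lift_limit hσ hξ hC hloc (T := T) ⟨by linarith, hb₁⟩ hY
      (fun t ht => hE t (hsub t ht)) (fun t ht => hR t (hsub t ht)) hYT (by linarith) ?_
    refine le_trans ?_ hab2
    exact mul_le_mul_of_nonneg_left (by linarith) (Real.sqrt_nonneg _)
  -- continuation of the lift
  obtain ⟨Y, hY1, hY2⟩ := (locP_lift G σ Ψ y₀ c).continuation (a := T - δ) (b₀ := T + δ)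
    (T := (b : EReal)) (by linarith) (c₀ := φ ∘ c) (fun t ht => (hball t ht).1) (by
      intro b₁ hb₁ hb₁b Y hY hY0
      have hb₁b' : b₁ < b := EReal.coe_lt_coe_iff.1 hb₁b
      have hTb₁ : T < b₁ := by linarith
      obtain ⟨q, q1, q2, q3, _⟩ := hlim b₁ hTb₁ hb₁b'.le Y hY (by
        rw [hY0 T hTδ, hYT])
      exact lift_ext hdev (by linarith) hY (hgeo b₁ ⟨by linarith [hT.1], hb₁b'⟩) q1 q2 q3)
  have hY3 : ∀ t ∈ Ioo (T - δ) b, G.Lift σ Ψ y₀ c Y t := fun t ht =>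
    hY1 t ht.1 (EReal.coe_lt_coe_iff.2 ht.2)
  obtain ⟨q, q1, q2, q3, C', hC'⟩ := hlim b hT.2 le_rfl Y hY3 (by rw [hY2 T hTδ, hYT])
  obtain ⟨φ₁, ψ₁, l1, l2, l3⟩ := hdev q q2 q3
  -- bound for the derivative of `ξ ∘ ψ₁` near `q`
  have hsm := hξ l1
  rw [l2] at hsm
  have hfd : ContinuousAt (fderiv ℝ (ξ ∘ ψ₁)) q :=
    (hsm.fderiv_right (m := 1) (by norm_num)).continuousAt
  have hbdd : ∀ᶠ z in 𝓝 q, ‖fderiv ℝ (ξ ∘ ψ₁) z‖ < ‖fderiv ℝ (ξ ∘ ψ₁) q‖ + 1 :=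
    hfd.norm.eventually (gt_mem_nhds (lt_add_one _))
  have hdf : ∀ᶠ z in 𝓝 q, DifferentiableAt ℝ (ξ ∘ ψ₁) z := by
    have h1 : ContDiffAt ℝ 1 (ξ ∘ ψ₁) q := hsm.of_le (by norm_num)
    filter_upwards [h1.eventually (by simp)] with z hz using hz.differentiableAt (by norm_num)
  refine ⟨(‖fderiv ℝ (ξ ∘ ψ₁) q‖ + 1) * C', ?_⟩
  filter_upwards [q1.eventually hbdd, q1.eventually hdf, q1.eventually l3.eventually_nhds,
    Ioo_mem_nhdsLT hT.2] with t m1 m2 m3 m4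
  have ht : t ∈ Ioo (T - δ) b := ⟨by linarith [m4.1], m4.2⟩
  have hYt := hY3 t ht
  have hd := lift_hasDerivAt hσ hYt
  have hcd : (ξ ∘ c) =ᶠ[𝓝 t] (ξ ∘ ψ₁) ∘ Y := by
    filter_upwards [hYt.continuousAt.eventually m3, Ioo_mem_nhds ht.1 ht.2] with s n1 n2
    simp only [Function.comp_apply]
    rw [← n1, (hY3 s n2).dev]
  have hd2 : HasDerivAt (ξ ∘ c) (fderiv ℝ (ξ ∘ ψ₁) (Y t) (deriv Y t)) t :=
    (m2.hasFDerivAt.comp_hasDerivAt t hd).congr_of_eventuallyEq hcd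
  rw [hd2.deriv]
  calc ‖fderiv ℝ (ξ ∘ ψ₁) (Y t) (deriv Y t)‖ ≤ ‖fderiv ℝ (ξ ∘ ψ₁) (Y t)‖ * ‖deriv Y t‖ :=
        ContinuousLinearMap.le_opNorm _ _
    _ ≤ (‖fderiv ℝ (ξ ∘ ψ₁) q‖ + 1) * C' := by
        have := hC' t m4
        gcongr

/-- The main theorem in the abstract setting. -/
theorem main [CompactSpace M] [T2Space M] [FiniteDimensional ℝ W]
    (h0 : G.Complete (fun _ => 0)) (hσ : G.Smooth σ) (hξ : G.Smooth ξ)
    (himm : G.Immersion ξ) : G.Complete σ := by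
  refine complete_of_ext hσ fun a b hab c hc => ?_
  set mid : ℝ := (a + b) / 2 with hmid
  have hm : mid ∈ Ioo a b := by constructor <;> simp only [hmid] <;> linarith
  set E₀ : ℝ := |G.energy σ c mid| with hE₀
  have hE : ∀ t ∈ Ioo a b, |G.energy σ c t| ≤ E₀ := fun t ht => by
    rw [energy_const hσ isOpen_Ioo ordConnected_Ioo hc t ht mid hm]
  obtain ⟨R, C, hR, hC, hloc⟩ := loc_est hσ hξ himm E₀
  by_cases hfr : ∃ᶠ t in 𝓝[<] b, ‖deriv (ξ ∘ c) t‖ ≤ R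
  · exact ext_crit hσ hξ himm hab hc hfr
  · have hlarge : ∀ᶠ t in 𝓝[<] b, R ≤ ‖deriv (ξ ∘ c) t‖ := by
      filter_upwards [not_frequently.1 hfr] with t ht
      exact (not_le.1 ht).le
    obtain ⟨l, hl, hl2⟩ := mem_nhdsLT_iff_exists_Ioo_subset.1 hlarge
    set κ : ℝ := Real.sqrt (|K| * (C * Real.exp C)) with hκ
    have hκ0 : 0 ≤ κ := Real.sqrt_nonneg _
    set η : ℝ := 1 / (2 * (κ + 1)) with hη
    have hη0 : 0 < η := by positivity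
    have hη1 : η ≤ 1 := by
      rw [hη, div_le_one (by positivity)]; linarith
    have hη2 : κ * η ≤ 1 / 2 := by
      rw [hη, mul_one_div, div_le_div_iff₀ (by positivity) (by norm_num)]; nlinarith
    set a' : ℝ := max (max a l) (b - η) with ha'
    have h1 : a ≤ a' := (le_max_left _ _).trans (le_max_left _ _)
    have h2 : l ≤ a' := (le_max_right _ _).trans (le_max_left _ _)
    have h3 : b - η ≤ a' := le_max_right _ _
    have h4 : a' < b := max_lt (max_lt hab hl) (by linarith)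
    obtain ⟨R', hR'⟩ := bounded_of_large h0 hσ hξ hC hloc h4
      (fun t ht => hc t ⟨lt_of_le_of_lt h1 ht.1, ht.2⟩)
      (fun t ht => hE t ⟨lt_of_le_of_lt h1 ht.1, ht.2⟩)
      (fun t ht => hl2 ⟨lt_of_le_of_lt h2 ht.1, ht.2⟩) (by linarith) (by
        refine le_trans ?_ hη2
        exact mul_le_mul_of_nonneg_left (by linarith) hκ0)
    exact ext_crit hσ hξ himm hab hc hR'.frequently

end GX

end Pool.H1.Lor
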