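import Pool.Agent.H1.Lor.Energy
import Pool.Agent.H1.Lor.Core5

/-!
# The local estimate with uniform constants (P3)
-/

namespace Pool.H1.Lor

open Filter Topology Set Metric

variable {W : Type*} [NormedAddCommGroup W] [NormedSpace ℝ W]
  {F : Type*} [NormedAddCommGroup F] [InnerProductSpace ℝ F]

/-! ### Covariance of `Gh` -/

theorem mv_act (B : Form W) {K : ℝ} (A : Iso B.b K) (v : W) (L : W →L[ℝ] F) :
    mv B (A.L v) (L.comp (A.L.symm : W →L[ℝ] W)) = A.L (mv B v L) := by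
  refine B.eq_of_forall fun w => ?_
  have h : B.b (A.L (mv B v L)) w = B.b (mv B v L) (A.L.symm w) := by
    have := A.isom (mv B v L) (A.L.symm w)
    rwa [A.L.apply_symm_apply] at this
  rw [h, b_mv, b_mv]
  simp

theorem tv_act (B : Form W) {K : ℝ} (A : Iso B.b K) (v : W) (L : W →L[ℝ] F) :
    tv B (A.L v) (L.comp (A.L.symm : W →L[ℝ] W)) = A.L (tv B v L) := by
  unfold tv
  rw [mv_act, A.isom, map_sub, map_smul]

theorem Gh_act (B : Form W) {K : ℝ} (A : Iso B.b K) (y v : W) (L : W →L[ℝ] F) (w : W) :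
    Gh B K (A.act y) (A.L v) (L.comp (A.L.symm : W →L[ℝ] W)) w =
      Gh B K y v L (A.L.symm w) := by
  have hb : ∀ x, B.b w (A.L x) = B.b (A.L.symm w) x := by
    intro x
    have := A.isom (A.L.symm w) x
    rwa [A.L.apply_symm_apply] at this
  have h1 : B.b w w = B.b (A.L.symm w) (A.L.symm w) := (A.isom_symm w w).symm
  have h2 : (|K| - K) * (B.b w (A.act y) * B.b w (A.act y)) =
      (|K| - K) * (B.b (A.L.symm w) y * B.b (A.L.symm w) y) := by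
    by_cases hK : K = 0
    · simp [hK]
    · have : A.act y = A.L y := by unfold Iso.act; rw [A.a_eq_zero hK, add_zero]
      rw [this, hb]
  unfold Gh Bh
  rw [tv_act, A.isom, h2, hb, h1]

namespace GX

variable {M : Type*} [TopologicalSpace M] {B : Form W} {K : ℝ} {G : GX M B K}
  {σ : M → ℝ} {ξ : M → F}

/-- `ξ` is an immersion. -/
def Immersion (G : GX M B K) (ξ : M → F) : Prop :=
  ∀ ⦃x φ ψ⦄, G.chart x φ ψ → ∀ w, Tan B.b K (φ x) w → fderiv ℝ (ξ ∘ ψ) (φ x) w = 0 → w = 0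

/-- The quadratic form attached to a trajectory in a chart. -/
noncomputable def gq (B : Form W) (K : ℝ) (σ : M → ℝ) (ξ : M → F) (φ : M → W) (ψ : W → M)
    (c : ℝ → M) (s : ℝ) (w : W) : ℝ :=
  Gh B K (φ (c s)) (Real.exp (2 * σ (c s)) • deriv (φ ∘ c) s) (fderiv ℝ (ξ ∘ ψ) (φ (c s))) w

/-- A chart with all the relevant quantities bounded by `C`. -/
structure GoodChart (G : GX M B K) (σ : M → ℝ) (ξ : M → F) (C : ℝ) (x : M) (φ : M → W)
    (ψ : W → M) : Prop where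
  chart : G.chart x φ ψ
  y : ‖φ x‖ ≤ C
  e1 : Real.exp (2 * σ x) ≤ C
  e2 : Real.exp (-(2 * σ x)) ≤ C
  dσ : ‖fderiv ℝ (σ ∘ ψ) (φ x)‖ ≤ C
  dξ : ‖fderiv ℝ (ξ ∘ ψ) (φ x)‖ ≤ C
  ddξ : ‖fderiv ℝ (fderiv ℝ (ξ ∘ ψ)) (φ x)‖ ≤ C
  inj : ∀ w, Tan B.b K (φ x) w → ‖w‖ ≤ C * ‖fderiv ℝ (ξ ∘ ψ) (φ x) w‖

theorem GoodChart.mono {C C' : ℝ} {x : M} {φ : M → W} {ψ : W → M}
    (h : G.GoodChart σ ξ C x φ ψ) (hC : C ≤ C') : G.GoodChart σ ξ C' x φ ψ :=
  ⟨h.chart, h.y.trans hC, h.e1.trans hC, h.e2.trans hC, h.dσ.trans hC, h.dξ.trans hC,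
    h.ddξ.trans hC, fun w hw => (h.inj w hw).trans (by gcongr)⟩

omit [TopologicalSpace M] in
/-- Stability of the lower bound for an injective map. -/
theorem inj_stable [FiniteDimensional ℝ W] {L : W →L[ℝ] F} {y : W}
    (h : ∀ w, Tan B.b K y w → L w = 0 → w = 0) :
    ∃ C : ℝ, 0 < C ∧ ∀ᶠ p : W × (W →L[ℝ] F) in 𝓝 (y, L),
      ∀ w, Tan B.b K p.1 w → ‖w‖ ≤ C * ‖p.2 w‖ := by
  -- the map `w ↦ (L w, K b(y,w))`
  set T : W × (W →L[ℝ] F) → (W →L[ℝ] F × ℝ) := fun p => p.2.prod (K • B.b p.1) with hT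
  have hTc : Continuous T := by
    have h1 : Continuous fun p : W × (W →L[ℝ] F) => p.2 := continuous_snd
    have h2 : Continuous fun p : W × (W →L[ℝ] F) => K • B.b p.1 :=
      (B.b.continuous.comp continuous_fst).const_smul K
    exact (ContinuousLinearMap.prodₗᵢ (𝕜 := ℝ) (E := W) (F := F) (G := ℝ) ℝ).continuous.comp
      (h1.prodMk h2)
  have hinj : Function.Injective (T (y, L)) := by
    rw [injective_iff_map_eq_zero]
    intro w hw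
    have h1 : L w = 0 := congrArg Prod.fst hw
    have h2 : K * B.b y w = 0 := congrArg Prod.snd hw
    exact h w h2 h1
  obtain ⟨c', hc0, hc⟩ := (T (y, L) : W →ₗ[ℝ] F × ℝ).exists_antilipschitzWith
    (LinearMap.ker_eq_bot.2 hinj)
  obtain ⟨c, hcc⟩ : ∃ c : ℝ, c = c' := ⟨_, rfl⟩
  have hc' : ∀ w, ‖w‖ ≤ c * ‖T (y, L) w‖ := by
    intro w
    have := hc.le_mul_dist w 0
    rw [hcc]
    simpa [dist_eq_norm] using this
  have hcpos : (0 : ℝ) < c := by rw [hcc]; exact_mod_cast hc0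
  refine ⟨2 * c, by positivity, ?_⟩
  have hev : ∀ᶠ p in 𝓝 (y, L), ‖T p - T (y, L)‖ < (2 * c)⁻¹ := by
    have h1 : Tendsto (fun p => ‖T p - T (y, L)‖) (𝓝 (y, L)) (𝓝 0) := by
      have h3 : Continuous fun p => ‖T p - T (y, L)‖ :=
        (continuous_norm (E := W →L[ℝ] F × ℝ)).comp (hTc.sub continuous_const)
      have h4 := h3.tendsto (y, L)
      have h5 : ‖T (y, L) - T (y, L)‖ = 0 := by
        rw [sub_self]; exact norm_zero (E := W →L[ℝ] F × ℝ)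
      rwa [h5] at h4
    exact h1.eventually (gt_mem_nhds (by positivity))
  filter_upwards [hev] with p hp w hw
  have e1 : ‖T p w‖ = ‖p.2 w‖ := by
    have : T p w = (p.2 w, K * B.b p.1 w) := rfl
    rw [this, hw, Prod.norm_mk, norm_zero]
    exact max_eq_left (norm_nonneg _)
  have e2 : ‖T (y, L) w‖ ≤ ‖T p w‖ + (2 * c)⁻¹ * ‖w‖ := by
    have h3 : T (y, L) w = T p w - (T p - T (y, L)) w := by
      rw [sub_apply]; abel
    rw [h3]
    refine (norm_sub_le _ _).trans ?_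
    have := (T p - T (y, L)).le_opNorm w
    have h4 : ‖T p - T (y, L)‖ * ‖w‖ ≤ (2 * c)⁻¹ * ‖w‖ := by gcongr
    linarith
  have e3 : ‖w‖ ≤ c * ‖p.2 w‖ + ‖w‖ / 2 := by
    calc ‖w‖ ≤ c * ‖T (y, L) w‖ := hc' w
      _ ≤ c * (‖T p w‖ + (2 * c)⁻¹ * ‖w‖) := by gcongr
      _ = c * ‖p.2 w‖ + ‖w‖ / 2 := by rw [e1]; field_simp
  linarith

/-- Near every point there is a good chart. -/
theorem eventually_goodChart [FiniteDimensional ℝ W] (hσ : G.Smooth σ) (hξ : G.Smooth ξ)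
    (himm : G.Immersion ξ) {x : M} {φ : M → W} {ψ : W → M} (h : G.chart x φ ψ) :
    ∃ C : ℝ, ∀ᶠ x' in 𝓝 x, G.GoodChart σ ξ C x' φ ψ := by
  have hφ : Tendsto φ (𝓝 x) (𝓝 (φ x)) := G.cont h
  have hσ2 := hσ h
  have hξ2 := hξ h
  have c1 : ContinuousAt (fderiv ℝ (σ ∘ ψ)) (φ x) :=
    (hσ2.fderiv_right (m := 1) (by norm_num)).continuousAt
  have c2 : ContDiffAt ℝ 1 (fderiv ℝ (ξ ∘ ψ)) (φ x) := hξ2.fderiv_right (by norm_num)
  have c3 : ContinuousAt (fderiv ℝ (fderiv ℝ (ξ ∘ ψ))) (φ x) :=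
    (c2.fderiv_right (m := 0) (by norm_num)).continuousAt
  have cσ : ContinuousAt (fun x' => (σ ∘ ψ) (φ x')) x :=
    ContinuousAt.comp (g := σ ∘ ψ) (f := φ) hσ2.continuousAt hφ
  have cσ' : Tendsto (fun x' => (σ ∘ ψ) (φ x')) (𝓝 x) (𝓝 (σ x)) := by
    have := cσ.tendsto
    simpa [G.left_inv h] using this
  obtain ⟨C₀, hC₀, hev⟩ := inj_stable (B := B) (K := K) (L := fderiv ℝ (ξ ∘ ψ) (φ x)) (y := φ x)
    (himm h)
  have tp : Tendsto (fun x' => (φ x', fderiv ℝ (ξ ∘ ψ) (φ x'))) (𝓝 x)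
      (𝓝 (φ x, fderiv ℝ (ξ ∘ ψ) (φ x))) :=
    hφ.prodMk_nhds (c2.continuousAt.tendsto.comp hφ)
  set C : ℝ := max C₀ (max (‖φ x‖ + 1) (max (Real.exp (2 * σ x) + 1)
    (max (Real.exp (-(2 * σ x)) + 1) (max (‖fderiv ℝ (σ ∘ ψ) (φ x)‖ + 1)
    (max (‖fderiv ℝ (ξ ∘ ψ) (φ x)‖ + 1) (‖fderiv ℝ (fderiv ℝ (ξ ∘ ψ)) (φ x)‖ + 1)))))) with hC
  refine ⟨C, ?_⟩
  have i0 : C₀ ≤ C := le_max_left _ _
  have i1 : ‖φ x‖ + 1 ≤ C := (le_max_left _ _).trans (le_max_right _ _)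
  have i2 : Real.exp (2 * σ x) + 1 ≤ C :=
    ((le_max_left _ _).trans (le_max_right _ _)).trans (le_max_right _ _)
  have i3 : Real.exp (-(2 * σ x)) + 1 ≤ C :=
    (((le_max_left _ _).trans (le_max_right _ _)).trans (le_max_right _ _)).trans
      (le_max_right _ _)
  have i4 : ‖fderiv ℝ (σ ∘ ψ) (φ x)‖ + 1 ≤ C :=
    ((((le_max_left _ _).trans (le_max_right _ _)).trans (le_max_right _ _)).trans
      (le_max_right _ _)).trans (le_max_right _ _)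
  have i5 : ‖fderiv ℝ (ξ ∘ ψ) (φ x)‖ + 1 ≤ C :=
    (((((le_max_left _ _).trans (le_max_right _ _)).trans (le_max_right _ _)).trans
      (le_max_right _ _)).trans (le_max_right _ _)).trans (le_max_right _ _)
  have i6 : ‖fderiv ℝ (fderiv ℝ (ξ ∘ ψ)) (φ x)‖ + 1 ≤ C :=
    (((((le_max_right _ _).trans (le_max_right _ _)).trans (le_max_right _ _)).trans
      (le_max_right _ _)).trans (le_max_right _ _)).trans (le_max_right _ _)
  have key : ∀ {f : M → ℝ} {l : ℝ}, Tendsto f (𝓝 x) (𝓝 l) → l + 1 ≤ C →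
      ∀ᶠ x' in 𝓝 x, f x' ≤ C := by
    intro f l hf hl
    have := hf.eventually (gt_mem_nhds (show l < l + 1 by linarith))
    filter_upwards [this] with x' hx'
    linarith
  have t1 := key hφ.norm i1
  have t2 := key ((Real.continuous_exp.tendsto _).comp (cσ'.const_mul 2)) i2
  have t3 := key ((Real.continuous_exp.tendsto _).comp (cσ'.const_mul 2).neg) i3
  have t4 := key ((c1.tendsto.comp hφ).norm) i4
  have t5 := key ((c2.continuousAt.tendsto.comp hφ).norm) i5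
  have t6 := key (f := fun x' => ‖fderiv ℝ (fderiv ℝ (ξ ∘ ψ)) (φ x')‖)
    (((continuous_norm (E := W →L[ℝ] W →L[ℝ] F)).tendsto _).comp (c3.tendsto.comp hφ)) i6
  filter_upwards [G.nhds h, tp.eventually hev, t1, t2, t3, t4, t5, t6] with x' h0 h7 h1 h2 h3 h4 h5 h6
  have hx' := G.left_inv h0
  simp only [Function.comp_apply, hx'] at h2 h3
  exact ⟨h0, h1, h2, h3, h4, h5, h6, fun w hw => (h7 w hw).trans (by gcongr)⟩

/-- Uniform good charts on a compact space. -/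
theorem exists_goodChart [CompactSpace M] [FiniteDimensional ℝ W] (hσ : G.Smooth σ)
    (hξ : G.Smooth ξ) (himm : G.Immersion ξ) :
    ∃ C : ℝ, 1 ≤ C ∧ ∀ x : M, ∃ φ ψ, G.GoodChart σ ξ C x φ ψ := by
  have h1 : ∀ x : M, ∃ C : ℝ, ∀ᶠ x' in 𝓝 x, ∃ φ ψ, G.GoodChart σ ξ C x' φ ψ := by
    intro x
    obtain ⟨φ, ψ, h⟩ := G.exists_chart x
    obtain ⟨C, hC⟩ := eventually_goodChart hσ hξ himm h
    exact ⟨C, hC.mono fun x' hx' => ⟨φ, ψ, hx'⟩⟩
  choose C hC using h1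
  obtain ⟨t, ht⟩ := CompactSpace.elim_nhds_subcover
    (fun x => {x' | ∃ φ ψ, G.GoodChart σ ξ (C x) x' φ ψ}) (fun x => hC x)
  refine ⟨1 + ∑ x ∈ t, |C x|, by
    have : 0 ≤ ∑ x ∈ t, |C x| := Finset.sum_nonneg fun _ _ => abs_nonneg _
    linarith, fun x => ?_⟩
  have hx : x ∈ (⋃ y ∈ t, {x' | ∃ φ ψ, G.GoodChart σ ξ (C y) x' φ ψ}) := by
    rw [ht]; trivial
  simp only [mem_iUnion, mem_ofPred_eq] at hx
  obtain ⟨y, hy, φ, ψ, h⟩ := hx
  refine ⟨φ, ψ, h.mono ?_⟩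
  have h2 : |C y| ≤ ∑ x ∈ t, |C x| :=
    Finset.single_le_sum (f := fun x => |C x|) (fun _ _ => abs_nonneg _) hy
  linarith [le_abs_self (C y)]

/-- `gq` in a second chart. -/
theorem gq_trans (hσ : G.Smooth σ) (hξ : G.Smooth ξ) {c : ℝ → M} {t : ℝ} (hc : G.Geo σ c t)
    {φ φ' : M → W} {ψ ψ' : W → M} (h : G.chart (c t) φ ψ) (h' : G.chart (c t) φ' ψ')
    {A : Iso B.b K} (hA : ∀ᶠ x' in 𝓝 (c t), φ' x' = A.act (φ x')) (w : W) :
    gq B K σ ξ φ' ψ' c t w = gq B K σ ξ φ ψ c t (A.L.symm w) := by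
  have h1 := (G.solAt_of_solAt hσ hc.1 h h' (hc.solAt hσ h) hA).2
  have h2 : φ' (c t) = A.act (φ (c t)) := hA.self_of_nhds
  have h3 : fderiv ℝ (ξ ∘ ψ') (φ' (c t)) =
      (fderiv ℝ (ξ ∘ ψ) (φ (c t))).comp (A.L.symm : W →L[ℝ] W) := by
    rw [(G.comp_trans ξ h h' hA).fderiv_eq]
    have h4 := A.hasFDerivAt_inv (φ' (c t))
    have h5 : HasFDerivAt (ξ ∘ ψ) (fderiv ℝ (ξ ∘ ψ) (φ (c t))) (A.inv (φ' (c t))) := by
      rw [h2, A.inv_act]; exact (G.differentiableAt hξ h).hasFDerivAt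
    exact (h5.comp _ h4).fderiv
  unfold gq
  rw [h1, h3, h2, ← map_smul]
  exact Gh_act B A _ _ _ _

theorem gq_trans_eventually (hσ : G.Smooth σ) (hξ : G.Smooth ξ) {c : ℝ → M} {t : ℝ}
    (hc : ∀ᶠ s in 𝓝 t, G.Geo σ c s)
    {φ φ' : M → W} {ψ ψ' : W → M} (h : G.chart (c t) φ ψ) (h' : G.chart (c t) φ' ψ')
    {A : Iso B.b K} (hA : ∀ᶠ x' in 𝓝 (c t), φ' x' = A.act (φ x')) (w : W) :
    (fun s => gq B K σ ξ φ' ψ' c s w) =ᶠ[𝓝 t] fun s => gq B K σ ξ φ ψ c s (A.L.symm w) := by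
  have hct : Tendsto c (𝓝 t) (𝓝 (c t)) := hc.self_of_nhds.1
  filter_upwards [hc, hct.eventually (G.nhds h), hct.eventually (G.nhds h'),
    hct.eventually hA.eventually_nhds] with s h1 h2 h3 h4
  exact gq_trans hσ hξ h1 h2 h3 h4 w

/-- The velocity in the variable `v = e^{2σ} y'`. -/
theorem hasDerivAt_vel (hσ : G.Smooth σ) {c : ℝ → M} {t : ℝ} (hc : G.Geo σ c t)
    {φ : M → W} {ψ : W → M} (h : G.chart (c t) φ ψ) :
    HasDerivAt (fun s => Real.exp (2 * σ (c s)) • deriv (φ ∘ c) s)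
      (G.energy σ c t • (B.sharp (fderiv ℝ (σ ∘ ψ) (φ (c t))) - K • φ (c t))) t := by
  have hs := hc.solAt hσ h
  have h1 : HasDerivAt (φ ∘ c) (deriv (φ ∘ c) t) t := hs.1.self_of_nhds
  have h2 := hs.2
  have hfd : HasFDerivAt (σ ∘ ψ) (fderiv ℝ (σ ∘ ψ) (φ (c t))) ((φ ∘ c) t) :=
    (G.differentiableAt hσ h).hasFDerivAt
  have h3 : HasDerivAt (fun s => (σ ∘ ψ) ((φ ∘ c) s))
      (fderiv ℝ (σ ∘ ψ) (φ (c t)) (deriv (φ ∘ c) t)) t := hfd.comp_hasDerivAt t h1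
  have h3' : HasDerivAt (fun s => σ (c s))
      (fderiv ℝ (σ ∘ ψ) (φ (c t)) (deriv (φ ∘ c) t)) t := by
    refine h3.congr_of_eventuallyEq ?_
    filter_upwards [hc.1.eventually (G.nhds h)] with s h2
    simp only [Function.comp_apply, G.left_inv h2]
  have h4 := (h3'.const_mul 2).exp
  refine (h4.smul h2).congr_deriv ?_
  rw [energy_eq hσ hc h]
  unfold acc
  simp only [Function.comp_apply]
  module

/-- The good data. -/
theorem good_of_goodChart (hσ : G.Smooth σ) (hξ : G.Smooth ξ) {C E₀ β s₀ : ℝ} (hC1 : 1 ≤ C)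
    (_hβ : ‖B.b‖ ≤ β) (hs : ‖B.sharp‖ ≤ s₀) {c : ℝ → M} {t : ℝ} (hc : G.Geo σ c t)
    {φ : M → W} {ψ : W → M} (h : G.GoodChart σ ξ C (c t) φ ψ) (hE : |G.energy σ c t| ≤ E₀) :
    Good B K (C ^ 2 * (1 + E₀ * (1 + s₀ + |K|))) (φ (c t))
      (Real.exp (2 * σ (c t)) • deriv (φ ∘ c) t) (fderiv ℝ (ξ ∘ ψ) (φ (c t)))
      (Real.exp (-(2 * σ (c t))))
      (G.energy σ c t • (B.sharp (fderiv ℝ (σ ∘ ψ) (φ (c t))) - K • φ (c t)))
      (fderiv ℝ (fderiv ℝ (ξ ∘ ψ)) (φ (c t)) (deriv (φ ∘ c) t)) := by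
  have hE0 : 0 ≤ E₀ := (abs_nonneg _).trans hE
  have hs0 : 0 ≤ s₀ := (norm_nonneg B.sharp).trans hs
  have hC0 : 0 ≤ C := by linarith
  have htan := tan_deriv hσ hc h.chart
  set e := Real.exp (2 * σ (c t)) with he
  have he0 : 0 < e := Real.exp_pos _
  have hee : Real.exp (-(2 * σ (c t))) * e = 1 := by
    rw [he, ← Real.exp_add]; simp
  have hC' : C ≤ C ^ 2 * (1 + E₀ * (1 + s₀ + |K|)) := by
    have h1 : C * 1 ≤ C * C := by gcongr
    have h2 : 0 ≤ C ^ 2 * (E₀ * (1 + s₀ + |K|)) := by positivity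
    nlinarith
  have htan' : Tan B.b K (φ (c t)) (e • deriv (φ ∘ c) t) := by
    unfold Tan at htan ⊢
    rw [map_smul, smul_eq_mul]
    linear_combination e * htan
  refine ⟨hC1.trans hC', ?_, h.y.trans hC', h.dξ.trans hC', ?_, ?_, ?_, ?_, G.onQ h.chart, htan',
    (G.homog hξ h.chart).self_of_nhds, G.lor h.chart⟩
  · rw [abs_of_pos (Real.exp_pos _)]
    exact h.e2.trans hC'
  · rw [norm_smul, Real.norm_eq_abs]
    have h1 : ‖B.sharp (fderiv ℝ (σ ∘ ψ) (φ (c t))) - K • φ (c t)‖ ≤ (s₀ + |K|) * C := by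
      refine (norm_sub_le _ _).trans ?_
      have e1 : ‖B.sharp (fderiv ℝ (σ ∘ ψ) (φ (c t)))‖ ≤ s₀ * C :=
        (B.sharp.le_opNorm _).trans (mul_le_mul hs h.dσ (norm_nonneg _) hs0)
      have e2 : ‖K • φ (c t)‖ ≤ |K| * C := by
        rw [norm_smul, Real.norm_eq_abs]
        exact mul_le_mul_of_nonneg_left h.y (abs_nonneg _)
      linarith
    calc |G.energy σ c t| * ‖B.sharp (fderiv ℝ (σ ∘ ψ) (φ (c t))) - K • φ (c t)‖
        ≤ E₀ * ((s₀ + |K|) * C) := by gcongr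
      _ = C * 1 * (E₀ * (0 + s₀ + |K|)) := by ring
      _ ≤ C * C * (E₀ * (1 + s₀ + |K|)) := by gcongr; norm_num
      _ ≤ C ^ 2 * (1 + E₀ * (1 + s₀ + |K|)) := by nlinarith [sq_nonneg C]
  · have e1 : deriv (φ ∘ c) t = Real.exp (-(2 * σ (c t))) • (e • deriv (φ ∘ c) t) := by
      rw [smul_smul, hee, one_smul]
    have e2 : ‖deriv (φ ∘ c) t‖ ≤ C * ‖e • deriv (φ ∘ c) t‖ := by
      conv_lhs => rw [e1]
      rw [norm_smul, Real.norm_of_nonneg (Real.exp_pos _).le]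
      exact mul_le_mul_of_nonneg_right h.e2 (norm_nonneg _)
    calc ‖fderiv ℝ (fderiv ℝ (ξ ∘ ψ)) (φ (c t)) (deriv (φ ∘ c) t)‖
        ≤ ‖fderiv ℝ (fderiv ℝ (ξ ∘ ψ)) (φ (c t))‖ * ‖deriv (φ ∘ c) t‖ :=
          ContinuousLinearMap.le_opNorm _ _
      _ ≤ C * (C * ‖e • deriv (φ ∘ c) t‖) :=
          mul_le_mul h.ddξ e2 (norm_nonneg _) hC0
      _ = C ^ 2 * (1 + 0) * ‖e • deriv (φ ∘ c) t‖ := by ring
      _ ≤ C ^ 2 * (1 + E₀ * (1 + s₀ + |K|)) * ‖e • deriv (φ ∘ c) t‖ := by gcongr; positivity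
  · exact (h.inj _ htan').trans (mul_le_mul_of_nonneg_right hC' (norm_nonneg _))
  · have e1 : B.b (e • deriv (φ ∘ c) t) (e • deriv (φ ∘ c) t) = e * G.energy σ c t := by
      rw [energy_eq hσ hc h.chart, ← he]
      simp only [map_smul, smul_apply, smul_eq_mul]
    rw [e1, abs_mul, abs_of_pos he0]
    calc e * |G.energy σ c t| ≤ C * E₀ := mul_le_mul h.e1 hE (abs_nonneg _) hC0
      _ = C * 1 * (0 + E₀ * (1 + 0 + 0)) := by ring
      _ ≤ C * C * (1 + E₀ * (1 + s₀ + |K|)) := by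
          have := abs_nonneg K
          gcongr
          norm_num
      _ = C ^ 2 * (1 + E₀ * (1 + s₀ + |K|)) := by ring

/-- P3a. -/
theorem loc_est [CompactSpace M] [FiniteDimensional ℝ W] (hσ : G.Smooth σ) (hξ : G.Smooth ξ)
    (himm : G.Immersion ξ) (E₀ : ℝ) :
    ∃ R C : ℝ, 0 < R ∧ 0 < C ∧ ∀ (c : ℝ → M) (t : ℝ), (∀ᶠ s in 𝓝 t, G.Geo σ c s) →
      |G.energy σ c t| ≤ E₀ → R ≤ ‖deriv (ξ ∘ c) t‖ → ∀ φ ψ, G.chart (c t) φ ψ → ∀ w : W,
      (∃ D, HasDerivAt (fun s => gq B K σ ξ φ ψ c s w) D t ∧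
        |D| ≤ C * gq B K σ ξ φ ψ c t w) ∧
      (w ≠ 0 → 0 < gq B K σ ξ φ ψ c t w) ∧
      (B.b w (deriv (φ ∘ c) t)) ^ 2 ≤ C * gq B K σ ξ φ ψ c t w := by
  obtain ⟨C₁, hC₁, hgood⟩ := exists_goodChart hσ hξ himm
  set β := ‖B.b‖ with hβ
  set s₀ := ‖B.sharp‖ with hs₀
  set C₂ := C₁ ^ 2 * (1 + E₀ * (1 + s₀ + |K|)) with hC₂
  set R := C₁ * max 1 (2 * (β + 1) * s₀ * C₂ ^ 2) with hR
  refine ⟨R, max (cD K C₂ β s₀) (19 * C₂ ^ 4) + 1, ?_, ?_, ?_⟩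
  · have : 0 < max 1 (2 * (β + 1) * s₀ * C₂ ^ 2) := lt_of_lt_of_le one_pos (le_max_left _ _)
    positivity
  · have h19 : 0 ≤ 19 * C₂ ^ 4 := by positivity
    have := h19.trans (le_max_right (cD K C₂ β s₀) (19 * C₂ ^ 4))
    linarith
  intro c t hc hE hRt φ' ψ' h' w
  have hct := hc.self_of_nhds
  obtain ⟨φ, ψ, hg⟩ := hgood (c t)
  have h := hg.chart
  obtain ⟨A, hA⟩ := G.rigid h h'
  have hG := good_of_goodChart hσ hξ hC₁ le_rfl le_rfl hct hg hE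
  rw [← hC₂] at hG
  have hs := hct.solAt hσ h
  have h1 : HasDerivAt (φ ∘ c) (deriv (φ ∘ c) t) t := hs.1.self_of_nhds
  have hee : Real.exp (-(2 * σ (c t))) * Real.exp (2 * σ (c t)) = 1 := by
    rw [← Real.exp_add]; simp
  have hy : HasDerivAt (fun s => φ (c s))
      (Real.exp (-(2 * σ (c t))) • (Real.exp (2 * σ (c t)) • deriv (φ ∘ c) t)) t := by
    rw [smul_smul, hee, one_smul]; exact h1
  have hv := hasDerivAt_vel hσ hct h
  have c2 : ContDiffAt ℝ 1 (fderiv ℝ (ξ ∘ ψ)) (φ (c t)) := (hξ h).fderiv_right (by norm_num)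
  have hL : HasDerivAt (fun s => fderiv ℝ (ξ ∘ ψ) (φ (c s)))
      (fderiv ℝ (fderiv ℝ (ξ ∘ ψ)) (φ (c t)) (deriv (φ ∘ c) t)) t := by
    have : HasFDerivAt (fderiv ℝ (ξ ∘ ψ)) (fderiv ℝ (fderiv ℝ (ξ ∘ ψ)) (φ (c t))) ((φ ∘ c) t) :=
      (c2.differentiableAt (by norm_num)).hasFDerivAt
    exact this.comp_hasDerivAt t h1
  -- the size of `L v`
  have hLv : fderiv ℝ (ξ ∘ ψ) (φ (c t)) (Real.exp (2 * σ (c t)) • deriv (φ ∘ c) t) =
      Real.exp (2 * σ (c t)) • deriv (ξ ∘ c) t := by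
    rw [map_smul]
    congr 1
    have h2 : HasFDerivAt (ξ ∘ ψ) (fderiv ℝ (ξ ∘ ψ) (φ (c t))) ((φ ∘ c) t) :=
      (G.differentiableAt hξ h).hasFDerivAt
    have h3 := h2.comp_hasDerivAt t h1
    have h4 : (ξ ∘ c) =ᶠ[𝓝 t] (ξ ∘ ψ) ∘ (φ ∘ c) := by
      filter_upwards [hct.1.eventually (G.nhds h)] with s hs'
      simp only [Function.comp_apply, G.left_inv hs']
    exact (h3.congr_of_eventuallyEq h4).deriv.symm
  have hr : max 1 (2 * (β + 1) * s₀ * C₂ ^ 2) ≤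
      ‖fderiv ℝ (ξ ∘ ψ) (φ (c t)) (Real.exp (2 * σ (c t)) • deriv (φ ∘ c) t)‖ := by
    rw [hLv, norm_smul, Real.norm_of_nonneg (Real.exp_pos _).le]
    have h2 : C₁ * max 1 (2 * (β + 1) * s₀ * C₂ ^ 2) ≤ ‖deriv (ξ ∘ c) t‖ := hRt
    have h3 : ‖deriv (ξ ∘ c) t‖ ≤ C₁ * (Real.exp (2 * σ (c t)) * ‖deriv (ξ ∘ c) t‖) := by
      calc ‖deriv (ξ ∘ c) t‖ =
          Real.exp (-(2 * σ (c t))) * (Real.exp (2 * σ (c t)) * ‖deriv (ξ ∘ c) t‖) := by
            rw [← mul_assoc, hee, one_mul]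
        _ ≤ C₁ * (Real.exp (2 * σ (c t)) * ‖deriv (ξ ∘ c) t‖) := by
            have := hg.e2
            gcongr
    exact le_of_mul_le_mul_left (h2.trans h3) (by linarith)
  have hw0 : w ≠ 0 → A.L.symm w ≠ 0 := by
    intro hw h0
    exact hw (by simpa using h0)
  have egq : gq B K σ ξ φ' ψ' c t w = gq B K σ ξ φ ψ c t (A.L.symm w) :=
    gq_trans hσ hξ hct h h' hA w
  have hnn : 0 ≤ gq B K σ ξ φ ψ c t (A.L.symm w) := good_nonneg hG le_rfl le_rfl hr _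
  refine ⟨?_, ?_, ?_⟩
  · obtain ⟨D, hD1, hD2⟩ := core_deriv (y := fun s => φ (c s))
      (v := fun s => Real.exp (2 * σ (c s)) • deriv (φ ∘ c) s)
      (L := fun s => fderiv ℝ (ξ ∘ ψ) (φ (c s))) hy hv hL hG le_rfl le_rfl hr (A.L.symm w)
    refine ⟨D, ?_, ?_⟩
    · exact HasDerivAt.congr_of_eventuallyEq hD1 (gq_trans_eventually hσ hξ hc h h' hA w)
    · rw [egq]
      refine hD2.trans ?_
      have : cD K C₂ β s₀ ≤ max (cD K C₂ β s₀) (19 * C₂ ^ 4) + 1 := by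
        linarith [le_max_left (cD K C₂ β s₀) (19 * C₂ ^ 4)]
      exact mul_le_mul_of_nonneg_right this hnn
  · intro hw
    rw [egq]
    exact good_pos hG le_rfl le_rfl hr (hw0 hw)
  · rw [egq]
    have e1 : deriv (φ' ∘ c) t = A.L (deriv (φ ∘ c) t) :=
      (G.solAt_of_solAt hσ hct.1 h h' hs hA).2
    have e2 : B.b w (deriv (φ' ∘ c) t) = B.b (A.L.symm w) (deriv (φ ∘ c) t) := by
      rw [e1]
      have := A.isom (A.L.symm w) (deriv (φ ∘ c) t)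
      rwa [A.L.apply_symm_apply] at this
    rw [e2]
    have e3 := good_cs hG le_rfl le_rfl hr (A.L.symm w) (deriv (φ ∘ c) t)
    have e4 := good_Gv hG le_rfl le_rfl hr
    rw [smul_smul, hee, one_smul] at e4
    refine e3.trans ?_
    have e5 : 19 * C₂ ^ 4 ≤ max (cD K C₂ β s₀) (19 * C₂ ^ 4) + 1 := by
      linarith [le_max_right (cD K C₂ β s₀) (19 * C₂ ^ 4)]
    rw [mul_comm]
    exact mul_le_mul (e4.trans e5) le_rfl hnn ((by positivity : 0 ≤ 19 * C₂ ^ 4).trans e5)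

/-- P3b. -/
theorem gq_self (hσ : G.Smooth σ) (hξ : G.Smooth ξ) {c : ℝ → M} {t : ℝ} (hc : G.Geo σ c t)
    {φ : M → W} {ψ : W → M} (h : G.chart (c t) φ ψ) :
    |K| * gq B K σ ξ φ ψ c t (φ (c t)) ≤ 1 := by
  by_cases hK : K = 0
  · simp [hK]
  have hL := (G.homog hξ h).self_of_nhds
  have htan := tan_deriv hσ hc h
  have htan' : Tan B.b K (φ (c t)) (Real.exp (2 * σ (c t)) • deriv (φ ∘ c) t) := by
    unfold Tan at htan ⊢
    rw [map_smul, smul_eq_mul]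
    linear_combination Real.exp (2 * σ (c t)) * htan
  have hτ := tan_tv B _ _ hL htan'
  have hQ := G.onQ h
  unfold gq Gh Bh
  set τ := tv B (Real.exp (2 * σ (c t)) • deriv (φ ∘ c) t) (fderiv ℝ (ξ ∘ ψ) (φ (c t)))
  set y := φ (c t)
  have h1 : B.b y τ = 0 := (mul_eq_zero.1 hτ).resolve_left hK
  have h2 : K * B.b y y = 1 := by
    unfold OnQ at hQ
    rwa [dl_ne hK, add_zero] at hQ
  rw [h1]
  have h3 : B.b y y = K⁻¹ := by field_simp; linarith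
  rw [h3]
  apply le_of_eq
  rcases lt_or_gt_of_ne hK with h0 | h0
  · rw [abs_of_neg h0]; field_simp; ring
  · rw [abs_of_pos h0]; field_simp; ring

end GX

end Pool.H1.Lor
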