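import Pool.Agent.H1.Lor.Basic

/-!
# The geodesic ODE: local uniqueness and existence
-/

namespace Pool.H1.Lor

open Filter Topology Set

variable {W : Type*} [NormedAddCommGroup W] [NormedSpace ℝ W]

/-- The first order vector field of the geodesic equation. -/
noncomputable def fld (B : Form W) (K : ℝ) (S : W → ℝ) (p : W × W) : W × W :=
  (p.2, acc B K S p.1 p.2)

theorem contDiffAt_fld {B : Form W} {K : ℝ} {S : W → ℝ} {y u : W} (hS : ContDiffAt ℝ 2 S y) :
    ContDiffAt ℝ 1 (fld B K S) (y, u) := by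
  have h1 : ContDiffAt ℝ 1 (fderiv ℝ S) y := hS.fderiv_right (by norm_num)
  have h2 : ContDiffAt ℝ 1 (fun p : W × W => fderiv ℝ S p.1) (y, u) :=
    ContDiffAt.comp (g := fderiv ℝ S) (f := Prod.fst) (y, u) h1 contDiffAt_fst
  have hu : ContDiffAt ℝ 1 (fun p : W × W => p.2) (y, u) := contDiffAt_snd
  have hy : ContDiffAt ℝ 1 (fun p : W × W => p.1) (y, u) := contDiffAt_fst
  have hb : ContDiffAt ℝ 1 (fun p : W × W => B.b p.2 p.2) (y, u) :=
    ((B.b.contDiff.contDiffAt.comp (y, u) hu)).clm_apply hu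
  unfold fld acc
  refine hu.prodMk ?_
  exact ((((contDiffAt_const.mul hb).neg).smul hy).sub
    ((contDiffAt_const.mul (h2.clm_apply hu)).smul hu)).add
    (hb.smul (B.sharp.contDiff.contDiffAt.comp (y, u) h2))

theorem SolAt.hasDerivAt_pair {B : Form W} {K : ℝ} {S : W → ℝ} {y : ℝ → W} {t : ℝ}
    (h : SolAt B K S y t) :
    HasDerivAt (fun s => (y s, deriv y s)) (fld B K S (y t, deriv y t)) t :=
  (h.1.self_of_nhds).prodMk h.2

theorem solAt_of_pair {B : Form W} {K : ℝ} {S : W → ℝ} {α : ℝ → W × W} {t : ℝ}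
    (h : ∀ᶠ s in 𝓝 t, HasDerivAt α (fld B K S (α s)) s) :
    SolAt B K S (fun s => (α s).1) t ∧ deriv (fun s => (α s).1) t = (α t).2 := by
  have h1 : ∀ᶠ s in 𝓝 t, HasDerivAt (fun s => (α s).1) (α s).2 s := by
    filter_upwards [h] with s hs
    exact hs.fst
  have h2 : deriv (fun s => (α s).1) =ᶠ[𝓝 t] fun s => (α s).2 := by
    filter_upwards [h1] with s hs using hs.deriv
  refine ⟨⟨?_, ?_⟩, h2.self_of_nhds⟩
  · filter_upwards [h1] with s hs
    exact hs.differentiableAt.hasDerivAt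
  · have h3 : HasDerivAt (fun s => (α s).2) (fld B K S (α t)).2 t := (h.self_of_nhds).snd
    rw [h2.self_of_nhds]
    exact h3.congr_of_eventuallyEq h2

/-- Local uniqueness. -/
theorem sol_unique {B : Form W} {K : ℝ} {S : W → ℝ} {y z : ℝ → W} {t : ℝ}
    (hS : ContDiffAt ℝ 2 S (y t)) (hy : ∀ᶠ s in 𝓝 t, SolAt B K S y s)
    (hz : ∀ᶠ s in 𝓝 t, SolAt B K S z s) (h0 : y t = z t) (h1 : deriv y t = deriv z t) :
    y =ᶠ[𝓝 t] z := by
  have hX : ContDiffAt ℝ 1 (fld B K S) (y t, deriv y t) := contDiffAt_fld hS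
  obtain ⟨k, s, hs, hlip⟩ := hX.exists_lipschitzOnWith
  have hpy : ContinuousAt (fun s => (y s, deriv y s)) t := hy.self_of_nhds.hasDerivAt_pair.continuousAt
  have hpz : ContinuousAt (fun s => (z s, deriv z s)) t := hz.self_of_nhds.hasDerivAt_pair.continuousAt
  have hsz : s ∈ 𝓝 (z t, deriv z t) := by rwa [← h0, ← h1]
  have key := ODE_solution_unique_of_eventually (v := fun _ => fld B K S) (s := fun _ => s)
    (K := k) (f := fun s => (y s, deriv y s)) (g := fun s => (z s, deriv z s)) (t₀ := t)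
    (Eventually.of_forall fun _ => hlip)
    (by
      filter_upwards [hy, hpy.eventually_mem hs] with r hr hr'
      exact ⟨hr.hasDerivAt_pair, hr'⟩)
    (by
      filter_upwards [hz, hpz.eventually_mem hsz] with r hr hr'
      exact ⟨hr.hasDerivAt_pair, hr'⟩)
    (by simp [h0, h1])
  filter_upwards [key] with r hr using congrArg Prod.fst hr

namespace GX

variable {M : Type*} [TopologicalSpace M] {B : Form W} {K : ℝ} {G : GX M B K}
  {φ φ' : M → W} {ψ ψ' : W → M} {σ : M → ℝ} {c c' : ℝ → M} {t : ℝ}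

/-- near a time where `c` is a geodesic at nearby times, it solves the ODE in a fixed chart. -/
theorem eventually_solAt (hσ : G.Smooth σ) (hc : ∀ᶠ s in 𝓝 t, G.Geo σ c s)
    (h : G.chart (c t) φ ψ) : ∀ᶠ s in 𝓝 t, SolAt B K (σ ∘ ψ) (φ ∘ c) s := by
  have hcont : ContinuousAt c t := hc.self_of_nhds.1
  filter_upwards [hc, hcont.eventually (G.nhds h)] with s h1 h2
  exact h1.solAt hσ h2

/-- Local uniqueness of geodesics. -/
theorem geo_unique_local (hσ : G.Smooth σ) (hc : ∀ᶠ s in 𝓝 t, G.Geo σ c s)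
    (hc' : ∀ᶠ s in 𝓝 t, G.Geo σ c' s) (h : G.chart (c t) φ ψ) (h0 : c t = c' t)
    (h1 : deriv (φ ∘ c) t = deriv (φ ∘ c') t) : c =ᶠ[𝓝 t] c' := by
  have s1 := eventually_solAt hσ hc h
  have h' : G.chart (c' t) φ ψ := h0 ▸ h
  have s2 := eventually_solAt hσ hc' h'
  have key := sol_unique (hσ h) s1 s2 (by simp [h0]) h1
  have e1 : ∀ᶠ s in 𝓝 t, ψ (φ (c s)) = c s :=
    hc.self_of_nhds.1.eventually (G.eventually_left_inv h)
  have e2 : ∀ᶠ s in 𝓝 t, ψ (φ (c' s)) = c' s :=
    hc'.self_of_nhds.1.eventually (G.eventually_left_inv h')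
  filter_upwards [key, e1, e2] with s hs h3 h4
  rw [← h3, ← h4]
  exact congrArg ψ hs

/-- Uniqueness of geodesics on an interval. -/
theorem geo_unique [T2Space M] (hσ : G.Smooth σ) {s : Set ℝ} (hs : IsOpen s)
    (hs' : s.OrdConnected) (hc : ∀ r ∈ s, G.Geo σ c r) (hc' : ∀ r ∈ s, G.Geo σ c' r)
    (ht : t ∈ s) (h0 : c =ᶠ[𝓝 t] c') : ∀ r ∈ s, c r = c' r := by
  -- the set of times where the germs agree
  set A : Set ℝ := {r | c =ᶠ[𝓝 r] c'} with hA
  have hAo : IsOpen A := by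
    rw [isOpen_iff_mem_nhds]
    intro r hr
    exact (eventually_eventually_nhds.2 hr)
  have hcl : s ∩ closure A ⊆ A := by
    rintro r ⟨hr, hrA⟩
    have hcr : ContinuousAt c r := (hc r hr).1
    have hcr' : ContinuousAt c' r := (hc' r hr).1
    have hne : (𝓝[A] r).NeBot := mem_closure_iff_nhdsWithin_neBot.1 hrA
    have heq : c r = c' r := by
      refine tendsto_nhds_unique_of_frequently_eq hcr hcr' ?_
      have : ∃ᶠ x in 𝓝 r, x ∈ A := mem_closure_iff_frequently.1 hrA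
      exact this.mono fun x hx => hx.self_of_nhds
    obtain ⟨φ, ψ, h⟩ := G.exists_chart (c r)
    have h' : G.chart (c' r) φ ψ := heq ▸ h
    have ev : ∀ᶠ q in 𝓝 r, G.Geo σ c q := by
      filter_upwards [hs.mem_nhds hr] with q hq using hc q hq
    have ev' : ∀ᶠ q in 𝓝 r, G.Geo σ c' q := by
      filter_upwards [hs.mem_nhds hr] with q hq using hc' q hq
    have d1 : ContinuousAt (deriv (φ ∘ c)) r := ((hc r hr).solAt hσ h).2.continuousAt
    have d2 : ContinuousAt (deriv (φ ∘ c')) r := ((hc' r hr).solAt hσ h').2.continuousAt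
    have hd : deriv (φ ∘ c) r = deriv (φ ∘ c') r := by
      refine tendsto_nhds_unique_of_frequently_eq d1 d2 ?_
      have : ∃ᶠ x in 𝓝 r, x ∈ A := mem_closure_iff_frequently.1 hrA
      refine this.mono fun x hx => ?_
      exact (hx.fun_comp φ).deriv_eq
    exact geo_unique_local hσ ev ev' h heq hd
  have hpre : IsPreconnected s := hs'.isPreconnected
  have := hpre.subset_of_closure_inter_subset hAo ⟨t, ht, h0⟩ (by
    rintro r ⟨h1, h2⟩; exact hcl ⟨h2, h1⟩)
  intro r hr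
  exact (this hr).self_of_nhds

end GX

end Pool.H1.Lor
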