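import Pool.Agent.H1.Lor.Energy

/-!
# Reparametrisation: geodesics of the space form are straight lines, up to scaling
-/

namespace Pool.H1.Lor

open Filter Topology Set Metric

/-- The set of parameters. -/
def Jset (ω : ℝ) : Set ℝ := {l | 0 < 1 + ω * l ^ 2}

theorem isOpen_Jset (ω : ℝ) : IsOpen (Jset ω) :=
  isOpen_lt continuous_const (by fun_prop)

theorem ordConnected_Jset (ω : ℝ) : (Jset ω).OrdConnected := by
  constructor
  intro a ha b hb x hx
  have ha' : 0 < 1 + ω * a ^ 2 := ha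
  have hb' : 0 < 1 + ω * b ^ 2 := hb
  show 0 < 1 + ω * x ^ 2
  rcases le_or_gt 0 ω with h | h
  · positivity
  · have hx2 : x ^ 2 ≤ max (a ^ 2) (b ^ 2) := by
      rcases le_or_gt 0 x with h0 | h0
      · exact le_max_of_le_right (by nlinarith [hx.2])
      · exact le_max_of_le_left (by nlinarith [hx.1])
    rcases le_max_iff.1 hx2 with h1 | h1
    · nlinarith
    · nlinarith

theorem zero_mem_Jset (ω : ℝ) : (0 : ℝ) ∈ Jset ω := by simp [Jset]

/-- The affine parameter as a function of the projective one. -/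
noncomputable def sfun (ω l : ℝ) : ℝ := ∫ x in (0 : ℝ)..l, (1 + ω * x ^ 2)⁻¹

theorem sfun_zero (ω : ℝ) : sfun ω 0 = 0 := by simp [sfun]

theorem hasDerivAt_sfun {ω l : ℝ} (hl : l ∈ Jset ω) :
    HasDerivAt (sfun ω) ((1 + ω * l ^ 2)⁻¹) l := by
  have hcont : ContinuousOn (fun x : ℝ => (1 + ω * x ^ 2)⁻¹) (Jset ω) :=
    ContinuousOn.inv₀ (by fun_prop) fun x hx => (ne_of_gt hx)
  have hsub : uIcc 0 l ⊆ Jset ω := (ordConnected_Jset ω).uIcc_subset (zero_mem_Jset ω) hl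
  refine intervalIntegral.integral_hasDerivAt_right
    ((hcont.mono hsub).intervalIntegrable) ?_ (hcont.continuousAt ((isOpen_Jset ω).mem_nhds hl))
  exact hcont.stronglyMeasurableAtFilter (isOpen_Jset ω) l hl

variable {W : Type*} [NormedAddCommGroup W] [NormedSpace ℝ W]

namespace GX

variable {M : Type*} [TopologicalSpace M] {B : Form W} {K : ℝ} {G : GX M B K}
  {φ : M → W} {ψ : W → M} {c : ℝ → M}

/-- The scaled development `√(1+ωλ²) φ(c(s(λ)))`. -/
noncomputable def zet (φ : M → W) (c : ℝ → M) (ω l : ℝ) : W :=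
  Real.sqrt (1 + ω * l ^ 2) • φ (c (sfun ω l))

/-- its derivative. -/
noncomputable def zet' (φ : M → W) (c : ℝ → M) (ω l : ℝ) : W :=
  (ω * l * (Real.sqrt (1 + ω * l ^ 2))⁻¹) • φ (c (sfun ω l)) +
    (Real.sqrt (1 + ω * l ^ 2))⁻¹ • deriv (φ ∘ c) (sfun ω l)

theorem smooth_zero : G.Smooth (fun _ => (0 : ℝ)) := fun _ _ _ _ => contDiffAt_const

omit [TopologicalSpace M] in
theorem acc_zero (B : Form W) (K : ℝ) (ψ : W → M) (y u : W) :
    acc B K ((fun _ : M => (0 : ℝ)) ∘ ψ) y u = -(K * B.b u u) • y := by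
  unfold acc
  have : fderiv ℝ ((fun _ : M => (0 : ℝ)) ∘ ψ) y = 0 := by
    have : ((fun _ : M => (0 : ℝ)) ∘ ψ) = fun _ => (0 : ℝ) := rfl
    rw [this]; simp
  rw [this]
  simp

theorem hasDerivAt_zet (hc : ∀ t, G.Geo (fun _ => 0) c t) {ω : ℝ}
    (hω : ∀ t, K * G.energy (fun _ => 0) c t = ω) {l : ℝ} (hl : l ∈ Jset ω)
    (h : G.chart (c (sfun ω l)) φ ψ) :
    HasDerivAt (zet φ c ω) (zet' φ c ω l) l ∧ HasDerivAt (zet' φ c ω) 0 l := by
  have hs := (hc (sfun ω l)).solAt smooth_zero h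
  have hq0 : 0 < 1 + ω * l ^ 2 := hl
  have hq : Real.sqrt (1 + ω * l ^ 2) ≠ 0 := (Real.sqrt_pos.2 hq0).ne'
  have hqq : Real.sqrt (1 + ω * l ^ 2) ^ 2 = 1 + ω * l ^ 2 := Real.sq_sqrt hq0.le
  have d0 : HasDerivAt (fun l : ℝ => 1 + ω * l ^ 2) (ω * (2 * l)) l := by
    have := ((hasDerivAt_pow 2 l).const_mul ω).const_add 1
    simpa using this
  have d1 : HasDerivAt (fun l : ℝ => Real.sqrt (1 + ω * l ^ 2))
      (ω * l * (Real.sqrt (1 + ω * l ^ 2))⁻¹) l := by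
    refine (d0.sqrt hq0.ne').congr_deriv ?_
    field_simp
  have ds := hasDerivAt_sfun hl
  have d2 : HasDerivAt (fun l => (φ ∘ c) (sfun ω l))
      ((1 + ω * l ^ 2)⁻¹ • deriv (φ ∘ c) (sfun ω l)) l := by
    have h1 : HasDerivAt (φ ∘ c) (deriv (φ ∘ c) (sfun ω l)) (sfun ω l) := hs.1.self_of_nhds
    exact h1.scomp l ds
  have hacc : acc B K ((fun _ : M => (0 : ℝ)) ∘ ψ) ((φ ∘ c) (sfun ω l))
      (deriv (φ ∘ c) (sfun ω l)) = -ω • φ (c (sfun ω l)) := by
    rw [acc_zero]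
    have h2 := energy_eq smooth_zero (hc (sfun ω l)) h
    have h3 := hω (sfun ω l)
    rw [h2] at h3
    simp only [mul_zero, Real.exp_zero, one_mul] at h3
    rw [h3]
    rfl
  have d3 : HasDerivAt (fun l => deriv (φ ∘ c) (sfun ω l))
      ((1 + ω * l ^ 2)⁻¹ • (-ω • φ (c (sfun ω l)))) l := by
    have h1 := hs.2
    rw [hacc] at h1
    exact h1.scomp l ds
  constructor
  · refine (d1.smul d2).congr_deriv ?_
    unfold zet'
    rw [add_comm, smul_smul]
    congr 1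
    · congr 1
      have h9 : (1 + ω * l ^ 2)⁻¹ = (Real.sqrt (1 + ω * l ^ 2) ^ 2)⁻¹ := by rw [hqq]
      rw [h9]; field_simp
  · have d4 := (((hasDerivAt_id l).const_mul ω).mul (d1.inv hq)).smul d2
    have d5 := (d1.inv hq).smul d3
    refine (d4.add d5).congr_deriv ?_
    simp only [id_eq, smul_smul, Function.comp_apply, Pi.mul_apply, Pi.inv_apply]
    set y := φ (c (sfun ω l))
    set u := deriv (φ ∘ c) (sfun ω l)
    set q := Real.sqrt (1 + ω * l ^ 2) with hqdef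
    rw [← hqq]
    have e1 : (ω * l * q⁻¹ * (q ^ 2)⁻¹) • u + (-(ω * l * q⁻¹) / q ^ 2) • u = 0 := by
      rw [← add_smul]
      have : ω * l * q⁻¹ * (q ^ 2)⁻¹ + -(ω * l * q⁻¹) / q ^ 2 = 0 := by field_simp; ring
      rw [this, zero_smul]
    have e2 : (ω * 1 * q⁻¹ + ω * l * (-(ω * l * q⁻¹) / q ^ 2)) • y +
        (q⁻¹ * ((q ^ 2)⁻¹ * -ω)) • y = 0 := by
      rw [← add_smul]
      have : ω * 1 * q⁻¹ + ω * l * (-(ω * l * q⁻¹) / q ^ 2) + q⁻¹ * ((q ^ 2)⁻¹ * -ω) = 0 := by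
        have h9 : q ^ 2 = 1 + ω * l ^ 2 := hqq
        field_simp
        linear_combination ω * h9
      rw [this, zero_smul]
    calc _ = ((ω * l * q⁻¹ * (q ^ 2)⁻¹) • u + (-(ω * l * q⁻¹) / q ^ 2) • u) +
          ((ω * 1 * q⁻¹ + ω * l * (-(ω * l * q⁻¹) / q ^ 2)) • y +
        (q⁻¹ * ((q ^ 2)⁻¹ * -ω)) • y) := by abel
      _ = 0 := by rw [e1, e2, add_zero]

/-- `zet` is affine on intervals where the chart is valid. -/
theorem zet_affine (hc : ∀ t, G.Geo (fun _ => 0) c t) {ω : ℝ}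
    (hω : ∀ t, K * G.energy (fun _ => 0) c t = ω) {I : Set ℝ} (hI : IsOpen I)
    (hI' : I.OrdConnected) (hJ : I ⊆ Jset ω) (h : ∀ l ∈ I, G.chart (c (sfun ω l)) φ ψ)
    {l₀ : ℝ} (hl₀ : l₀ ∈ I) :
    ∀ l ∈ I, zet φ c ω l = zet φ c ω l₀ + (l - l₀) • zet' φ c ω l₀ := by
  have hd := fun l (hl : l ∈ I) => hasDerivAt_zet hc hω (hJ hl) (h l hl)
  have h1 : ∀ l ∈ I, zet' φ c ω l = zet' φ c ω l₀ := by
    intro l hl
    exact hI.is_const_of_deriv_eq_zero hI'.isPreconnected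
      (fun q hq => (hd q hq).2.differentiableAt.differentiableWithinAt)
      (fun q hq => (hd q hq).2.deriv) hl hl₀
  intro l hl
  have h2 : ∀ l ∈ I, HasDerivAt (fun l => zet φ c ω l - (l - l₀) • zet' φ c ω l₀) 0 l := by
    intro l hl
    have e1 := (hd l hl).1
    have e2 : HasDerivAt (fun l : ℝ => (l - l₀) • zet' φ c ω l₀) (zet' φ c ω l₀) l := by
      have := ((hasDerivAt_id l).sub_const l₀).smul_const (zet' φ c ω l₀)
      simpa using this
    refine (e1.sub e2).congr_deriv ?_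
    rw [h1 l hl, sub_self]
  have h3 := hI.is_const_of_deriv_eq_zero hI'.isPreconnected
      (fun q hq => (h2 q hq).differentiableAt.differentiableWithinAt)
      (fun q hq => (h2 q hq).deriv) hl hl₀
  simp only [sub_self, zero_smul, sub_zero] at h3
  rw [← h3]; abel

end GX

end Pool.H1.Lor
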